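import Pool.Agent.Hay64.Dich
import Mathlib

/-!
# Asymptotic formula for the coefficients of achronal lifts
-/

set_option autoImplicit false

open Complex Metric Set Filter Topology MeasureTheory
open scoped ComplexConjugate

namespace Hay64

variable {L F G R : ℂ → ℂ}

/-- coefficients of `L` from those of the difference to the model -/
theorem coef_PP_eq (h : AllN24.AchLift L F G R) {ζ : ℂ} (hζ : ‖ζ‖ = 1) (κ : ℝ)
    {n : ℕ} (hn : 1 ≤ n) :
    iteratedDeriv n L 0 / (n.factorial : ℂ) * ζ ^ n =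
      iteratedDeriv n (PP (fun W => L (ζ * psi I W)) κ) 0 / (n.factorial : ℂ) +
      (κ:ℂ) / 3 * (-2 * I * (2 * (n : ℂ) ^ 2 + 1)) := by
  have hz0 : (0:ℂ) ∈ ball (0:ℂ) 1 := by simp
  set P := PP (fun W => L (ζ * psi I W)) κ with hP
  have hPeq : ∀ z ∈ ball (0:ℂ) 1, L (ζ * z) = P z + (κ:ℂ) / 3 * (phi I z) ^ 3 := by
    intro z hz
    have hz' : ‖z‖ < 1 := by simpa using hz
    rw [hP]
    show L (ζ * z) = L (ζ * psi I (phi I z)) - (κ:ℂ) / 3 * (phi I z) ^ 3 +
      (κ:ℂ) / 3 * (phi I z) ^ 3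
    rw [psi_phi I_mem hz']
    ring
  have hcd : ∀ {f : ℂ → ℂ}, DifferentiableOn ℂ f (ball 0 1) → ContDiffAt ℂ n f 0 := by
    intro f hf
    exact ((hf.analyticOnNhd isOpen_ball) 0 hz0).contDiffAt
  have hLd : DifferentiableOn ℂ (fun W => L (ζ * psi I W)) HH := zk_comp_diff h.dL hζ
  have hPd : DifferentiableOn ℂ P (ball 0 1) :=
    (comp_diff hLd I_mem).sub ((phi_diff.pow 3).const_mul _)
  have h1 : iteratedDeriv n (fun z => L (ζ * z)) 0 =
      iteratedDeriv n (fun z => P z + (κ:ℂ) / 3 * (phi I z) ^ 3) 0 := iter_eq_of_ball hPeq n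
  rw [rot_iter h.dL hζ n 0 hz0, mul_zero] at h1
  have h2 : iteratedDeriv n (fun z => P z + (κ:ℂ) / 3 * (phi I z) ^ 3) 0 =
      iteratedDeriv n P 0 + iteratedDeriv n (fun z => (κ:ℂ) / 3 * (phi I z) ^ 3) 0 :=
    iteratedDeriv_fun_add (hcd hPd) (hcd ((phi_diff.pow 3).const_mul _))
  have h3 : iteratedDeriv n (fun z => (κ:ℂ) / 3 * (phi I z) ^ 3) 0 =
      (κ:ℂ) / 3 * iteratedDeriv n (fun z => (phi I z) ^ 3) 0 :=
    iteratedDeriv_const_mul_field _ _
  have hnf : (n.factorial : ℂ) ≠ 0 := by exact_mod_cast n.factorial_ne_zero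
  rw [← model_coef n hn, ← mul_div_assoc, mul_comm, ← mul_div_assoc, h1, h2, h3]
  field_simp

theorem asym (h : AllN24.AchLift L F G R) :
    ∃ x k : ℂ, ‖x‖ = 1 ∧
      Tendsto (fun n : ℕ => iteratedDeriv n L 0 / (n.factorial : ℂ) * x ^ n / (n : ℂ) ^ 2)
        atTop (𝓝 k) ∧
      ‖k‖ ≤ 2 / 3 * ‖deriv L 0‖ ∧
      (‖k‖ = 2 / 3 * ‖deriv L 0‖ → ∃ ζ : ℂ, ‖ζ‖ = 1 ∧ ∀ z ∈ ball (0 : ℂ) 1,
        deriv L z = deriv L 0 * ((1 + ζ * z) ^ 2 / (1 - ζ * z) ^ 4)) := by
  have hRB := radBound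
  have hL0 : 0 < ‖deriv L 0‖ := norm_pos_iff.2 (h.hL 0 (by simp))
  have hE0 : EE 0 = 1 := by simp [EE]
  have hI0 : ∀ {ζ : ℂ}, ‖ζ‖ = 1 → ‖deriv (fun W => L (ζ * psi I W)) I‖ = ‖deriv L 0‖ / 2 := by
    intro ζ hζ
    have h1 := zk_deriv_axis h hζ (le_refl (0:ℝ)) one_pos
    rw [hE0] at h1
    simp only [ofReal_one, mul_one, ofReal_zero, zero_mul, sub_zero, one_pow] at h1
    rw [h1]
    ring
  by_cases hpos : ∃ (ζ : ℂ) (a : ℝ), ‖ζ‖ = 1 ∧ 0 < a ∧
      Tendsto (fun v : ℝ => ‖deriv (fun W => L (ζ * psi I W)) (I * v)‖ / v ^ 2) atTop (𝓝 a)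
  · obtain ⟨ζ, a, hζ, ha, hlim⟩ := hpos
    have hH := zk_toH h hζ
    have hge : ∀ v : ℝ, 0 < v → a ≤ ‖deriv (fun W => L (ζ * psi I W)) (I * v)‖ / v ^ 2 := by
      intro v hv
      refine le_of_tendsto hlim ?_
      filter_upwards [eventually_ge_atTop v] with w hw
      exact hH.ax3 hRB hv hw
    have hale : a ≤ ‖deriv L 0‖ / 2 := by
      have h1 := hge 1 one_pos
      simp only [ofReal_one, mul_one, one_pow, div_one] at h1
      rwa [hI0 hζ] at h1
    obtain ⟨F', G', R', β, T⟩ := hH.exists_tip hRB ha hlim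
    obtain ⟨σ, hσ, hlims⟩ := T.exists_sign hRB
    have hσa : |σ * a| = a := by
      have : |σ| = 1 := by rcases hσ with h | h <;> rw [h] <;> norm_num
      rw [abs_mul, this, one_mul, abs_of_pos ha]
    have hkn : ‖((σ * a : ℝ) : ℂ) / 3 * (-4 * I)‖ = 4 / 3 * a := by
      rw [norm_mul, norm_div, Complex.norm_real, Real.norm_eq_abs, hσa, norm_mul, norm_neg,
        Complex.norm_I, Complex.norm_ofNat, Complex.norm_ofNat]
      ring
    refine ⟨ζ, ((σ * a : ℝ) : ℂ) / 3 * (-4 * I), hζ, ?_, ?_, ?_⟩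
    · -- the limit
      have t1 : Tendsto (fun n : ℕ =>
          iteratedDeriv n (PP (fun W => L (ζ * psi I W)) (σ * a)) 0 / (n.factorial : ℂ) /
            (n : ℂ) ^ 2) atTop (𝓝 0) := by
        rw [Metric.tendsto_atTop]
        intro ε hε
        obtain ⟨N, hN⟩ := T.coef hσ hlims (half_pos hε)
        refine ⟨max N 1, fun n hn => ?_⟩
        have hnN : N ≤ n := (le_max_left _ _).trans hn
        have hn1 : 1 ≤ n := (le_max_right _ _).trans hn
        have hn0 : (0:ℝ) < n := by exact_mod_cast hn1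
        have h2 := hN n hnN
        rw [dist_zero_right, norm_div, norm_pow, Complex.norm_natCast,
          div_lt_iff₀ (by positivity)]
        have : ε / 2 * (n:ℝ) ^ 2 < ε * (n:ℝ) ^ 2 := by
          apply mul_lt_mul_of_pos_right (by linarith) (by positivity)
        linarith
      have t2 : Tendsto (fun n : ℕ => ((σ * a : ℝ) : ℂ) / 3 * (-4 * I) +
          ((σ * a : ℝ) : ℂ) / 3 * (-2 * I) * (1 / (n : ℂ)) ^ 2) atTop
          (𝓝 (((σ * a : ℝ) : ℂ) / 3 * (-4 * I) + ((σ * a : ℝ) : ℂ) / 3 * (-2 * I) * 0 ^ 2)) := by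
        refine Tendsto.add tendsto_const_nhds (Tendsto.const_mul _ (Tendsto.pow ?_ 2))
        simpa using tendsto_one_div_atTop_nhds_zero_nat (𝕜 := ℂ)
      have t3 := t1.add t2
      have e : (0:ℂ) + (((σ * a : ℝ) : ℂ) / 3 * (-4 * I) + ((σ * a : ℝ) : ℂ) / 3 * (-2 * I) * 0 ^ 2)
          = ((σ * a : ℝ) : ℂ) / 3 * (-4 * I) := by ring
      rw [e] at t3
      refine t3.congr' ?_
      filter_upwards [eventually_ge_atTop 1] with n hn
      have hn0 : (n:ℂ) ≠ 0 := by exact_mod_cast (by omega : n ≠ 0)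
      rw [coef_PP_eq h hζ (σ * a) hn]
      field_simp
      ring
    · rw [hkn]
      linarith
    · intro hk
      rw [hkn] at hk
      have heq : a = ‖deriv L 0‖ / 2 := by linarith
      refine ⟨conj ζ, by rw [RCLike.norm_conj, hζ], ?_⟩
      apply rigid h hζ
      intro t ht
      have ht1 : (0:ℝ) < 1 - t := by linarith [ht.2]
      have ht2 : (0:ℝ) < 1 + t := by linarith [ht.1]
      have hv : 0 < EE t := EE_pos ht.1 ht.2
      have h1 := hge (EE t) hv
      rw [zk_deriv_axis h hζ ht.1 ht.2] at h1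
      have h2 := zk_anti h hRB hζ (le_refl (0:ℝ)) ht.1 ht.2
      simp only [sub_zero, one_pow, add_zero, div_one, one_mul, ofReal_zero, zero_mul] at h2
      have e1 : ‖deriv L ((t:ℂ) * ζ)‖ * ((1 - t) ^ 2 / 2) / EE t ^ 2 =
          ((1 - t) ^ 4 / (1 + t) ^ 2 * ‖deriv L ((t:ℂ) * ζ)‖) / 2 := by
        unfold EE
        field_simp
      rw [e1, heq] at h1
      have e2 : ‖deriv L ((t:ℂ) * ζ)‖ * (1 - t) ^ 4 / (1 + t) ^ 2 =
          (1 - t) ^ 4 / (1 + t) ^ 2 * ‖deriv L ((t:ℂ) * ζ)‖ := by ring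
      rw [e2]
      apply le_antisymm h2
      linarith
  · refine ⟨1, 0, by simp, ?_, by rw [norm_zero]; positivity, fun hk => ?_⟩
    · have hzero : ∀ ζ : ℂ, ‖ζ‖ = 1 →
          Tendsto (fun t : ℝ => (1 - t) ^ 4 * ‖deriv L ((t : ℂ) * ζ)‖) (𝓝[<] 1) (𝓝 0) := by
        intro ζ hζ
        obtain ⟨a, ha0, -, hlim⟩ := (zk_toH h hζ).exists_a hRB
        have ha : a = 0 := by
          by_contra hne
          exact hpos ⟨ζ, a, hζ, lt_of_le_of_ne ha0 (Ne.symm hne), hlim⟩
        rw [ha] at hlim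
        have hEE : Tendsto EE (𝓝[<] 1) atTop := by
          have h1 : Tendsto (fun t : ℝ => (1 - t)) (𝓝[<] 1) (𝓝[>] 0) := by
            rw [tendsto_nhdsWithin_iff]
            constructor
            · have : Tendsto (fun t : ℝ => 1 - t) (𝓝 1) (𝓝 (1 - 1)) :=
                (continuous_const.sub continuous_id).tendsto 1
              rw [sub_self] at this
              exact this.mono_left nhdsWithin_le_nhds
            · filter_upwards [self_mem_nhdsWithin] with t ht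
              have : t < 1 := ht
              show (0:ℝ) < 1 - t
              linarith
          have h2 := (tendsto_inv_nhdsGT_zero (𝕜 := ℝ)).comp h1
          have h3 : Tendsto (fun t : ℝ => 1 + t) (𝓝[<] 1) (𝓝 (1 + 1)) :=
            ((continuous_const.add continuous_id).tendsto 1).mono_left nhdsWithin_le_nhds
          have h4 := h3.pos_mul_atTop (by norm_num) h2
          refine h4.congr fun t => ?_
          simp only [Function.comp_apply, EE, div_eq_mul_inv]
        have h1 := hlim.comp hEE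
        have h2 : Tendsto (fun t : ℝ => 2 * (1 + t) ^ 2) (𝓝[<] 1) (𝓝 (2 * (1 + 1) ^ 2)) := by
          have : Continuous (fun t : ℝ => 2 * (1 + t) ^ 2) := by fun_prop
          exact (this.tendsto 1).mono_left nhdsWithin_le_nhds
        have h3 := h2.mul h1
        rw [mul_zero] at h3
        refine h3.congr' ?_
        have hI : Ioo (0:ℝ) 1 ∈ 𝓝[<] (1:ℝ) := Ioo_mem_nhdsLT one_pos
        filter_upwards [hI] with t ht
        have ht1 : (0:ℝ) < 1 - t := by linarith [ht.2]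
        have ht2 : (0:ℝ) < 1 + t := by linarith [ht.1]
        simp only [Function.comp_apply]
        rw [zk_deriv_axis h hζ ht.1.le ht.2]
        unfold EE
        field_simp
      have hz := alpha_zero h hRB hzero
      rw [tendsto_zero_iff_norm_tendsto_zero]
      refine hz.congr fun n => ?_
      rw [one_pow, mul_one, norm_div _ ((n:ℂ) ^ 2), norm_pow, Complex.norm_natCast]
    · rw [norm_zero] at hk
      linarith

end Hay64
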