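import Pool.Agent.Hay64.Half
import Pool.Agent.HU85.Tools
import Mathlib

/-!
# Schwarz-Pick and Harnack on the half-plane; behaviour on the imaginary axis
-/

set_option autoImplicit false

open Complex Metric Set Filter Topology
open scoped ComplexConjugate

namespace Hay64

theorem psi_norm_symm (W0 W : ℂ) : ‖psi W0 W‖ = ‖psi W W0‖ := by
  unfold psi
  rw [norm_div, norm_div, norm_sub_rev W W0]
  congr 1
  have : W0 - conj W = -(conj (W - conj W0)) := by simp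
  rw [this, norm_neg, RCLike.norm_conj]

/-- Schwarz-Pick for holomorphic maps of the half-plane to itself -/
theorem sp {R : ℂ → ℂ} (dR : DifferentiableOn ℂ R HH) (hR : ∀ w ∈ HH, 0 < (R w).im)
    {W0 W : ℂ} (hW0 : W0 ∈ HH) (hW : W ∈ HH) :
    ‖R W - R W0‖ ≤ ‖psi W0 W‖ * ‖R W - conj (R W0)‖ := by
  set g : ℂ → ℂ := fun z => psi (R W0) (R (phi W0 z)) with hg
  have hRW0 : R W0 ∈ HH := hR W0 hW0
  have hgd : DifferentiableOn ℂ g (ball 0 1) := by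
    have h1 := comp_diff dR hW0
    have h2 : ∀ z ∈ ball (0:ℂ) 1, R (phi W0 z) - conj (R W0) ≠ 0 := fun z hz =>
      den_ne hRW0 (hR _ (phi_mem hW0 (by simpa using hz)))
    exact (h1.sub_const _).div (h1.sub_const _) h2
  have hg1 : ∀ z ∈ ball (0:ℂ) 1, ‖g z‖ ≤ 1 := fun z hz =>
    (psi_norm_lt hRW0 (hR _ (phi_mem hW0 (by simpa using hz)))).le
  have hg0 : g 0 = 0 := by simp [hg, phi_zero, psi]
  have h1 := Pool.Agent.HU85.schwarz hgd hg1 hg0 (psi_norm_lt hW0 hW)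
  simp only [hg, phi_psi hW0 hW] at h1
  have h2 : 0 < ‖R W - conj (R W0)‖ := norm_pos_iff.2 (den_ne hRW0 (hR W hW))
  rw [psi, norm_div, div_le_iff₀ h2] at h1
  exact h1

theorem sp2 {R : ℂ → ℂ} (dR : DifferentiableOn ℂ R HH) (hR : ∀ w ∈ HH, 0 < (R w).im)
    {W0 W : ℂ} (hW0 : W0 ∈ HH) (hW : W ∈ HH) :
    ‖R W - R W0‖ ^ 2 * (W.im * W0.im) ≤ (R W).im * (R W0).im * ‖W - W0‖ ^ 2 := by
  have h1 := sp dR hR hW0 hW
  have h2 := den_sq (R W0) (R W)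
  have h3 := den_sq W0 W
  have hD : 0 < ‖W - conj W0‖ := norm_pos_iff.2 (den_ne hW0 hW)
  have ht : ‖psi W0 W‖ * ‖W - conj W0‖ = ‖W - W0‖ := by
    unfold psi
    rw [norm_div]
    field_simp
  have h4 : ‖R W - R W0‖ * ‖W - conj W0‖ ≤ ‖W - W0‖ * ‖R W - conj (R W0)‖ := by
    calc ‖R W - R W0‖ * ‖W - conj W0‖ ≤ ‖psi W0 W‖ * ‖R W - conj (R W0)‖ * ‖W - conj W0‖ := by
          gcongr
      _ = (‖psi W0 W‖ * ‖W - conj W0‖) * ‖R W - conj (R W0)‖ := by ring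
      _ = _ := by rw [ht]
  have h5 : ‖R W - R W0‖ ^ 2 * ‖W - conj W0‖ ^ 2 ≤ ‖W - W0‖ ^ 2 * ‖R W - conj (R W0)‖ ^ 2 := by
    have := mul_self_le_mul_self (by positivity) h4
    nlinarith
  have h6 : ‖W - conj W0‖ ^ 2 = ‖W - W0‖ ^ 2 + 4 * (W.im * W0.im) := by linarith
  have h7 : ‖R W - conj (R W0)‖ ^ 2 = ‖R W - R W0‖ ^ 2 + 4 * ((R W).im * (R W0).im) := by linarith
  rw [h6, h7] at h5
  nlinarith

theorem harn {R : ℂ → ℂ} (dR : DifferentiableOn ℂ R HH) (hR : ∀ w ∈ HH, 0 < (R w).im)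
    {W0 W : ℂ} (hW0 : W0 ∈ HH) (hW : W ∈ HH) :
    (R W).im ≤ (R W0).im * ((1 + ‖psi W0 W‖) / (1 - ‖psi W0 W‖)) := by
  have h1 := sp dR hR hW0 hW
  have h2 := den_sq (R W0) (R W)
  set t := ‖psi W0 W‖ with ht
  have ht0 : 0 ≤ t := norm_nonneg _
  have ht1 : t < 1 := psi_norm_lt hW0 hW
  have ha := hR W hW
  have hb := hR W0 hW0
  have h3 : (R W).im + (R W0).im ≤ ‖R W - conj (R W0)‖ := by
    have := Complex.abs_im_le_norm (R W - conj (R W0))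
    simp only [sub_im, conj_im, sub_neg_eq_add] at this
    exact (le_abs_self _).trans this
  have h4 : ‖R W - R W0‖ ^ 2 ≤ t ^ 2 * ‖R W - conj (R W0)‖ ^ 2 := by
    have := mul_self_le_mul_self (norm_nonneg _) h1
    nlinarith
  have h5 : ‖R W - conj (R W0)‖ ^ 2 * (1 - t ^ 2) ≤ 4 * ((R W).im * (R W0).im) := by nlinarith
  have h6 : ((R W).im + (R W0).im) ^ 2 * (1 - t ^ 2) ≤ 4 * ((R W).im * (R W0).im) := by
    refine le_trans ?_ h5
    apply mul_le_mul_of_nonneg_right _ (by nlinarith)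
    exact pow_le_pow_left₀ (by linarith) h3 2
  have h7 : ((R W).im - (R W0).im) ^ 2 ≤ (t * ((R W).im + (R W0).im)) ^ 2 := by nlinarith
  have h8 : (R W).im - (R W0).im ≤ t * ((R W).im + (R W0).im) :=
    abs_le_of_sq_le_sq' h7 (by positivity) |>.2
  rw [← mul_div_assoc, le_div_iff₀ (by linarith)]
  linarith

theorem q_le {W0 W : ℂ} (hW0 : W0 ∈ HH) (hW : W ∈ HH) :
    (1 + ‖psi W0 W‖) / (1 - ‖psi W0 W‖) ≤ ‖W - conj W0‖ ^ 2 / (W.im * W0.im) := by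
  have ht0 : 0 ≤ ‖psi W0 W‖ := norm_nonneg _
  have ht1 : ‖psi W0 W‖ < 1 := psi_norm_lt hW0 hW
  have h1 := psi_one_sub_sq hW0 hW
  have hD : 0 < ‖W - conj W0‖ := norm_pos_iff.2 (den_ne hW0 hW)
  have hm : 0 < W.im * W0.im := mul_pos hW hW0
  have h2 : ‖W - conj W0‖ ^ 2 / (W.im * W0.im) = 4 / (1 - ‖psi W0 W‖ ^ 2) := by
    rw [h1]
    field_simp
  rw [h2, div_le_div_iff₀ (by linarith) (by nlinarith)]
  nlinarith [mul_nonneg (mul_nonneg (sub_nonneg.2 ht1.le) (sub_nonneg.2 ht1.le))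
    (by linarith : 0 ≤ 3 + ‖psi W0 W‖)]

theorem q_pos {W0 W : ℂ} (hW0 : W0 ∈ HH) (hW : W ∈ HH) :
    0 < (1 + ‖psi W0 W‖) / (1 - ‖psi W0 W‖) := by
  have ht0 : 0 ≤ ‖psi W0 W‖ := norm_nonneg _
  have ht1 : ‖psi W0 W‖ < 1 := psi_norm_lt hW0 hW
  exact div_pos (by linarith) (by linarith)

/-- growth of `L'`: order three -/
theorem AchH.growL {L F G R : ℂ → ℂ} (h : AchH L F G R) (hRB : RadBound) {W0 W : ℂ}
    (hW0 : W0 ∈ HH) (hW : W ∈ HH) :
    W.im * ‖deriv L W‖ ≤ W0.im * ‖deriv L W0‖ *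
      ((1 + ‖psi W0 W‖) / (1 - ‖psi W0 W‖)) ^ 3 := by
  have h1 := h.grow hRB hW0 hW
  have h2 := harn h.dR h.hR hW hW0
  rw [← psi_norm_symm] at h2
  set q := (1 + ‖psi W0 W‖) / (1 - ‖psi W0 W‖) with hq
  have hq0 : 0 < q := q_pos hW0 hW
  have hr := h.hR W hW
  have hW0i : 0 < W0.im := hW0
  have h3 : (W.im * ‖deriv L W‖) * (R W).im ≤ (W0.im * ‖deriv L W0‖ * q ^ 3) * (R W).im := by
    calc (W.im * ‖deriv L W‖) * (R W).im = W.im * (‖deriv L W‖ * (R W).im) := by ring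
      _ ≤ W0.im * (‖deriv L W0‖ * (R W0).im) * q ^ 2 := h1
      _ ≤ W0.im * (‖deriv L W0‖ * ((R W).im * q)) * q ^ 2 := by gcongr
      _ = _ := by ring
  exact le_of_mul_le_mul_right h3 hr

theorem AchH.growL' {L F G R : ℂ → ℂ} (h : AchH L F G R) (hRB : RadBound) {W0 W : ℂ}
    (hW0 : W0 ∈ HH) (hW : W ∈ HH) :
    W.im * ‖deriv L W‖ ≤ W0.im * ‖deriv L W0‖ * (‖W - conj W0‖ ^ 2 / (W.im * W0.im)) ^ 3 := by
  refine (h.growL hRB hW0 hW).trans ?_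
  have hW0i : 0 < W0.im := hW0
  have := q_le hW0 hW
  have := q_pos hW0 hW
  gcongr

section axis

theorem axis_mem {v : ℝ} (hv : 0 < v) : (I * (v:ℂ)) ∈ HH := by
  rw [mem_HH]; simpa using hv

theorem axis_im (v : ℝ) : (I * (v:ℂ)).im = v := by simp

theorem axis_q {v0 v : ℝ} (hv0 : 0 < v0) (hv : v0 ≤ v) :
    (1 + ‖psi (I * (v0:ℂ)) (I * (v:ℂ))‖) / (1 - ‖psi (I * (v0:ℂ)) (I * (v:ℂ))‖) = v / v0 := by
  have h1 : ‖psi (I * (v0:ℂ)) (I * (v:ℂ))‖ = (v - v0) / (v + v0) := by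
    unfold psi
    have e1 : I * (v:ℂ) - I * (v0:ℂ) = I * ((v - v0 : ℝ) : ℂ) := by push_cast; ring
    have e2 : I * (v:ℂ) - conj (I * (v0:ℂ)) = I * ((v + v0 : ℝ) : ℂ) := by
      simp only [map_mul, conj_I, conj_ofReal]; push_cast; ring
    rw [norm_div, e1, e2, norm_mul, norm_mul, Complex.norm_I, one_mul, one_mul,
      Complex.norm_real, Complex.norm_real, Real.norm_of_nonneg (by linarith),
      Real.norm_of_nonneg (by linarith)]
  rw [h1]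
  have h2 : 0 < v + v0 := by linarith
  have e1 : 1 + (v - v0) / (v + v0) = 2 * v / (v + v0) := by field_simp; ring
  have e2 : 1 - (v - v0) / (v + v0) = 2 * v0 / (v + v0) := by field_simp; ring
  rw [e1, e2]
  field_simp

variable {L F G R : ℂ → ℂ}

theorem AchH.ax1 (h : AchH L F G R) (hRB : RadBound) {v0 v : ℝ} (hv0 : 0 < v0) (hv : v0 ≤ v) :
    ‖deriv L (I * v)‖ * (R (I * v)).im / v ≤ ‖deriv L (I * v0)‖ * (R (I * v0)).im / v0 := by
  have hv' : 0 < v := by linarith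
  have h1 := h.grow hRB (axis_mem hv0) (axis_mem hv')
  rw [axis_q hv0 hv, axis_im, axis_im] at h1
  rw [div_le_div_iff₀ hv' hv0]
  have e : v0 * (‖deriv L (I * v0)‖ * (R (I * v0)).im) * (v / v0) ^ 2 * v0 =
    v * (‖deriv L (I * v0)‖ * (R (I * v0)).im * v) := by field_simp
  have h2 := mul_le_mul_of_nonneg_right h1 hv0.le
  rw [e] at h2
  have h3 : v * (‖deriv L (I * v)‖ * (R (I * v)).im * v0) ≤
      v * (‖deriv L (I * v0)‖ * (R (I * v0)).im * v) := by linarith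
  exact le_of_mul_le_mul_left h3 hv'

theorem AchH.ax2 (h : AchH L F G R) {v0 v : ℝ} (hv0 : 0 < v0) (hv : v0 ≤ v) :
    v0 * (R (I * v0)).im ≤ v * (R (I * v)).im := by
  have hv' : 0 < v := by linarith
  have h1 := harn h.dR h.hR (axis_mem hv') (axis_mem hv0)
  rw [← psi_norm_symm, axis_q hv0 hv] at h1
  have e : v0 * ((R (I * v)).im * (v / v0)) = v * (R (I * v)).im := by field_simp
  have h2 := mul_le_mul_of_nonneg_left h1 hv0.le
  rwa [e] at h2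

theorem AchH.ax3 (h : AchH L F G R) (hRB : RadBound) {v0 v : ℝ} (hv0 : 0 < v0) (hv : v0 ≤ v) :
    ‖deriv L (I * v)‖ / v ^ 2 ≤ ‖deriv L (I * v0)‖ / v0 ^ 2 := by
  have hv' : 0 < v := by linarith
  have h1 := h.growL hRB (axis_mem hv0) (axis_mem hv')
  rw [axis_q hv0 hv, axis_im, axis_im] at h1
  rw [div_le_div_iff₀ (by positivity) (by positivity)]
  have e : v0 * ‖deriv L (I * v0)‖ * (v / v0) ^ 3 * v0 ^ 2 = v * (‖deriv L (I * v0)‖ * v ^ 2) := by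
    field_simp
  have h2 := mul_le_mul_of_nonneg_right h1 (by positivity : 0 ≤ v0 ^ 2)
  rw [e] at h2
  have h3 : v * (‖deriv L (I * v)‖ * v0 ^ 2) ≤ v * (‖deriv L (I * v0)‖ * v ^ 2) := by linarith
  exact le_of_mul_le_mul_left h3 hv'

theorem AchH.ax_diff (h : AchH L F G R) {β : ℝ}
    (hβ : ∀ v : ℝ, 0 < v → v * (R (I * v)).im ≤ β) {v0 v : ℝ} (hv0 : 0 < v0) (hv : v0 ≤ v) :
    ‖R (I * v) - R (I * v0)‖ ≤ β * (1 / v0 - 1 / v) := by
  have hv' : 0 < v := by linarith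
  have h1 := sp2 h.dR h.hR (axis_mem hv0) (axis_mem hv')
  rw [axis_im, axis_im] at h1
  have e1 : ‖I * (v:ℂ) - I * (v0:ℂ)‖ = v - v0 := by
    have : I * (v:ℂ) - I * (v0:ℂ) = I * ((v - v0 : ℝ) : ℂ) := by push_cast; ring
    rw [this, norm_mul, Complex.norm_I, one_mul, Complex.norm_real,
      Real.norm_of_nonneg (by linarith)]
  rw [e1] at h1
  have ha := hβ v hv'
  have hb := hβ v0 hv0
  have ha0 := h.hR _ (axis_mem hv')
  have hb0 := h.hR _ (axis_mem hv0)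
  have hβ0 : 0 ≤ β := (by positivity : 0 ≤ v * (R (I * v)).im).trans ha
  have h2 : ‖R (I * v) - R (I * v0)‖ ^ 2 * (v * v0) ^ 2 ≤ (β * (v - v0)) ^ 2 := by
    calc ‖R (I * v) - R (I * v0)‖ ^ 2 * (v * v0) ^ 2
        = (‖R (I * v) - R (I * v0)‖ ^ 2 * (v * v0)) * (v * v0) := by ring
      _ ≤ ((R (I * v)).im * (R (I * v0)).im * (v - v0) ^ 2) * (v * v0) := by gcongr
      _ = (v * (R (I * v)).im) * (v0 * (R (I * v0)).im) * (v - v0) ^ 2 := by ring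
      _ ≤ β * β * (v - v0) ^ 2 := by gcongr
      _ = _ := by ring
  have h3 : ‖R (I * v) - R (I * v0)‖ * (v * v0) ≤ β * (v - v0) := by
    have h4 : (‖R (I * v) - R (I * v0)‖ * (v * v0)) ^ 2 ≤ (β * (v - v0)) ^ 2 := by
      rw [mul_pow]; exact h2
    exact le_of_sq_le_sq h4 (mul_nonneg hβ0 (by linarith))
  have e2 : β * (1 / v0 - 1 / v) = β * (v - v0) / (v * v0) := by field_simp
  rw [e2, le_div_iff₀ (by positivity)]
  exact h3

end axis

end Hay64
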