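import Pool.Agent.AllN24.Coeff

/-!
# Coefficients from one-sided bounds of the imaginary part on a circle
-/

set_option autoImplicit false

namespace Hay64

open Complex Metric Set Filter Topology MeasureTheory AllN24
open scoped ComplexConjugate

/-- coefficients are bounded by the mean of `|Im L|` (without subtracting the value at `0`) -/
theorem coef_im {L : ℂ → ℂ} (dL : DifferentiableOn ℂ L (ball 0 1)) {n : ℕ} (hn : 1 ≤ n)
    {r : ℝ} (hr0 : 0 < r) (hr1 : r < 1) :
    ‖iteratedDeriv n L 0 / (n.factorial : ℂ)‖ * r ^ n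
      ≤ (1 / Real.pi) * ∫ θ in (0:ℝ)..(2 * Real.pi), |(L (circleMap 0 r θ)).im| := by
  set W : ℝ → ℂ := fun θ => L (circleMap 0 r θ) with hW
  have hcb : closedBall (0:ℂ) r ⊆ ball (0:ℂ) 1 := closedBall_subset_ball hr1
  have hsub : DifferentiableOn ℂ L (closedBall 0 r) := dL.mono hcb
  have hcirc : ∀ θ, circleMap 0 r θ ∈ closedBall (0:ℂ) r := fun θ =>
    circleMap_mem_closedBall _ hr0.le _
  have hWc : Continuous W := by
    exact hsub.continuousOn.comp_continuous (continuous_circleMap 0 r) hcirc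
  have hne : ∀ θ, circleMap 0 r θ ≠ 0 := fun θ => circleMap_ne_center hr0.ne'
  -- e θ = circleMap 0 1 θ
  set e : ℝ → ℂ := fun θ => cexp (θ * I) with he
  have hce : ∀ θ : ℝ, circleMap 0 r θ = (r : ℂ) * e θ := by
    intro θ; simp [circleMap, he]
  have hen : ∀ θ : ℝ, ‖e θ‖ = 1 := fun θ => Complex.norm_exp_ofReal_mul_I θ
  have hec : Continuous e := by
    rw [he]; fun_prop
  have hconj : ∀ θ : ℝ, conj (e θ) = (e θ)⁻¹ := by
    intro θ
    have h1 : e θ * conj (e θ) = 1 := by
      rw [Complex.mul_conj, Complex.normSq_eq_norm_sq, hen]; simp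
    exact eq_inv_of_mul_eq_one_right h1
  have hene : ∀ θ : ℝ, e θ ≠ 0 := fun θ => Complex.exp_ne_zero _
  -- Cauchy for derivatives
  have h1 := DifferentiableOn.circleIntegral_one_div_sub_center_pow_smul hr0 n hsub
  rw [cf_circle] at h1
  -- holomorphic moment vanishes
  have h2 : (∮ z in C(0, r), z ^ (n - 1) * L z) = 0 := by
    have hd : DifferentiableOn ℂ (fun z => z ^ (n - 1) * L z) (closedBall 0 r) :=
      (differentiable_id.pow _).differentiableOn.mul hsub
    exact Complex.circleIntegral_eq_zero_of_differentiable_on_off_countable hr0.le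
      Set.countable_empty hd.continuousOn (fun z hz => (hd z (ball_subset_closedBall hz.1)).differentiableAt
        (closedBall_mem_nhds_of_mem hz.1))
  rw [cf_circle] at h2
  -- rewrite integrands
  have e1 : ∀ θ : ℝ, (circleMap 0 r θ * I) * ((1 / (circleMap 0 r θ - 0) ^ (n + 1)) • L (circleMap 0 r θ))
      = (I / (r : ℂ) ^ n) * ((conj (e θ)) ^ n * W θ) := by
    intro θ
    have hz := hne θ
    have hr' : (r : ℂ) ≠ 0 := by exact_mod_cast hr0.ne'
    have hz' := hene θ
    rw [sub_zero, smul_eq_mul, hconj, inv_pow]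
    simp only [hW]
    rw [hce]
    field_simp
    ring
  have e2 : ∀ θ : ℝ, (circleMap 0 r θ * I) * ((circleMap 0 r θ) ^ (n - 1) * L (circleMap 0 r θ))
      = (I * (r : ℂ) ^ n) * ((e θ) ^ n * W θ) := by
    intro θ
    obtain ⟨m, rfl⟩ : ∃ m, n = m + 1 := ⟨n - 1, by omega⟩
    simp only [hW]
    rw [hce]
    simp only [Nat.add_sub_cancel]
    ring
  simp_rw [e1] at h1
  simp_rw [e2] at h2
  rw [intervalIntegral.integral_const_mul] at h1 h2
  have hr' : (r : ℂ) ≠ 0 := by exact_mod_cast hr0.ne'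
  have h3 : (∫ θ in (0:ℝ)..(2 * Real.pi), (e θ) ^ n * W θ) = 0 := by
    rcases mul_eq_zero.1 h2 with h | h
    · exfalso
      exact (mul_ne_zero Complex.I_ne_zero (pow_ne_zero n hr')) h
    · exact h
  have h4 : (∫ θ in (0:ℝ)..(2 * Real.pi), (conj (e θ)) ^ n * conj (W θ)) = 0 := by
    have : (∫ θ in (0:ℝ)..(2 * Real.pi), (conj (e θ)) ^ n * conj (W θ))
        = conj (∫ θ in (0:ℝ)..(2 * Real.pi), (e θ) ^ n * W θ) := by
      rw [intervalIntegral.integral_of_le Real.two_pi_pos.le,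
        intervalIntegral.integral_of_le Real.two_pi_pos.le, ← integral_conj]
      congr 1
      ext θ
      simp
    rw [this, h3, map_zero]
  -- difference
  have hi1 : IntervalIntegrable (fun θ => (conj (e θ)) ^ n * W θ) volume 0 (2 * Real.pi) :=
    (((Complex.continuous_conj.comp hec).pow n).mul hWc).intervalIntegrable _ _
  have hi2 : IntervalIntegrable (fun θ => (conj (e θ)) ^ n * conj (W θ)) volume 0 (2 * Real.pi) :=
    (((Complex.continuous_conj.comp hec).pow n).mul (Complex.continuous_conj.comp hWc)).intervalIntegrable _ _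
  have h5 : (∫ θ in (0:ℝ)..(2 * Real.pi), (conj (e θ)) ^ n * W θ)
      = ∫ θ in (0:ℝ)..(2 * Real.pi), (conj (e θ)) ^ n * (2 * I * ((W θ).im : ℂ)) := by
    have : (∫ θ in (0:ℝ)..(2 * Real.pi), (conj (e θ)) ^ n * W θ)
        = (∫ θ in (0:ℝ)..(2 * Real.pi), (conj (e θ)) ^ n * W θ)
          - ∫ θ in (0:ℝ)..(2 * Real.pi), (conj (e θ)) ^ n * conj (W θ) := by rw [h4, sub_zero]
    rw [this, ← intervalIntegral.integral_sub hi1 hi2]
    congr 1
    ext θ
    rw [← mul_sub, Complex.sub_conj]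
    push_cast
    ring
  have h6 : ‖∫ θ in (0:ℝ)..(2 * Real.pi), (conj (e θ)) ^ n * (2 * I * ((W θ).im : ℂ))‖
      ≤ ∫ θ in (0:ℝ)..(2 * Real.pi), 2 * |(W θ).im| := by
    refine (intervalIntegral.norm_integral_le_integral_norm Real.two_pi_pos.le).trans (le_of_eq ?_)
    congr 1
    ext θ
    rw [norm_mul, norm_pow, Complex.norm_conj, hen, one_pow, one_mul, norm_mul, norm_mul,
      Complex.norm_I, Complex.norm_real, Real.norm_eq_abs]
    simp
  rw [← h5, intervalIntegral.integral_const_mul] at h6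
  -- norm of the Cauchy formula
  have h7 := congrArg (fun z => ‖z‖) h1
  simp only [norm_mul, norm_div, norm_pow, Complex.norm_I, Complex.norm_real, Real.norm_eq_abs,
    smul_eq_mul, abs_of_pos hr0] at h7
  have hfac : ‖(n.factorial : ℂ)‖ = (n.factorial : ℝ) := Complex.norm_natCast _
  have hpi : ‖(Real.pi : ℂ)‖ = Real.pi := by
    rw [Complex.norm_real, Real.norm_eq_abs, abs_of_pos Real.pi_pos]
  rw [norm_div, hfac]
  have hrn : 0 < r ^ n := pow_pos hr0 n
  have hfp : (0:ℝ) < n.factorial := by exact_mod_cast n.factorial_pos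
  have h8 : ‖iteratedDeriv n L 0‖ / (n.factorial : ℝ) * r ^ n
      = (1 / (2 * Real.pi)) * ‖∫ θ in (0:ℝ)..(2 * Real.pi), (conj (e θ)) ^ n * W θ‖ := by
    have h9 : 1 / r ^ n * ‖∫ θ in (0:ℝ)..(2 * Real.pi), (conj (e θ)) ^ n * W θ‖
        = 2 * Real.pi / (n.factorial : ℝ) * ‖iteratedDeriv n L 0‖ := by
      have h10 := h7
      simp only [Complex.norm_ofNat, abs_of_pos Real.pi_pos, Complex.norm_natCast, mul_one] at h10
      exact h10
    field_simp at h9 ⊢
    linarith
  rw [h8]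
  have h9 := mul_le_mul_of_nonneg_left h6 (by positivity : (0:ℝ) ≤ 1 / (2 * Real.pi))
  refine h9.trans (le_of_eq ?_)
  simp only [hW]
  field_simp


/-- the mean value property of `Im P` -/
theorem mean_im {P : ℂ → ℂ} (hP : DifferentiableOn ℂ P (ball 0 1)) {r : ℝ} (hr0 : 0 < r)
    (hr1 : r < 1) :
    ∫ θ in (0:ℝ)..(2 * Real.pi), (P (circleMap 0 r θ)).im = 2 * Real.pi * (P 0).im := by
  have hcb : closedBall (0:ℂ) r ⊆ ball (0:ℂ) 1 := closedBall_subset_ball hr1
  have hd : DifferentiableOn ℂ P (closedBall 0 r) := hP.mono hcb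
  have h1 : (∮ z in C(0, r), (z - 0)⁻¹ • P z) = (2 * Real.pi * I : ℂ) • P 0 :=
    Complex.circleIntegral_sub_inv_smul_of_differentiable_on_off_countable
      Set.countable_empty (mem_ball_self hr0) hd.continuousOn
      (fun z hz => (hd z (ball_subset_closedBall hz.1)).differentiableAt
        (closedBall_mem_nhds_of_mem hz.1))
  rw [cf_circle] at h1
  have hne : ∀ θ, circleMap 0 r θ ≠ 0 := fun θ => circleMap_ne_center hr0.ne'
  have e1 : ∀ θ : ℝ, (circleMap 0 r θ * I) * ((circleMap 0 r θ - 0)⁻¹ • P (circleMap 0 r θ))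
      = I * P (circleMap 0 r θ) := by
    intro θ
    have hz := hne θ
    rw [sub_zero, smul_eq_mul]
    field_simp
  simp_rw [e1] at h1
  rw [intervalIntegral.integral_const_mul, smul_eq_mul] at h1
  have h2 : (∫ θ in (0:ℝ)..(2 * Real.pi), P (circleMap 0 r θ)) = 2 * Real.pi * P 0 := by
    have := Complex.I_ne_zero
    apply mul_left_cancel₀ this
    rw [h1]
    ring
  have hcirc : ∀ θ, circleMap 0 r θ ∈ closedBall (0:ℂ) r := fun θ =>
    circleMap_mem_closedBall _ hr0.le _
  have hc : Continuous fun θ : ℝ => P (circleMap 0 r θ) :=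
    hd.continuousOn.comp_continuous (continuous_circleMap 0 r) hcirc
  have hci : IntervalIntegrable (fun θ : ℝ => P (circleMap 0 r θ)) volume 0 (2 * Real.pi) :=
    hc.intervalIntegrable _ _
  have h3 := Complex.imCLM.intervalIntegral_comp_comm hci
  simp only [Complex.imCLM_apply] at h3
  rw [h3, h2]
  simp

/-- coefficients from a one-sided bound of the imaginary part -/
theorem coef_of_bound {P : ℂ → ℂ} (hP : DifferentiableOn ℂ P (ball 0 1)) {r : ℝ} (hr0 : 0 < r)
    (hr1 : r < 1) {s : ℝ} (hs : s = 1 ∨ s = -1) {B : ℝ → ℝ}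
    (hB : IntervalIntegrable B volume (-Real.pi) Real.pi)
    (hneg : ∀ θ ∈ Icc (-Real.pi) Real.pi, -(B θ) ≤ s * (P (circleMap 0 r θ)).im)
    (hB0 : ∀ θ ∈ Icc (-Real.pi) Real.pi, 0 ≤ B θ) (n : ℕ) (hn : 1 ≤ n) :
    ‖iteratedDeriv n P 0 / (n.factorial : ℂ)‖ * r ^ n ≤
      2 * |(P 0).im| + (2 / Real.pi) * ∫ θ in (-Real.pi)..Real.pi, B θ := by
  have hpi := Real.pi_pos
  have hcb : closedBall (0:ℂ) r ⊆ ball (0:ℂ) 1 := closedBall_subset_ball hr1
  have hcirc : ∀ θ, circleMap 0 r θ ∈ closedBall (0:ℂ) r := fun θ =>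
    circleMap_mem_closedBall _ hr0.le _
  have hc : Continuous fun θ : ℝ => (P (circleMap 0 r θ)).im :=
    Complex.continuous_im.comp
      ((hP.mono hcb).continuousOn.comp_continuous (continuous_circleMap 0 r) hcirc)
  have hper : Function.Periodic (fun θ : ℝ => (P (circleMap 0 r θ)).im) (2 * Real.pi) := by
    intro θ
    simp only
    rw [periodic_circleMap]
  have hshift : ∀ f : ℝ → ℝ, Function.Periodic f (2 * Real.pi) →
      ∫ θ in (0:ℝ)..(2 * Real.pi), f θ = ∫ θ in (-Real.pi)..Real.pi, f θ := by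
    intro f hf
    have h1 := hf.intervalIntegral_add_eq 0 (-Real.pi)
    rw [zero_add] at h1
    rw [h1]
    congr 1
    ring
  have h1 := coef_im hP hn hr0 hr1
  have h2 := mean_im hP hr0 hr1
  rw [hshift _ hper] at h2
  have hper' : Function.Periodic (fun θ : ℝ => |(P (circleMap 0 r θ)).im|) (2 * Real.pi) := by
    intro θ
    simp only
    rw [periodic_circleMap]
  rw [hshift _ hper'] at h1
  have hs' : |s| = 1 := by
    rcases hs with h | h <;> simp [h]
  have h3 : ∫ θ in (-Real.pi)..Real.pi, |(P (circleMap 0 r θ)).im| ≤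
      ∫ θ in (-Real.pi)..Real.pi, (s * (P (circleMap 0 r θ)).im + 2 * B θ) := by
    refine intervalIntegral.integral_mono_on (by linarith) (hc.abs.intervalIntegrable _ _)
      (((hc.intervalIntegrable _ _).const_mul s).add (hB.const_mul 2)) ?_
    intro θ hθ
    have ha := hneg θ hθ
    have hb := hB0 θ hθ
    have hx : |(P (circleMap 0 r θ)).im| = |s * (P (circleMap 0 r θ)).im| := by
      rw [abs_mul, hs', one_mul]
    rw [hx]
    rcases abs_cases (s * (P (circleMap 0 r θ)).im) with ⟨h, _⟩ | ⟨h, _⟩ <;> rw [h] <;> linarith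
  rw [intervalIntegral.integral_add ((hc.intervalIntegrable _ _).const_mul s) (hB.const_mul 2),
    intervalIntegral.integral_const_mul, intervalIntegral.integral_const_mul, h2] at h3
  have h4 : s * (2 * Real.pi * (P 0).im) ≤ 2 * Real.pi * |(P 0).im| := by
    have h5 : s * (P 0).im ≤ |(P 0).im| := by
      calc s * (P 0).im ≤ |s * (P 0).im| := le_abs_self _
        _ = |(P 0).im| := by rw [abs_mul, hs', one_mul]
    nlinarith
  have h6 := mul_le_mul_of_nonneg_left (h3.trans (add_le_add_left h4 _))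
    (by positivity : (0:ℝ) ≤ 1 / Real.pi)
  refine h1.trans (h6.trans (le_of_eq ?_))
  field_simp

/-- the two-piece bound -/
noncomputable def BB (τ b1 C0 c1 : ℝ) (θ : ℝ) : ℝ := if |θ| ≤ τ then b1 else C0 + c1 / |θ| ^ 3

theorem BB_int {τ b1 C0 c1 : ℝ} (hτ : 0 < τ) (hτ1 : τ ≤ Real.pi) (_hb1 : 0 ≤ b1) (hC0 : 0 ≤ C0)
    (hc1 : 0 ≤ c1) :
    IntervalIntegrable (BB τ b1 C0 c1) volume (-Real.pi) Real.pi ∧
      ∫ θ in (-Real.pi)..Real.pi, BB τ b1 C0 c1 θ ≤ 2 * τ * b1 + 2 * Real.pi * C0 + c1 / τ ^ 2 := by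
  have hpi := Real.pi_pos
  -- the right part
  have hcont : ContinuousOn (fun θ : ℝ => C0 + c1 / θ ^ 3) (Icc τ Real.pi) := by
    refine continuousOn_const.add (continuousOn_const.div (continuousOn_id.pow 3) ?_)
    intro θ hθ
    exact pow_ne_zero 3 (hτ.trans_le hθ.1).ne'
  have hR1 : IntervalIntegrable (fun θ : ℝ => C0 + c1 / θ ^ 3) volume τ Real.pi :=
    hcont.intervalIntegrable_of_Icc hτ1
  have hae1 : ∀ᵐ θ ∂(volume.restrict (uIoc τ Real.pi)), C0 + c1 / θ ^ 3 = BB τ b1 C0 c1 θ := by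
    rw [uIoc_of_le hτ1]
    refine (ae_restrict_iff' measurableSet_Ioc).2 (Eventually.of_forall fun θ hθ => ?_)
    have h0 : 0 < θ := hτ.trans hθ.1
    unfold BB
    rw [abs_of_pos h0, if_neg (not_le.2 hθ.1)]
  have hR : IntervalIntegrable (BB τ b1 C0 c1) volume τ Real.pi := hR1.congr_ae hae1
  have hRi : ∫ θ in τ..Real.pi, BB τ b1 C0 c1 θ ≤ Real.pi * C0 + c1 / (2 * τ ^ 2) := by
    have e1 : ∫ θ in τ..Real.pi, BB τ b1 C0 c1 θ = ∫ θ in τ..Real.pi, (C0 + c1 / θ ^ 3) :=
      (intervalIntegral.integral_congr_ae_restrict hae1).symm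
    have hder : ∀ θ ∈ uIcc τ Real.pi,
        HasDerivAt (fun θ : ℝ => C0 * θ - c1 / (2 * θ ^ 2)) (C0 + c1 / θ ^ 3) θ := by
      intro θ hθ
      rw [uIcc_of_le hτ1] at hθ
      have h0 : 0 < θ := hτ.trans_le hθ.1
      have h1 : HasDerivAt (fun θ : ℝ => C0 * θ) C0 θ := by
        simpa using (hasDerivAt_id θ).const_mul C0
      have h2 : HasDerivAt (fun θ : ℝ => 2 * θ ^ 2) (2 * (2 * θ)) θ := by
        simpa using (hasDerivAt_pow 2 θ).const_mul 2
      have h3 : HasDerivAt (fun θ : ℝ => c1 / (2 * θ ^ 2))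
          ((0 * (2 * θ ^ 2) - c1 * (2 * (2 * θ))) / (2 * θ ^ 2) ^ 2) θ :=
        (hasDerivAt_const θ c1).div h2 (by positivity)
      refine (h1.sub h3).congr_deriv ?_
      field_simp
      ring
    rw [e1, intervalIntegral.integral_eq_sub_of_hasDerivAt hder hR1]
    have h4 : 0 ≤ c1 / (2 * Real.pi ^ 2) := by positivity
    have h5 : 0 ≤ C0 * τ := by positivity
    linarith
  -- the left part
  have heven : ∀ θ, BB τ b1 C0 c1 (-θ) = BB τ b1 C0 c1 θ := by
    intro θ
    unfold BB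
    rw [abs_neg]
  have hL : IntervalIntegrable (BB τ b1 C0 c1) volume (-Real.pi) (-τ) := by
    have := hR.comp_sub_left 0
    simp only [zero_sub] at this
    have h2 : (fun x => BB τ b1 C0 c1 (-x)) = BB τ b1 C0 c1 := funext heven
    rw [h2] at this
    exact this.symm
  have hLi : ∫ θ in (-Real.pi)..(-τ), BB τ b1 C0 c1 θ = ∫ θ in τ..Real.pi, BB τ b1 C0 c1 θ := by
    have := intervalIntegral.integral_comp_neg (a := -Real.pi) (b := -τ) (BB τ b1 C0 c1)
    simp only [neg_neg] at this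
    rw [← this]
    congr 1
    funext θ
    exact (heven θ).symm
  -- the middle part
  have hmid : ∀ θ ∈ uIcc (-τ) τ, b1 = BB τ b1 C0 c1 θ := by
    intro θ hθ
    rw [uIcc_of_le (by linarith)] at hθ
    unfold BB
    rw [if_pos (abs_le.2 ⟨hθ.1, hθ.2⟩)]
  have hM : IntervalIntegrable (BB τ b1 C0 c1) volume (-τ) τ := by
    have h1 : IntervalIntegrable (fun _ : ℝ => b1) volume (-τ) τ := intervalIntegrable_const
    refine h1.congr_ae ?_
    refine (ae_restrict_iff' measurableSet_uIoc).2 (Eventually.of_forall fun θ hθ => ?_)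
    exact hmid θ (uIoc_subset_uIcc hθ)
  have hMi : ∫ θ in (-τ)..τ, BB τ b1 C0 c1 θ = 2 * τ * b1 := by
    rw [← intervalIntegral.integral_congr hmid, intervalIntegral.integral_const, smul_eq_mul]
    ring
  refine ⟨(hL.trans hM).trans hR, ?_⟩
  rw [← intervalIntegral.integral_add_adjacent_intervals (hL.trans hM) hR,
    ← intervalIntegral.integral_add_adjacent_intervals hL hM, hLi, hMi]
  have h6 : c1 / (2 * τ ^ 2) * 2 = c1 / τ ^ 2 := by
    field_simp
  nlinarith

end Hay64
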