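import Pool.Agent.Hay64.Half

/-!
# The model function `(i (1 + z) / (1 - z))^3` and elementary geometry of the Cayley map
-/

set_option autoImplicit false

open Complex Metric Set Filter Topology MeasureTheory
open scoped ComplexConjugate

namespace Hay64

theorem md_phi_I {z : ℂ} (hz : z ≠ 1) : phi I z = I * (2 * (1 / (1 - z)) - 1) := by
  have h : (1 : ℂ) - z ≠ 0 := by
    intro h0
    exact hz (by linear_combination -h0)
  unfold phi
  rw [Complex.conj_I]
  field_simp
  ring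

theorem md_phi_cube {z : ℂ} (hz : z ≠ 1) : (phi I z) ^ 3 =
    -I * (8 * (1 / (1 - z) ^ (2 + 1)) - 12 * (1 / (1 - z) ^ (1 + 1)) +
      6 * (1 / (1 - z) ^ (0 + 1)) - 1) := by
  rw [md_phi_I hz]
  have h3 : I ^ 3 = -I := by
    rw [pow_succ, Complex.I_sq]
    ring
  rw [mul_pow, h3]
  have h : (1 : ℂ) - z ≠ 0 := by
    intro h0
    exact hz (by linear_combination -h0)
  field_simp
  ring

/-- coefficients of the model -/
noncomputable def mdc (n : ℕ) : ℂ := if n = 0 then -I else -2 * I * (2 * (n : ℂ) ^ 2 + 1)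

theorem md_hasSum {z : ℂ} (hz : ‖z‖ < 1) :
    HasSum (fun n : ℕ => z ^ n * mdc n) ((phi I z) ^ 3) := by
  have hz1 : z ≠ 1 := by
    intro h
    rw [h, norm_one] at hz
    exact lt_irrefl _ hz
  have h2 := hasSum_choose_mul_geometric_of_norm_lt_one 2 hz
  have h1 := hasSum_choose_mul_geometric_of_norm_lt_one 1 hz
  have h0 := hasSum_choose_mul_geometric_of_norm_lt_one 0 hz
  have hc : HasSum (fun n : ℕ => if n = 0 then (1 : ℂ) else 0) 1 := hasSum_ite_eq 0 1
  have hs := ((((h2.mul_left 8).sub (h1.mul_left 12)).add (h0.mul_left 6)).sub hc).mul_left (-I)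
  rw [md_phi_cube hz1]
  have e : (fun n : ℕ => z ^ n * mdc n) = fun n : ℕ => -I * (8 * (((n + 2).choose 2 : ℕ) * z ^ n) -
      12 * (((n + 1).choose 1 : ℕ) * z ^ n) + 6 * (((n + 0).choose 0 : ℕ) * z ^ n) -
        (if n = 0 then (1 : ℂ) else 0)) := by
    funext n
    unfold mdc
    by_cases hn : n = 0
    · subst hn
      simp
      ring
    · rw [if_neg hn, if_neg hn, Nat.cast_choose_two, Nat.choose_one_right, Nat.choose_zero_right]
      push_cast
      ring
  rw [e]
  exact hs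

theorem model_coef (n : ℕ) (hn : 1 ≤ n) :
    iteratedDeriv n (fun z : ℂ => (phi I z) ^ 3) 0 / (n.factorial : ℂ) =
      -2 * I * (2 * (n : ℂ) ^ 2 + 1) := by
  have hP : HasFPowerSeriesAt (fun z : ℂ => (phi I z) ^ 3)
      (FormalMultilinearSeries.ofScalars ℂ mdc) 0 := by
    rw [hasFPowerSeriesAt_iff]
    filter_upwards [ball_mem_nhds (0 : ℂ) one_pos] with z hz
    have hz' : ‖z‖ < 1 := by simpa using hz
    simpa only [FormalMultilinearSeries.coeff_ofScalars, smul_eq_mul, zero_add] using md_hasSum hz'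
  have hQ := hP.analyticAt.hasFPowerSeriesAt
  have he := congrArg (fun p => FormalMultilinearSeries.coeff p n)
    (hP.eq_formalMultilinearSeries hQ)
  simp only [FormalMultilinearSeries.coeff_ofScalars] at he
  rw [← he]
  unfold mdc
  rw [if_neg (by omega)]

theorem md_norm_sq (r th : ℝ) :
    ‖1 - circleMap 0 r th‖ ^ 2 = (1 - r) ^ 2 + 4 * r * Real.sin (th / 2) ^ 2 := by
  have hc : Real.cos th = 1 - 2 * Real.sin (th / 2) ^ 2 := by
    have h := Real.cos_two_mul (th / 2)
    have h2 := Real.sin_sq_add_cos_sq (th / 2)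
    rw [show 2 * (th / 2) = th by ring] at h
    linarith
  have hs := Real.sin_sq_add_cos_sq th
  have e : (1 - circleMap 0 r th) = ⟨1 - r * Real.cos th, -(r * Real.sin th)⟩ := by
    apply Complex.ext
    · simp [circleMap, Complex.exp_ofReal_mul_I_re]
    · simp [circleMap, Complex.exp_ofReal_mul_I_im]
  rw [e, Complex.sq_norm, Complex.normSq_mk]
  have : (1 - r * Real.cos th) * (1 - r * Real.cos th) + -(r * Real.sin th) * -(r * Real.sin th) =
      1 - 2 * r * Real.cos th + r ^ 2 * (Real.sin th ^ 2 + Real.cos th ^ 2) := by ring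
  rw [this, hs, hc]
  ring

theorem md_sin_lower {th : ℝ} (hth : |th| ≤ Real.pi) : |th| / Real.pi ≤ |Real.sin (th / 2)| := by
  have hpi := Real.pi_pos
  have h := Real.mul_le_sin (x := |th| / 2) (by positivity) (by linarith)
  have h2 : |Real.sin (th / 2)| = Real.sin (|th| / 2) := by
    rcases abs_cases th with ⟨h1, h3⟩ | ⟨h1, h3⟩
    · rw [h1, abs_of_nonneg]
      exact Real.sin_nonneg_of_nonneg_of_le_pi (by linarith) (by linarith)
    · rw [h1, show -th / 2 = -(th / 2) by ring, Real.sin_neg, abs_of_nonpos]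
      rw [← neg_nonneg, ← Real.sin_neg]
      exact Real.sin_nonneg_of_nonneg_of_le_pi (by linarith) (by linarith)
  rw [h2]
  refine le_trans (le_of_eq ?_) h
  field_simp

theorem geo_far {r th : ℝ} (hr : 1 / 2 ≤ r) (hr1 : r < 1) (hth : |th| ≤ Real.pi) :
    |th| / 3 ≤ ‖1 - circleMap 0 r th‖ := by
  have hpi := Real.pi_pos
  have hpi2 : Real.pi < 3.15 := Real.pi_lt_d2
  have h := md_norm_sq r th
  have hs := md_sin_lower hth
  have hs2 : (|th| / Real.pi) ^ 2 ≤ Real.sin (th / 2) ^ 2 := by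
    rw [← sq_abs (Real.sin (th / 2))]
    exact pow_le_pow_left₀ (by positivity) hs 2
  refine le_of_sq_le_sq ?_ (norm_nonneg _)
  rw [h]
  have h3 : (|th| / 3) ^ 2 ≤ 2 * (|th| / Real.pi) ^ 2 := by
    rw [div_pow, div_pow, mul_div_assoc', div_le_div_iff₀ (by norm_num) (by positivity)]
    have : Real.pi ^ 2 ≤ 18 := by nlinarith
    nlinarith [sq_nonneg (|th|)]
  nlinarith [sq_nonneg (1 - r), sq_nonneg (Real.sin (th / 2))]

theorem md_mem {r th : ℝ} (hr : 0 ≤ r) (hr1 : r < 1) : ‖circleMap 0 r th‖ < 1 := by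
  rw [norm_circleMap_zero, abs_of_nonneg hr]
  exact hr1

theorem md_im {r th : ℝ} (hr : 0 ≤ r) (hr1 : r < 1) :
    (phi I (circleMap 0 r th)).im = (1 - r ^ 2) / ‖1 - circleMap 0 r th‖ ^ 2 := by
  rw [phi_im I (md_mem hr hr1), norm_circleMap_zero, sq_abs, Complex.I_im, one_mul]

theorem md_pos {r th : ℝ} (hr : 0 ≤ r) (hr1 : r < 1) : 0 < ‖1 - circleMap 0 r th‖ :=
  norm_pos_iff.2 (one_sub_ne (md_mem hr hr1))

theorem md_lower {r th : ℝ} (hr : 0 ≤ r) : (1 - r) ^ 2 ≤ ‖1 - circleMap 0 r th‖ ^ 2 := by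
  rw [md_norm_sq]
  have : 0 ≤ 4 * r * Real.sin (th / 2) ^ 2 := by positivity
  linarith

theorem geo_major {r th C : ℝ} (hr : 1 / 2 ≤ r) (hr1 : r < 1) (hC : 0 ≤ C)
    (hth : |th| ≤ C * (1 - r)) :
    1 / (1 + C) ^ 2 ≤ (phi I (circleMap 0 r th)).im / ((1 + r) / (1 - r)) ∧
      ‖phi I (circleMap 0 r th)‖ / ((1 + r) / (1 - r)) ≤ 2 := by
  have hr0 : 0 ≤ r := by linarith
  have hpos := md_pos (th := th) hr0 hr1
  have h1r : 0 < 1 - r := by linarith
  have h1r' : 0 < 1 + r := by linarith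
  constructor
  · rw [md_im hr0 hr1]
    have hup : ‖1 - circleMap 0 r th‖ ^ 2 ≤ (1 - r) ^ 2 * (1 + C) ^ 2 := by
      rw [md_norm_sq]
      have hs : Real.sin (th / 2) ^ 2 ≤ (th / 2) ^ 2 := by
        rw [← sq_abs (Real.sin (th / 2)), ← sq_abs (th / 2)]
        exact pow_le_pow_left₀ (abs_nonneg _) Real.abs_sin_le_abs 2
      have hth2 : th ^ 2 ≤ (C * (1 - r)) ^ 2 := by
        rw [← sq_abs th]
        exact pow_le_pow_left₀ (abs_nonneg _) hth 2
      have h4 : 4 * r * Real.sin (th / 2) ^ 2 ≤ (C * (1 - r)) ^ 2 := by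
        have h5 : 4 * r * Real.sin (th / 2) ^ 2 ≤ 4 * r * (th / 2) ^ 2 :=
          mul_le_mul_of_nonneg_left hs (by linarith)
        nlinarith [sq_nonneg th]
      have h6 : 0 ≤ C * (1 - r) ^ 2 := by positivity
      nlinarith
    rw [div_div_eq_mul_div, le_div_iff₀ (by positivity), div_mul_eq_mul_div, one_mul,
      div_mul_eq_mul_div, div_le_div_iff₀ (by positivity) (by positivity)]
    have : (1 + r) * ‖1 - circleMap 0 r th‖ ^ 2 ≤ (1 + r) * ((1 - r) ^ 2 * (1 + C) ^ 2) :=
      mul_le_mul_of_nonneg_left hup h1r'.le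
    nlinarith
  · have hz1 : circleMap 0 r th ≠ 1 := by
      intro h
      have := md_mem (th := th) hr0 hr1
      rw [h, norm_one] at this
      exact lt_irrefl _ this
    have hn : ‖phi I (circleMap 0 r th)‖ = ‖1 + circleMap 0 r th‖ / ‖1 - circleMap 0 r th‖ := by
      unfold phi
      rw [Complex.conj_I, show I - -I * circleMap 0 r th = I * (1 + circleMap 0 r th) by ring,
        norm_div, norm_mul, Complex.norm_I, one_mul]
    have hnum : ‖1 + circleMap 0 r th‖ ≤ 1 + r := by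
      refine (norm_add_le _ _).trans ?_
      rw [norm_one, norm_circleMap_zero, abs_of_nonneg hr0]
    have hden : 1 - r ≤ ‖1 - circleMap 0 r th‖ :=
      le_of_sq_le_sq (md_lower hr0) hpos.le
    rw [hn, div_div_eq_mul_div, div_le_iff₀ h1r', div_mul_eq_mul_div, div_le_iff₀ hpos]
    have : ‖1 + circleMap 0 r th‖ * (1 - r) ≤ (1 + r) * ‖1 - circleMap 0 r th‖ :=
      mul_le_mul hnum hden h1r.le h1r'.le
    nlinarith [mul_pos h1r' hpos]

theorem geo_minor {r th C : ℝ} (hr : 1 / 2 ≤ r) (hr1 : r < 1) (hC : 3 ≤ C)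
    (hth : |th| ≤ Real.pi) (h : C * (1 - r) ≤ |th|) :
    ¬ (|(phi I (circleMap 0 r th)).re| ≤ (phi I (circleMap 0 r th)).im ∧
      1 ≤ (phi I (circleMap 0 r th)).im) := by
  rintro ⟨hre, him⟩
  have hr0 : 0 ≤ r := by linarith
  have hpos := md_pos (th := th) hr0 hr1
  have h1r : 0 < 1 - r := by linarith
  have hpi := Real.pi_pos
  have hpi2 : Real.pi < 3.15 := Real.pi_lt_d2
  have hN := md_norm_sq r th
  set N := ‖1 - circleMap 0 r th‖ ^ 2 with hNdef
  have hNpos : 0 < N := by positivity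
  rw [md_im hr0 hr1, ← hNdef] at him hre
  -- the real part
  have hRe : (phi I (circleMap 0 r th)).re = -(2 * r * Real.sin th) / N := by
    have e : circleMap 0 r th = ⟨r * Real.cos th, r * Real.sin th⟩ := by
      apply Complex.ext
      · simp [circleMap, Complex.exp_ofReal_mul_I_re]
      · simp [circleMap, Complex.exp_ofReal_mul_I_im]
    have hNs : N = normSq (1 - circleMap 0 r th) := by
      rw [hNdef, Complex.sq_norm]
    unfold phi
    rw [Complex.conj_I, Complex.div_re, ← hNs]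
    rw [e]
    simp only [sub_re, sub_im, neg_re, neg_im, mul_re, mul_im, I_re, I_im, one_re, one_im]
    field_simp
    ring
  rw [hRe, abs_div, abs_of_pos hNpos] at hre
  have hre2 : |-(2 * r * Real.sin th)| ≤ 1 - r ^ 2 := by
    have := (div_le_div_iff_of_pos_right hNpos).1 hre
    exact this
  have him2 : N ≤ 1 - r ^ 2 := by
    rwa [le_div_iff₀ hNpos, one_mul] at him
  set s := |Real.sin (th / 2)| with hs
  set c := Real.cos (th / 2) with hc
  have hs0 : 0 ≤ s := abs_nonneg _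
  have hc0 : 0 ≤ c := Real.cos_nonneg_of_mem_Icc ⟨by linarith [neg_abs_le th], by
    linarith [le_abs_self th]⟩
  have hsc : s ^ 2 + c ^ 2 = 1 := by
    rw [hs, hc, sq_abs]
    exact Real.sin_sq_add_cos_sq _
  rw [hN, ← sq_abs (Real.sin (th / 2)), ← hs] at him2
  have h1 : s ^ 2 ≤ (1 - r) / 2 := by
    have : 4 * r * s ^ 2 ≤ 2 * r * (1 - r) := by nlinarith
    have hrp : 0 < r := by linarith
    have h2 : (2 * r) * (2 * s ^ 2) ≤ (2 * r) * (1 - r) := by linarith
    have h3 := le_of_mul_le_mul_left h2 (by linarith)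
    linarith
  have hc2 : 3 / 4 ≤ c ^ 2 := by linarith
  have h4 : 4 * r * s * c ≤ (1 - r) * (1 + r) := by
    have hsin : |Real.sin th| = 2 * s * c := by
      have h5 := Real.sin_two_mul (th / 2)
      rw [show 2 * (th / 2) = th by ring] at h5
      rw [h5, abs_mul, abs_mul, ← hs, ← hc, abs_of_nonneg hc0, abs_of_pos (by norm_num : (0:ℝ) < 2)]
    rw [abs_neg, abs_mul, abs_of_nonneg (by linarith : (0:ℝ) ≤ 2 * r), hsin] at hre2
    nlinarith
  have h6 : 3 * (1 - r) ≤ Real.pi * s := by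
    have h7 := md_sin_lower hth
    rw [div_le_iff₀ hpi] at h7
    have h8 : 3 * (1 - r) ≤ C * (1 - r) := mul_le_mul_of_nonneg_right hC h1r.le
    linarith
  -- combine
  have h9 : 12 * r * c * (1 - r) ≤ Real.pi * ((1 - r) * (1 + r)) := by
    have h10 : 4 * r * c * (3 * (1 - r)) ≤ 4 * r * c * (Real.pi * s) :=
      mul_le_mul_of_nonneg_left h6 (by positivity)
    have h11 : Real.pi * (4 * r * s * c) ≤ Real.pi * ((1 - r) * (1 + r)) :=
      mul_le_mul_of_nonneg_left h4 hpi.le
    nlinarith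
  have h12 : 12 * r * c ≤ Real.pi * (1 + r) := by
    have : (1 - r) * (12 * r * c) ≤ (1 - r) * (Real.pi * (1 + r)) := by linarith
    exact le_of_mul_le_mul_left this h1r
  have h13 : 1 + r ≤ 3 * r := by linarith
  have h14 : 12 * r * c ≤ Real.pi * (3 * r) := h12.trans (mul_le_mul_of_nonneg_left h13 hpi.le)
  have h15 : 4 * c ≤ Real.pi := by
    have hrp : 0 < 3 * r := by linarith
    have : (3 * r) * (4 * c) ≤ (3 * r) * Real.pi := by linarith
    exact le_of_mul_le_mul_left this hrp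
  nlinarith

end Hay64
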