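import Pool.Agent.Hay64.Shadow3
import Pool.Agent.Hay64.Model
import Pool.Agent.Hay64.Circle
import Mathlib

/-!
# Coefficients at a tip: comparison with the model by the mean value property
-/

set_option autoImplicit false

open Complex Metric Set Filter Topology MeasureTheory
open scoped ComplexConjugate

namespace Hay64

variable {L F G R : ℂ → ℂ} {a β : ℝ}

theorem psi_phi {W0 : ℂ} (hW0 : W0 ∈ HH) {z : ℂ} (hz : ‖z‖ < 1) : psi W0 (phi W0 z) = z := by
  have h1 := one_sub_ne hz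
  have h2 := sub_conj_ne hW0
  unfold phi psi
  have e1 : (W0 - conj W0 * z) / (1 - z) - W0 = (W0 - conj W0) * z / (1 - z) := by
    field_simp
    ring
  have e2 : (W0 - conj W0 * z) / (1 - z) - conj W0 = (W0 - conj W0) / (1 - z) := by
    field_simp
    ring
  rw [e1, e2]
  field_simp

/-- uniform convergence on compact sets as `v → ∞` -/
theorem Tip.unif (_T : Tip L F G R a β) {σ : ℝ}
    (hlims : ∀ (v : ℕ → ℝ) (U : Ultrafilter ℕ), (∀ j, 1 ≤ v j) →
      Tendsto v (U : Filter ℕ) atTop → Lims L F G β (σ * a) v U)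
    {Kc : Set ℂ} (hK : IsCompact Kc) (hKH : Kc ⊆ HH) {δ : ℝ} (hδ : 0 < δ) :
    ∃ V : ℝ, 1 ≤ V ∧ ∀ v : ℝ, V ≤ v → ∀ W ∈ Kc,
      ‖L (v * W) / (v : ℂ) ^ (2 + 1) - ((σ * a : ℝ) : ℂ) / 3 * W ^ (2 + 1)‖ ≤ δ := by
  by_contra hcon
  push Not at hcon
  choose v hv using fun j : ℕ => hcon ((j:ℝ) + 1) (by
    have : (0:ℝ) ≤ j := Nat.cast_nonneg j
    linarith)
  have hv1 : ∀ j, 1 ≤ v j := fun j => by
    have := (hv j).1
    have h0 : (0:ℝ) ≤ j := Nat.cast_nonneg j
    linarith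
  have hvt : Tendsto v atTop atTop := by
    refine tendsto_atTop_mono (fun n => ?_) tendsto_natCast_atTop_atTop
    have := (hv n).1
    linarith
  set U : Ultrafilter ℕ := hyperfilter ℕ with hU
  have hvU : Tendsto v (U : Filter ℕ) atTop := hvt.mono_left Nat.hyperfilter_le_atTop
  obtain ⟨-, hL, -, -⟩ := hlims v U hv1 hvU
  have hunif : TendstoUniformlyOn (fun j W => L (v j * W) / (v j : ℂ) ^ (2 + 1))
      (fun W => ((σ * a : ℝ) : ℂ) / 3 * W ^ (2 + 1)) (U : Filter ℕ) Kc :=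
    (tendstoLocallyUniformlyOn_iff_forall_isCompact isOpen_HH).1 hL Kc hKH hK
  obtain ⟨j, hj⟩ := ((Metric.tendstoUniformlyOn_iff.1 hunif) δ hδ).exists
  obtain ⟨-, W, hW, hW2⟩ := hv j
  have h1 := hj W hW
  rw [dist_comm, dist_eq_norm] at h1
  exact absurd h1 (not_lt.2 hW2.le)

/-- the difference of `L` and the model, on the disc -/
noncomputable def PP (L : ℂ → ℂ) (κ : ℝ) (z : ℂ) : ℂ := L (phi I z) - (κ:ℂ) / 3 * (phi I z) ^ 3

theorem phi_I_norm {z : ℂ} (hz : ‖z‖ < 1) : ‖phi I z‖ ≤ 2 / ‖1 - z‖ := by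
  have h1 : 0 < ‖1 - z‖ := norm_pos_iff.2 (one_sub_ne hz)
  have e : phi I z = I * (1 + z) / (1 - z) := by
    unfold phi; rw [conj_I]; congr 1; ring
  rw [e, norm_div, norm_mul, Complex.norm_I, one_mul]
  gcongr
  calc ‖1 + z‖ ≤ ‖(1:ℂ)‖ + ‖z‖ := norm_add_le _ _
    _ ≤ 2 := by rw [norm_one]; linarith

theorem Tip.coef (T : Tip L F G R a β) {σ : ℝ} (hσ : σ = 1 ∨ σ = -1)
    (hlims : ∀ (v : ℕ → ℝ) (U : Ultrafilter ℕ), (∀ j, 1 ≤ v j) →
      Tendsto v (U : Filter ℕ) atTop → Lims L F G β (σ * a) v U) {ε : ℝ} (hε : 0 < ε) :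
    ∃ N : ℕ, ∀ n : ℕ, N ≤ n →
      ‖iteratedDeriv n (PP L (σ * a)) 0 / (n.factorial : ℂ)‖ ≤ ε * (n:ℝ) ^ 2 := by
  have ha := T.a_pos
  have hπ := Real.pi_pos
  have hπ3 := Real.pi_gt_three
  obtain ⟨C0, hC0, hsh⟩ := T.shadow hσ hlims
  have hσa : |σ| = 1 := by rcases hσ with h | h <;> rw [h] <;> norm_num
  set κ : ℝ := σ * a with hκ
  have hκa : |κ| = a := by rw [hκ, abs_mul, hσa, one_mul, abs_of_pos ha]
  have hPd : DifferentiableOn ℂ (PP L κ) (ball 0 1) := by
    have h1 := comp_diff T.ach.dL I_mem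
    have h2 : DifferentiableOn ℂ (phi I) (ball 0 1) := fun z hz =>
      (phi_hasDerivAt I (by simpa using hz)).differentiableAt.differentiableWithinAt
    exact h1.sub ((h2.pow 3).const_mul _)
  -- constants
  set C : ℝ := 3 + 1152 * a / ε with hC
  have hC3 : 3 ≤ C := by
    have : 0 ≤ 1152 * a / ε := by positivity
    linarith
  have hCpos : 0 < C := by linarith
  have hC2 : 384 * a / C ^ 2 ≤ ε / 3 := by
    have h1 : 1152 * a / ε ≤ C := by linarith
    have h2 : C ≤ C ^ 2 := by nlinarith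
    have h3 : 1152 * a / ε ≤ C ^ 2 := h1.trans h2
    rw [div_le_iff₀ hε] at h3
    rw [div_le_iff₀ (by positivity)]
    linarith
  set δ : ℝ := ε / (256 * C) with hδ
  have hδ0 : 0 < δ := by positivity
  -- compact set
  set Kc : Set ℂ := {w : ℂ | 1 / (1 + C) ^ 2 ≤ w.im} ∩ closedBall 0 2 with hKc
  have hKcc : IsCompact Kc := by
    apply IsCompact.inter_left (isCompact_closedBall 0 2)
    exact isClosed_le continuous_const Complex.continuous_im
  have hKH : Kc ⊆ HH := by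
    intro w hw
    have h1 : 1 / (1 + C) ^ 2 ≤ w.im := hw.1
    have h2 : 0 < 1 / (1 + C) ^ 2 := by positivity
    show 0 < w.im
    linarith
  obtain ⟨V, hV1, hV⟩ := T.unif hlims hKcc hKH hδ0
  -- N
  set D : ℝ := 4 * |(PP L κ 0).im| + 8 * C0 with hD
  have hD0 : 0 ≤ D := by positivity
  obtain ⟨N, hN⟩ := exists_nat_ge (max (max 2 C) (max V (3 * D / ε)))
  refine ⟨N, fun n hn => ?_⟩
  have hnN : (N:ℝ) ≤ n := by exact_mod_cast hn
  have hn2 : (2:ℝ) ≤ n := ((le_max_left _ _).trans (le_max_left _ _)).trans (hN.trans hnN)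
  have hnC : C ≤ n := ((le_max_right _ _).trans (le_max_left _ _)).trans (hN.trans hnN)
  have hnV : V ≤ n := ((le_max_left _ _).trans (le_max_right _ _)).trans (hN.trans hnN)
  have hnD : 3 * D / ε ≤ n := ((le_max_right _ _).trans (le_max_right _ _)).trans (hN.trans hnN)
  have hn0 : (0:ℝ) < n := by linarith
  have hn1 : 1 ≤ n := by
    have : (1:ℝ) ≤ n := by linarith
    exact_mod_cast this
  set r : ℝ := 1 - 1 / (2 * n) with hr
  have h1r : 1 - r = 1 / (2 * n) := by rw [hr]; ring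
  have hrhalf : 1 / 2 ≤ r := by
    have : 1 / (2 * (n:ℝ)) ≤ 1 / 2 := by
      apply one_div_le_one_div_of_le (by norm_num) (by linarith)
    linarith
  have hr1 : r < 1 := by
    have : 0 < 1 / (2 * (n:ℝ)) := by positivity
    linarith
  have hr0 : 0 < r := by linarith
  set v : ℝ := (1 + r) / (1 - r) with hv
  have hvn : v = 4 * n - 1 := by
    rw [hv, h1r, hr]; field_simp; ring
  have hv0 : 0 < v := by rw [hvn]; linarith
  have hvV : V ≤ v := by rw [hvn]; linarith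
  have hv4 : v ≤ 4 * n := by rw [hvn]; linarith
  set τ : ℝ := C * (1 - r) with hτ
  have hτ0 : 0 < τ := by rw [hτ, h1r]; positivity
  have hτe : τ = C / (2 * n) := by rw [hτ, h1r]; ring
  have hτπ : τ ≤ Real.pi := by
    rw [hτe, div_le_iff₀ (by positivity)]
    nlinarith
  set b1 : ℝ := 64 * δ * n ^ 3 with hb1
  have hb10 : 0 ≤ b1 := by positivity
  set c1 : ℝ := 72 * a with hc1
  have hc10 : 0 ≤ c1 := by positivity
  obtain ⟨hBi, hBint⟩ := BB_int (b1 := b1) (C0 := C0) (c1 := c1) hτ0 hτπ hb10 hC0 hc10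
  have hB0 : ∀ th ∈ Icc (-Real.pi) Real.pi, 0 ≤ BB τ b1 C0 c1 th := by
    intro th _
    unfold BB
    split_ifs
    · exact hb10
    · positivity
  have hneg : ∀ th ∈ Icc (-Real.pi) Real.pi,
      -(BB τ b1 C0 c1 th) ≤ σ * (PP L κ (circleMap 0 r th)).im := by
    intro th hth
    have hthπ : |th| ≤ Real.pi := abs_le.2 hth
    have hz : ‖circleMap 0 r th‖ < 1 := md_mem hr0.le hr1
    set z := circleMap 0 r th with hzdef
    have hW : phi I z ∈ HH := phi_mem I_mem hz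
    have habs : ∀ x : ℝ, -|x| ≤ σ * x := by
      intro x
      have := neg_abs_le (σ * x)
      rwa [abs_mul, hσa, one_mul] at this
    unfold BB
    split_ifs with hc
    · -- major arc
      obtain ⟨hm1, hm2⟩ := geo_major hrhalf hr1 hCpos.le hc
      have hvc : (v:ℂ) ≠ 0 := by exact_mod_cast hv0.ne'
      set w : ℂ := phi I z / v with hw
      have hvw : (v:ℂ) * w = phi I z := by rw [hw]; field_simp
      have hwK : w ∈ Kc := by
        constructor
        · show 1 / (1 + C) ^ 2 ≤ w.im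
          rw [hw, Complex.div_ofReal_im]
          exact hm1
        · rw [mem_closedBall_zero_iff, hw, norm_div, Complex.norm_real,
            Real.norm_of_nonneg hv0.le]
          exact hm2
      have h1 := hV v hvV w hwK
      rw [hvw] at h1
      have h2 : PP L κ z = (v:ℂ) ^ (2 + 1) *
          (L (phi I z) / (v : ℂ) ^ (2 + 1) - (κ : ℂ) / 3 * w ^ (2 + 1)) := by
        unfold PP
        rw [mul_sub, mul_div_cancel₀ _ (pow_ne_zero _ hvc), ← hvw]
        ring
      have h3 : |(PP L κ z).im| ≤ b1 := by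
        refine (Complex.abs_im_le_norm _).trans ?_
        rw [h2, norm_mul, norm_pow, Complex.norm_real, Real.norm_of_nonneg hv0.le]
        calc v ^ (2 + 1) * ‖L (phi I z) / (v : ℂ) ^ (2 + 1) - (κ : ℂ) / 3 * w ^ (2 + 1)‖
            ≤ (4 * n) ^ (2 + 1) * δ := by gcongr
          _ = b1 := by rw [hb1]; ring
      have := habs (PP L κ z).im
      linarith
    · -- minor arc
      push Not at hc
      have h1 := geo_minor hrhalf hr1 hC3 hthπ hc.le
      have h2 : phi I z ∉ Sec := h1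
      have h3 := hsh _ hW h2
      have hth0 : 0 < |th| := lt_trans hτ0 hc
      have h4 := geo_far hrhalf hr1 hthπ
      rw [← hzdef] at h4
      have h5 : ‖phi I z‖ ≤ 6 / |th| := by
        refine (phi_I_norm hz).trans ?_
        rw [div_le_div_iff₀ (norm_pos_iff.2 (one_sub_ne hz)) hth0]
        linarith
      have h6 : |((κ:ℂ) / 3 * (phi I z) ^ 3).im| ≤ c1 / |th| ^ 3 := by
        refine (Complex.abs_im_le_norm _).trans ?_
        rw [norm_mul, norm_div, norm_pow, Complex.norm_real, Real.norm_eq_abs, hκa]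
        have h7 : ‖(3:ℂ)‖ = 3 := by simp
        rw [h7]
        calc a / 3 * ‖phi I z‖ ^ 3 ≤ a / 3 * (6 / |th|) ^ 3 := by gcongr
          _ = c1 / |th| ^ 3 := by rw [hc1]; ring
      have h7 : (PP L κ z).im = (L (phi I z)).im - ((κ:ℂ) / 3 * (phi I z) ^ 3).im := by
        unfold PP; rw [sub_im]
      rw [h7, mul_sub]
      have h8 : σ * ((κ:ℂ) / 3 * (phi I z) ^ 3).im ≤ |((κ:ℂ) / 3 * (phi I z) ^ 3).im| := by
        have := le_abs_self (σ * ((κ:ℂ) / 3 * (phi I z) ^ 3).im)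
        rwa [abs_mul, hσa, one_mul] at this
      linarith
  have hmain := coef_of_bound hPd hr0 hr1 hσ hBi hneg hB0 n hn1
  -- r^n ≥ 1/2
  have hrn : 1 / 2 ≤ r ^ n := by
    have h1 : (-2:ℝ) ≤ -(1 / (2 * n)) := by
      have : 1 / (2 * (n:ℝ)) ≤ 1 / 2 := by
        apply one_div_le_one_div_of_le (by norm_num) (by linarith)
      linarith
    have h2 := one_add_mul_le_pow h1 n
    have e1 : 1 + (n:ℝ) * (-(1 / (2 * n))) = 1 / 2 := by field_simp; norm_num
    have e2 : 1 + -(1 / (2 * (n:ℝ))) = r := by rw [hr]; ring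
    rw [e1, e2] at h2
    exact h2
  set X := ‖iteratedDeriv n (PP L κ) 0 / (n.factorial : ℂ)‖ with hX
  have hX0 : 0 ≤ X := norm_nonneg _
  have h1 : X * (1 / 2) ≤ X * r ^ n := mul_le_mul_of_nonneg_left hrn hX0
  have h2 : 2 / Real.pi * ∫ th in (-Real.pi)..Real.pi, BB τ b1 C0 c1 th ≤
      2 / Real.pi * (2 * τ * b1 + 2 * Real.pi * C0 + c1 / τ ^ 2) := by gcongr
  have e3 : 2 / Real.pi * (2 * τ * b1 + 2 * Real.pi * C0 + c1 / τ ^ 2) =
      4 * C0 + 2 / Real.pi * (64 * C * δ * n ^ 2 + 288 * a * n ^ 2 / C ^ 2) := by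
    rw [hτe, hb1, hc1]
    field_simp
    ring
  have h4 : 2 / Real.pi ≤ 2 / 3 := by
    apply div_le_div_of_nonneg_left (by norm_num) (by norm_num) hπ3.le
  have h5 : 2 / Real.pi * (64 * C * δ * n ^ 2 + 288 * a * n ^ 2 / C ^ 2) ≤
      2 / 3 * (64 * C * δ * n ^ 2 + 288 * a * n ^ 2 / C ^ 2) := by
    apply mul_le_mul_of_nonneg_right h4 (by positivity)
  have e6 : 2 / 3 * (64 * C * δ * n ^ 2 + 288 * a * n ^ 2 / C ^ 2) =
      (1 / 6 * ε + 1 / 2 * (384 * a / C ^ 2)) * n ^ 2 := by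
    rw [hδ]
    field_simp
    ring
  have h7 : (1 / 6 * ε + 1 / 2 * (384 * a / C ^ 2)) * (n:ℝ) ^ 2 ≤ (ε / 3) * n ^ 2 := by
    apply mul_le_mul_of_nonneg_right _ (by positivity)
    linarith
  have h8 : D ≤ ε / 3 * n ^ 2 := by
    rw [div_le_iff₀ hε] at hnD
    have : (n:ℝ) ≤ n ^ 2 := by nlinarith
    nlinarith
  have h9 : X ≤ D + 2 * ((ε / 3) * n ^ 2) := by
    rw [hD]
    linarith
  linarith

end Hay64
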