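import Pool.Agent.Hay64.RadB
import Pool.Agent.REG73.Base

/-!
# Rigidity: equality in the growth theorem on a radius
-/

set_option autoImplicit false

open Complex Metric Set Filter Topology
open scoped ComplexConjugate

namespace Hay64

open Pool.REG73

theorem rigid_A2 {L : ℂ → ℂ} (h : A2 L) {zeta : ℂ} (hz : ‖zeta‖ = 1)
    (hc : ∀ t ∈ Ico (0:ℝ) 1, ‖deriv L (t * zeta)‖ * (1 - t) ^ 4 / (1 + t) ^ 2 = ‖deriv L 0‖) :
    ∀ z ∈ ball (0:ℂ) 1,
      deriv L z = deriv L 0 * ((1 + conj zeta * z) ^ 2 / (1 - conj zeta * z) ^ 4) := by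
  have hop : IsOpen (ball (0 : ℂ) 1) := isOpen_ball
  have hzz : zeta * conj zeta = 1 := by
    rw [Complex.mul_conj, Complex.normSq_eq_norm_sq, hz]; norm_num
  have h00 : (0:ℂ) ∈ ball (0:ℂ) 1 := by simp
  -- the logarithmic growth function is constant
  have hconst : ∀ t ∈ Ico (0:ℝ) 1, lgr L zeta t = Real.log ‖deriv L 0‖ := by
    intro t ht
    have h1 : gr L zeta t = ‖deriv L 0‖ := hc t ht
    have h2 := gr_eq h hz ht.1 ht.2
    rw [h1] at h2
    rw [h2, Real.log_exp]
  -- `T` on the radius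
  have hT : ∀ t ∈ Ioo (0:ℝ) 1,
      zeta * (deriv (deriv L) ((t:ℂ) * zeta) / deriv L ((t:ℂ) * zeta)) =
        (((6 + 2 * t) / (1 - t ^ 2) : ℝ) : ℂ) := by
    intro t ht
    have hd := hasDerivAt_lgr h hz ht.1.le ht.2
    have hd0 : HasDerivAt (lgr L zeta) 0 t := by
      refine (hasDerivAt_const t (Real.log ‖deriv L 0‖)).congr_of_eventuallyEq ?_
      filter_upwards [Ioo_mem_nhds ht.1 ht.2] with s hs
      exact hconst s ⟨hs.1.le, hs.2⟩
    have he := hd.unique hd0
    set T := deriv (deriv L) ((t:ℂ) * zeta) / deriv L ((t:ℂ) * zeta) with hTd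
    have hpos : 0 < 1 - t ^ 2 := by nlinarith [ht.1, ht.2]
    have hre : (zeta * T).re = (6 + 2 * t) / (1 - t ^ 2) := by linarith
    have hm := mem_dir hz ht.1.le ht.2
    have hb := h.bd _ hm
    have hn : ‖(t : ℂ) * zeta‖ = t := by
      rw [norm_mul, hz, mul_one, Complex.norm_real, Real.norm_of_nonneg ht.1.le]
    rw [hn] at hb
    have e2 : zeta * (((1 - t ^ 2 : ℝ) : ℂ) * T - 2 * conj ((t : ℂ) * zeta)) =
        ((1 - t ^ 2 : ℝ) : ℂ) * (zeta * T) - ((2 * t : ℝ) : ℂ) := by
      rw [map_mul, Complex.conj_ofReal]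
      push_cast
      linear_combination (-2 * (t : ℂ)) * hzz
    have h3 : ‖((1 - t ^ 2 : ℝ) : ℂ) * (zeta * T) - ((2 * t : ℝ) : ℂ)‖ ≤ 6 := by
      rw [← e2, norm_mul, hz, one_mul]; exact hb
    set v := ((1 - t ^ 2 : ℝ) : ℂ) * (zeta * T) - ((2 * t : ℝ) : ℂ) with hv
    have hvre : v.re = 6 := by
      rw [hv, Complex.sub_re, Complex.re_ofReal_mul, Complex.ofReal_re, hre]
      field_simp
      ring
    have hvim : v.im = 0 := by
      have h4 : ‖v‖ ^ 2 = v.re ^ 2 + v.im ^ 2 := by
        rw [← Complex.normSq_eq_norm_sq, Complex.normSq_apply]; ring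
      have h5 : ‖v‖ ^ 2 ≤ 36 := by nlinarith [norm_nonneg v]
      rw [h4, hvre] at h5
      have : v.im ^ 2 ≤ 0 := by linarith
      exact pow_eq_zero_iff (two_ne_zero) |>.1 (le_antisymm this (sq_nonneg _))
    have him : (zeta * T).im = 0 := by
      have : v.im = (1 - t ^ 2) * (zeta * T).im := by
        rw [hv, Complex.sub_im, Complex.im_ofReal_mul, Complex.ofReal_im, sub_zero]
      rw [hvim] at this
      rcases mul_eq_zero.1 this.symm with h | h
      · exact absurd h hpos.ne'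
      · exact h
    apply Complex.ext
    · rw [Complex.ofReal_re]; exact hre
    · rw [Complex.ofReal_im]; exact him
  -- the analytic function vanishing on the radius
  set Phi : ℂ → ℂ := fun z => deriv (deriv L) z * (1 - (conj zeta * z) ^ 2) -
    conj zeta * deriv L z * (6 + 2 * (conj zeta * z)) with hPhi
  have hdL' : DifferentiableOn ℂ (deriv L) (ball 0 1) := h.dL.deriv hop
  have hdL'' : DifferentiableOn ℂ (deriv (deriv L)) (ball 0 1) := hdL'.deriv hop
  have hPd : DifferentiableOn ℂ Phi (ball 0 1) := by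
    refine DifferentiableOn.sub (hdL''.mul ?_) (((differentiableOn_const _).mul hdL').mul ?_)
    · exact (Differentiable.differentiableOn (by fun_prop))
    · exact (Differentiable.differentiableOn (by fun_prop))
  have hPan : AnalyticOnNhd ℂ Phi (ball 0 1) := hPd.analyticOnNhd hop
  have hPr : ∀ t ∈ Ioo (0:ℝ) 1, Phi ((t:ℂ) * zeta) = 0 := by
    intro t ht
    have h1 := hT t ht
    have hm := mem_dir hz ht.1.le ht.2
    have hne := h.ne _ hm
    have e1 : conj zeta * ((t:ℂ) * zeta) = t := by linear_combination (t:ℂ) * hzz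
    have hpos : (1 - (t:ℂ) ^ 2) ≠ 0 := by
      have : (1 - t ^ 2) ≠ 0 := by nlinarith [ht.1, ht.2]
      exact_mod_cast this
    have h2 : deriv (deriv L) ((t:ℂ) * zeta) =
        conj zeta * ((6 + 2 * (t:ℂ)) / (1 - (t:ℂ) ^ 2)) * deriv L ((t:ℂ) * zeta) := by
      have h3 : zeta * deriv (deriv L) ((t:ℂ) * zeta) =
          ((6 + 2 * (t:ℂ)) / (1 - (t:ℂ) ^ 2)) * deriv L ((t:ℂ) * zeta) := by
        push_cast at h1
        rw [← h1, mul_assoc, div_mul_cancel₀ _ hne]
      have h4 : deriv (deriv L) ((t:ℂ) * zeta) =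
          conj zeta * (zeta * deriv (deriv L) ((t:ℂ) * zeta)) := by
        rw [← mul_assoc, mul_comm (conj zeta) zeta, hzz, one_mul]
      rw [h4, h3]; ring
    simp only [hPhi]
    rw [e1, h2]
    field_simp
    ring
  have hzero : EqOn Phi 0 (ball 0 1) := by
    have hz2 : ((1/2 : ℝ) : ℂ) * zeta ∈ ball (0:ℂ) 1 := mem_dir hz (by norm_num) (by norm_num)
    refine hPan.eqOn_zero_of_preconnected_of_frequently_eq_zero
      (convex_ball (0:ℂ) 1).isPreconnected hz2 ?_
    have hzne : zeta ≠ 0 := by intro h0; rw [h0] at hz; simp at hz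
    have ht : Tendsto (fun t : ℝ => (t:ℂ) * zeta) (𝓝[≠] (1/2 : ℝ))
        (𝓝[≠] (((1/2 : ℝ) : ℂ) * zeta)) := by
      refine tendsto_nhdsWithin_iff.2 ⟨?_, ?_⟩
      · have hc : Continuous (fun t : ℝ => (t:ℂ) * zeta) :=
          Complex.continuous_ofReal.mul continuous_const
        exact (hc.tendsto _).mono_left nhdsWithin_le_nhds
      · filter_upwards [self_mem_nhdsWithin] with t ht hcon
        refine ht ?_
        have := mul_right_cancel₀ hzne hcon
        exact_mod_cast this
    refine ht.frequently ?_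
    refine Eventually.frequently ?_
    filter_upwards [mem_nhdsWithin_of_mem_nhds (Ioo_mem_nhds
      (show (0:ℝ) < 1/2 by norm_num) (show (1/2:ℝ) < 1 by norm_num))] with t ht
    exact hPr t ht
  -- the quotient is constant
  set P : ℂ → ℂ := fun z => deriv L z * (1 - conj zeta * z) ^ 4 / (1 + conj zeta * z) ^ 2 with hP
  have hcz : ‖conj zeta‖ = 1 := by rw [Complex.norm_conj]; exact hz
  have hnz : ∀ z ∈ ball (0:ℂ) 1, (1 + conj zeta * z) ≠ 0 ∧ (1 - conj zeta * z) ≠ 0 := by
    intro z hzb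
    have h1 : ‖conj zeta * z‖ < 1 := by rw [norm_mul, hcz, one_mul]; simpa using hzb
    constructor
    · intro h0
      have : conj zeta * z = -1 := by linear_combination h0
      rw [this] at h1; simp at h1
    · intro h0
      have : conj zeta * z = 1 := by linear_combination -h0
      rw [this] at h1; simp at h1
  have hPder : ∀ z ∈ ball (0:ℂ) 1, HasDerivAt P 0 z := by
    intro z hzb
    obtain ⟨n1, n2⟩ := hnz z hzb
    have a1 := hasDerivAt_deriv h hzb
    have a0 : HasDerivAt (fun w : ℂ => conj zeta * w) (conj zeta) z := by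
      simpa using (hasDerivAt_id z).const_mul (conj zeta)
    have a2 : HasDerivAt (fun w : ℂ => (1 - conj zeta * w) ^ 4)
        (((4:ℕ):ℂ) * (1 - conj zeta * z) ^ 3 * (-conj zeta)) z := (a0.const_sub 1).pow 4
    have a3 : HasDerivAt (fun w : ℂ => (1 + conj zeta * w) ^ 2)
        (((2:ℕ):ℂ) * (1 + conj zeta * z) ^ 1 * (conj zeta)) z := (a0.const_add 1).pow 2
    have a4 := (a1.mul a2).div a3 (pow_ne_zero 2 n1)
    have hzr := hzero hzb
    simp only [hPhi, Pi.zero_apply] at hzr
    refine a4.congr_deriv ?_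
    simp only [Pi.mul_apply]
    rw [div_eq_zero_iff]
    left
    push_cast
    have h5 : deriv (deriv L) z * (1 - (conj zeta * z) ^ 2) =
        conj zeta * deriv L z * (6 + 2 * (conj zeta * z)) := by linear_combination hzr
    linear_combination ((1 - conj zeta * z) ^ 3 * (1 + conj zeta * z)) * h5
  intro z hzb
  have hPc : P z = P 0 := by
    refine (convex_ball (0:ℂ) 1).is_const_of_fderivWithin_eq_zero (𝕜 := ℂ) ?_ ?_ hzb h00
    · intro w hw
      exact (hPder w hw).differentiableAt.differentiableWithinAt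
    · intro w hw
      rw [fderivWithin_of_isOpen hop hw]
      have := (hPder w hw).hasFDerivAt.fderiv
      rw [this]
      ext
      simp
  obtain ⟨n1, n2⟩ := hnz z hzb
  simp only [hP, mul_zero, sub_zero, add_zero, one_pow, mul_one, div_one] at hPc
  rw [← hPc]
  field_simp

/-- Equality in the growth theorem along a radius. -/
theorem rigid {L F G R : ℂ → ℂ} (h : AllN24.AchLift L F G R) {zeta : ℂ} (hz : ‖zeta‖ = 1)
    (hc : ∀ t ∈ Ico (0:ℝ) 1, ‖deriv L (t * zeta)‖ * (1 - t) ^ 4 / (1 + t) ^ 2 = ‖deriv L 0‖) :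
    ∀ z ∈ ball (0:ℂ) 1,
      deriv L z = deriv L 0 * ((1 + conj zeta * z) ^ 2 / (1 - conj zeta * z) ^ 4) :=
  rigid_A2 (a2_of_achr (surf_of_lift h) (achr_of_lift h)) hz hc

end Hay64
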