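import Pool.Agent.Hay64.ZeroK
import Pool.Agent.AllN24.Coeff
import Pool.Agent.AllN24.MeanGrowth
import Pool.Agent.AllN24.MeanGrowthGen

/-!
# The case of index zero

If the index `lim (1 - t)^4 |L'(t ζ)|` of an achronal lift vanishes for every direction `ζ` then
the coefficients of `L` are `o(n^2)`.
-/

set_option autoImplicit false

open Complex Metric Set Filter Topology MeasureTheory
open scoped ComplexConjugate Nat

namespace Hay64

open AllN24

variable {L F G R : ℂ → ℂ}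

/-- If all indices vanish then `|L'| (1 - |z|)^4` is uniformly small near the circle. -/
theorem zero_unif (h : AchLift L F G R) (hRB : RadBound)
    (h0 : ∀ ζ : ℂ, ‖ζ‖ = 1 →
      Tendsto (fun t : ℝ => (1 - t) ^ 4 * ‖deriv L ((t : ℂ) * ζ)‖) (𝓝[<] 1) (𝓝 0))
    {ε : ℝ} (hε : 0 < ε) :
    ∃ s0 : ℝ, 1 / 2 ≤ s0 ∧ s0 < 1 ∧ ∀ ζ : ℂ, ‖ζ‖ = 1 → ∀ t : ℝ, s0 ≤ t → t < 1 →
      (1 - t) ^ 4 / (1 + t) ^ 2 * ‖deriv L ((t : ℂ) * ζ)‖ ≤ ε := by
  have hP : ∃ s0 : ℝ, 1 / 2 ≤ s0 ∧ s0 < 1 ∧ ∀ ζ ∈ sphere (0 : ℂ) 1, ‖ζ‖ = 1 → ∀ t : ℝ, s0 ≤ t →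
      t < 1 → (1 - t) ^ 4 / (1 + t) ^ 2 * ‖deriv L ((t : ℂ) * ζ)‖ ≤ ε := by
    refine (isCompact_sphere (0 : ℂ) 1).induction_on
      (p := fun S => ∃ s0 : ℝ, 1 / 2 ≤ s0 ∧ s0 < 1 ∧ ∀ ζ ∈ S, ‖ζ‖ = 1 → ∀ t : ℝ, s0 ≤ t →
        t < 1 → (1 - t) ^ 4 / (1 + t) ^ 2 * ‖deriv L ((t : ℂ) * ζ)‖ ≤ ε) ?_ ?_ ?_ ?_
    · exact ⟨1 / 2, le_rfl, by norm_num, fun ζ hζ => absurd hζ (notMem_empty ζ)⟩
    · rintro S T hST ⟨s0, h1, h2, h3⟩
      exact ⟨s0, h1, h2, fun ζ hζ => h3 ζ (hST hζ)⟩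
    · rintro S T ⟨s, h1, h2, h3⟩ ⟨s', h1', h2', h3'⟩
      refine ⟨max s s', h1.trans (le_max_left _ _), max_lt h2 h2', ?_⟩
      rintro ζ (hζ | hζ) hn t ht ht1
      · exact h3 ζ hζ hn t ((le_max_left _ _).trans ht) ht1
      · exact h3' ζ hζ hn t ((le_max_right _ _).trans ht) ht1
    · intro ζ0 hζ0
      have hn0 : ‖ζ0‖ = 1 := by simpa using hζ0
      have h1 := (h0 ζ0 hn0).eventually (gt_mem_nhds hε)
      have h2 : ∀ᶠ t : ℝ in 𝓝[<] 1, t ∈ Ioo (1 / 2 : ℝ) 1 :=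
        Ioo_mem_nhdsLT (by norm_num)
      obtain ⟨t1, ht1, ht1'⟩ := (h1.and h2).exists
      have hpos : 0 < 1 - t1 := by linarith [ht1'.2]
      have hpos' : 0 < 1 + t1 := by linarith [ht1'.1]
      have hlt : (1 - t1) ^ 4 / (1 + t1) ^ 2 * ‖deriv L ((t1 : ℂ) * ζ0)‖ < ε := by
        refine lt_of_le_of_lt ?_ ht1
        refine mul_le_mul_of_nonneg_right ?_ (norm_nonneg _)
        rw [div_le_iff₀ (by positivity)]
        have : 1 ≤ (1 + t1) ^ 2 := by nlinarith [ht1'.1]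
        nlinarith [pow_pos hpos 4]
      have hmem : (t1 : ℂ) * ζ0 ∈ ball (0 : ℂ) 1 := by
        rw [mem_ball_zero_iff, norm_mul, hn0, mul_one, Complex.norm_real, Real.norm_eq_abs,
          abs_of_pos (by linarith [ht1'.1])]
        exact ht1'.2
      have hcont : ContinuousAt
          (fun ζ : ℂ => (1 - t1) ^ 4 / (1 + t1) ^ 2 * ‖deriv L ((t1 : ℂ) * ζ)‖) ζ0 := by
        have hd : ContinuousAt (deriv L) ((t1 : ℂ) * ζ0) :=
          (h.dL.deriv isOpen_ball).continuousOn.continuousAt (isOpen_ball.mem_nhds hmem)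
        have hl : ContinuousAt (fun ζ : ℂ => (t1 : ℂ) * ζ) ζ0 := by fun_prop
        exact continuousAt_const.mul (ContinuousAt.comp (f := fun ζ : ℂ => (t1 : ℂ) * ζ)
          (g := deriv L) hd hl).norm
      have hev := hcont.eventually (gt_mem_nhds hlt)
      refine ⟨{ζ | (1 - t1) ^ 4 / (1 + t1) ^ 2 * ‖deriv L ((t1 : ℂ) * ζ)‖ < ε},
        mem_nhdsWithin_of_mem_nhds hev, t1, ht1'.1.le, ht1'.2, ?_⟩
      intro ζ hζ hn t ht1t ht
      exact (zk_anti h hRB hn (by linarith [ht1'.1]) ht1t ht).trans (le_of_lt hζ)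
  obtain ⟨s0, h1, h2, h3⟩ := hP
  exact ⟨s0, h1, h2, fun ζ hζ => h3 ζ (by simpa using hζ) hζ⟩

theorem zero_dir {z : ℂ} (hz : z ≠ 0) : ∃ ζ : ℂ, ‖ζ‖ = 1 ∧ ((‖z‖ : ℝ) : ℂ) * ζ = z := by
  have h1 : ‖z‖ ≠ 0 := norm_ne_zero_iff.2 hz
  have h2 : ((‖z‖ : ℝ) : ℂ) ≠ 0 := by exact_mod_cast h1
  refine ⟨z / ((‖z‖ : ℝ) : ℂ), ?_, by rw [mul_div_cancel₀ _ h2]⟩
  rw [norm_div, Complex.norm_real, Real.norm_eq_abs, abs_norm, div_self h1]

/-- If all indices vanish then the means of `|Im L|` are `o((1 - r)^{-2})`. -/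
theorem zero_mean (h : AchLift L F G R) (hRB : RadBound)
    (h0 : ∀ ζ : ℂ, ‖ζ‖ = 1 →
      Tendsto (fun t : ℝ => (1 - t) ^ 4 * ‖deriv L ((t : ℂ) * ζ)‖) (𝓝[<] 1) (𝓝 0))
    {ε : ℝ} (hε : 0 < ε) :
    ∃ r0 : ℝ, 0 < r0 ∧ r0 < 1 ∧ ∀ r : ℝ, r0 < r → r < 1 →
      ∫ θ in (0:ℝ)..(2 * Real.pi), |(L (circleMap 0 r θ) - L 0).im| ≤ ε / (1 - r) ^ 2 := by
  have h0mem : (0:ℂ) ∈ ball (0:ℂ) 1 := by simp
  have hR0 : 0 < (R 0).im := h.hR 0 h0mem
  have hL0 : 0 < ‖deriv L 0‖ := norm_pos_iff.2 (h.hL 0 h0mem)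
  set l0 := ‖deriv L 0‖ * (R 0).im with hl0
  have hl : 0 < l0 := mul_pos hL0 hR0
  set c0 := 1 / (R 0).im with hc0
  have hc : 0 < c0 := by positivity
  set η := ε / (32 * l0) with hη
  have hη0 : 0 < η := by positivity
  set κ := ε / (128 * c0 * l0) with hκ
  have hκ0 : 0 < κ := by positivity
  set δ := 8 * κ ^ 2 with hδ
  have hδ0 : 0 < δ := by positivity
  obtain ⟨s0, hs1, hs2, hs3⟩ := zero_unif h hRB h0 (ε := η * l0 * δ ^ 4) (by positivity)
  have hs0 : 0 < s0 := by linarith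
  set C1 := c0 * EE s0 with hC1
  have hC10 : 0 < C1 := mul_pos hc (EE_pos hs0.le hs2)
  set r0 := max (1 / 2) (1 - ε / (16 * C1 * l0)) with hr0
  refine ⟨r0, lt_of_lt_of_le (by norm_num) (le_max_left _ _),
    max_lt (by norm_num) (by linarith [div_pos hε (by positivity : 0 < 16 * C1 * l0)]), ?_⟩
  intro r hr hr1
  have hrpos : 0 < r := lt_trans (lt_of_lt_of_le (by norm_num) (le_max_left _ _)) hr
  have hr' : 1 - r ≤ ε / (16 * C1 * l0) := by
    have := (le_max_right (1 / 2) (1 - ε / (16 * C1 * l0))).trans hr.le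
    linarith
  have hinv : ∀ z : ℂ, ‖z‖ < 1 → 1 / (R z).im ≤ c0 * EE ‖z‖ := by
    intro z hz
    have hzm : z ∈ ball (0:ℂ) 1 := by simpa using hz
    have h1 := harnack_half h.dR h.hR hzm
    have h2 := h.hR z hzm
    have h3 : 0 < 1 - ‖z‖ := by linarith
    have h4 : 0 < 1 + ‖z‖ := by linarith [norm_nonneg z]
    rw [hc0]
    unfold EE
    rw [div_le_iff₀ h2]
    have h5 : 1 = 1 / (R 0).im * ((1 + ‖z‖) / (1 - ‖z‖)) *
        ((R 0).im * ((1 - ‖z‖) / (1 + ‖z‖))) := by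
      field_simp
    calc (1:ℝ) = 1 / (R 0).im * ((1 + ‖z‖) / (1 - ‖z‖)) *
        ((R 0).im * ((1 - ‖z‖) / (1 + ‖z‖))) := h5
      _ ≤ 1 / (R 0).im * ((1 + ‖z‖) / (1 - ‖z‖)) * (R z).im :=
        mul_le_mul_of_nonneg_left h1 (by positivity)
  set A : ℝ → ℝ := fun t => C1 + η * EE t with hA
  set B : ℝ → ℝ := fun t => l0 * κ * EE t ^ 2 * (t / s0) with hB
  set H : ℝ → ℝ := fun t => c0 * EE t with hH
  set kp : ℝ → ℝ := fun t => l0 * kap t with hkp
  have hlt1 : ∀ t ∈ Ioo 0 r, t < 1 := fun t ht => lt_trans ht.2 hr1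
  have hnt : ∀ t ∈ Ioo 0 r, ∀ z : ℂ, ‖z‖ ≤ t → ‖z‖ < 1 := fun t ht z hz =>
    lt_of_le_of_lt hz (hlt1 t ht)
  have hHb : ∀ t ∈ Ioo 0 r, ∀ z : ℂ, ‖z‖ ≤ t → 1 / (R z).im ≤ H t := by
    intro t ht z hz
    refine (hinv z (hnt t ht z hz)).trans ?_
    exact mul_le_mul_of_nonneg_left (EE_mono (norm_nonneg z) hz (hlt1 t ht)) hc.le
  have hKb : ∀ t ∈ Ioo 0 r, ∀ z : ℂ, ‖z‖ ≤ t → K L F G z 0 ≤ kp t ^ 2 := by
    intro t ht z hz
    refine (K_upper h (fun z hz => hRB L F G R h z hz) (by simpa using hnt t ht z hz)).trans ?_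
    refine pow_le_pow_left₀ (mul_nonneg hl.le (mg_kap_nonneg (norm_nonneg z) (hnt t ht z hz)))
      ?_ 2
    exact mul_le_mul_of_nonneg_left (mg_kap_mono (norm_nonneg z) hz (hlt1 t ht)) hl.le
  have hABb : ∀ t ∈ Ioo 0 r, ∀ z : ℂ, ‖z‖ ≤ t → 1 / (R z).im ≤ A t ∨ K L F G z 0 ≤ B t ^ 2 := by
    intro t ht z hz
    have hz1 := hnt t ht z hz
    have hEt := EE_pos ht.1.le (hlt1 t ht)
    by_cases hzs : ‖z‖ < s0
    · left
      refine (hinv z hz1).trans ?_
      have h1 : c0 * EE ‖z‖ ≤ C1 :=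
        mul_le_mul_of_nonneg_left (EE_mono (norm_nonneg z) hzs.le hs2) hc.le
      have h2 : 0 ≤ η * EE t := by positivity
      simp only [hA]
      linarith
    · push Not at hzs
      by_cases hcase : 1 / (R z).im ≤ η * EE t
      · left
        simp only [hA]
        linarith
      · right
        push Not at hcase
        have hz0 : z ≠ 0 := by
          rintro rfl
          rw [norm_zero] at hzs
          linarith
        obtain ⟨ζ, hζ, hTζ⟩ := zero_dir hz0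
        set T := ‖z‖ with hT
        have hT0 : 0 ≤ T := norm_nonneg z
        have hRz := h.hR z (by simpa using hz1)
        have hET := EE_pos hT0 hz1
        have hETt := EE_mono hT0 hz (hlt1 t ht)
        have h3 := hs3 ζ hζ T hzs hz1
        rw [hTζ] at h3
        have hm1 : 0 < 1 - T := by linarith
        have hp1 : 0 < 1 + T := by linarith
        have hsm : (1 - T ^ 2) * (‖deriv L ((T : ℂ) * ζ)‖ * (R ((T : ℂ) * ζ)).im) ≤
            ‖deriv L 0‖ * (R 0).im * (δ ^ 4 * EE T ^ 2) := by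
          rw [hTζ, ← hl0]
          have e1 : (1 - T ^ 2) * (‖deriv L z‖ * (R z).im) =
              ((1 - T) ^ 4 / (1 + T) ^ 2 * ‖deriv L z‖) * (EE T ^ 3 * (R z).im) := by
            unfold EE
            field_simp
            ring
          have h4 : EE T ^ 3 * (R z).im * η ≤ EE T ^ 2 := by
            rw [lt_div_iff₀ hRz] at hcase
            have h5 : EE T * (R z).im * η ≤ 1 := by
              calc EE T * (R z).im * η = (η * EE T) * (R z).im := by ring
                _ ≤ (η * EE t) * (R z).im := by gcongr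
                _ ≤ 1 := hcase.le
            calc EE T ^ 3 * (R z).im * η = EE T ^ 2 * (EE T * (R z).im * η) := by ring
              _ ≤ EE T ^ 2 * 1 := mul_le_mul_of_nonneg_left h5 (by positivity)
              _ = _ := by ring
          rw [e1]
          calc ((1 - T) ^ 4 / (1 + T) ^ 2 * ‖deriv L z‖) * (EE T ^ 3 * (R z).im)
              ≤ (η * l0 * δ ^ 4) * (EE T ^ 3 * (R z).im) :=
                mul_le_mul_of_nonneg_right h3 (by positivity)
            _ = (l0 * δ ^ 4) * (EE T ^ 3 * (R z).im * η) := by ring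
            _ ≤ (l0 * δ ^ 4) * EE T ^ 2 := mul_le_mul_of_nonneg_left h4 (by positivity)
            _ = _ := by ring
        have h6 := zk_small h hRB hζ hT0 hz1 hδ0 hsm
        rw [hTζ, ← hl0] at h6
        have h7 : l0 ^ 2 * δ * EE T ^ 4 / 8 = (l0 * κ * EE T ^ 2) ^ 2 := by
          rw [hδ]; ring
        rw [h7] at h6
        refine h6.trans (pow_le_pow_left₀ (by positivity) ?_ 2)
        simp only [hB]
        have h8 : 1 ≤ t / s0 := by
          rw [le_div_iff₀ hs0]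
          linarith
        calc l0 * κ * EE T ^ 2 ≤ l0 * κ * EE t ^ 2 := by gcongr
          _ ≤ l0 * κ * EE t ^ 2 * (t / s0) := le_mul_of_one_le_right (by positivity) h8
  -- the integrand
  set g : ℝ → ℝ := fun t => (C1 + η * EE t) * (l0 * (Real.sqrt (1 + t ^ 2 / 3) / (1 - t) ^ 2)) +
    c0 * EE t * (l0 * κ * EE t ^ 2 / s0) with hg
  have hfg : ∀ t : ℝ, 0 < t → (A t * kp t + H t * B t) / t = g t := by
    intro t ht
    simp only [hA, hkp, hH, hB, hg, kap]
    field_simp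
  have hEc : ContinuousOn EE (Icc 0 r) := by
    unfold EE
    refine ContinuousOn.div (by fun_prop) (by fun_prop) ?_
    intro t ht
    have := ht.2
    linarith
  have hgc : ContinuousOn g (Icc 0 r) := by
    have h1 : ContinuousOn (fun t : ℝ => Real.sqrt (1 + t ^ 2 / 3) / (1 - t) ^ 2) (Icc 0 r) := by
      refine ContinuousOn.div (Continuous.continuousOn (by fun_prop)) (by fun_prop) ?_
      intro t ht
      have := ht.2
      exact pow_ne_zero _ (by linarith)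
    exact ((continuousOn_const.add (continuousOn_const.mul hEc)).mul
      (continuousOn_const.mul h1)).add ((continuousOn_const.mul hEc).mul
        ((continuousOn_const.mul (hEc.pow 2)).div_const s0))
  have hgi : IntervalIntegrable g volume 0 r :=
    ContinuousOn.intervalIntegrable (by rwa [uIcc_of_le hrpos.le])
  have hcongr : ∀ t ∈ uIoc 0 r, (A t * kp t + H t * B t) / t = g t := by
    intro t ht
    rw [uIoc_of_le hrpos.le] at ht
    exact hfg t ht.1
  have hfi : IntervalIntegrable (fun t => (A t * kp t + H t * B t) / t) volume 0 r :=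
    hgi.congr (fun t ht => (hcongr t ht).symm)
  have hmain := mean_growth_general h hrpos hr1 (H := H) (A := A) (B := B) (kp := kp)
    (fun t ht => by
      have := EE_pos ht.1.le (hlt1 t ht)
      simp only [hH]; positivity)
    (fun t ht => by
      have := EE_pos ht.1.le (hlt1 t ht)
      simp only [hA]; positivity)
    (fun t ht => by
      have := EE_pos ht.1.le (hlt1 t ht)
      have := ht.1
      simp only [hB]; positivity)
    (fun t ht => mul_nonneg hl.le (mg_kap_nonneg ht.1.le (hlt1 t ht)))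
    hHb hKb hABb hfi
  refine hmain.trans ?_
  have hint : ∫ t in (0:ℝ)..r, (A t * kp t + H t * B t) / t = ∫ t in (0:ℝ)..r, g t :=
    intervalIntegral.integral_congr_ae (Eventually.of_forall fun t ht => hcongr t ht)
  rw [hint]
  -- upper bound for the integral
  set c3 := 4 * η * l0 + 16 * c0 * l0 * κ with hc3
  set P : ℝ → ℝ := fun t => 2 * C1 * l0 / (1 - t) + c3 / 2 / (1 - t) ^ 2 with hP
  set p : ℝ → ℝ := fun t => 2 * C1 * l0 / (1 - t) ^ 2 + c3 / (1 - t) ^ 3 with hp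
  have hPd : ∀ t : ℝ, t < 1 → HasDerivAt P (p t) t := by
    intro t ht
    have hne : (1 : ℝ) - t ≠ 0 := by linarith
    have h1 : HasDerivAt (fun t : ℝ => 1 - t) (-1) t := by
      simpa using (hasDerivAt_id t).const_sub 1
    have h2 := ((hasDerivAt_const t (2 * C1 * l0)).div h1 hne).add
      ((hasDerivAt_const t (c3 / 2)).div (h1.pow 2) (pow_ne_zero 2 hne))
    refine h2.congr_deriv ?_
    simp only [hp, Pi.pow_apply]
    push_cast
    field_simp
    ring
  have hpc : ContinuousOn p (Icc 0 r) := by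
    have h1 : ∀ t ∈ Icc 0 r, (1 : ℝ) - t ≠ 0 := by
      intro t ht
      have := ht.2
      linarith
    exact (ContinuousOn.div continuousOn_const (by fun_prop) (fun t ht => pow_ne_zero _ (h1 t ht))).add
      (ContinuousOn.div continuousOn_const (by fun_prop) (fun t ht => pow_ne_zero _ (h1 t ht)))
  have hpi : IntervalIntegrable p volume 0 r :=
    ContinuousOn.intervalIntegrable (by rwa [uIcc_of_le hrpos.le])
  have hle : ∫ t in (0:ℝ)..r, g t ≤ ∫ t in (0:ℝ)..r, p t := by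
    refine intervalIntegral.integral_mono_on hrpos.le hgi hpi ?_
    intro t ht
    have ht0 : 0 ≤ t := ht.1
    have ht1 : t < 1 := lt_of_le_of_lt ht.2 hr1
    have hm1 : 0 < 1 - t := by linarith
    have hE := EE_le ht0 ht1
    have hE0 := EE_pos ht0 ht1
    have hsq : Real.sqrt (1 + t ^ 2 / 3) ≤ 2 := by
      rw [Real.sqrt_le_left (by norm_num)]
      nlinarith
    have hsq0 := Real.sqrt_nonneg (1 + t ^ 2 / 3)
    have b1 : (C1 + η * EE t) * (l0 * (Real.sqrt (1 + t ^ 2 / 3) / (1 - t) ^ 2)) ≤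
        (C1 + η * (2 / (1 - t))) * (l0 * (2 / (1 - t) ^ 2)) := by gcongr
    have b2 : c0 * EE t * (l0 * κ * EE t ^ 2 / s0) ≤
        c0 * (2 / (1 - t)) * (l0 * κ * (2 / (1 - t)) ^ 2 * 2) := by
      have h1 : l0 * κ * EE t ^ 2 / s0 ≤ l0 * κ * EE t ^ 2 * 2 := by
        rw [div_le_iff₀ hs0]
        have : 0 ≤ l0 * κ * EE t ^ 2 := by positivity
        nlinarith
      calc c0 * EE t * (l0 * κ * EE t ^ 2 / s0) ≤ c0 * EE t * (l0 * κ * EE t ^ 2 * 2) := by gcongr
        _ ≤ _ := by gcongr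
    have e1 : (C1 + η * (2 / (1 - t))) * (l0 * (2 / (1 - t) ^ 2)) +
        c0 * (2 / (1 - t)) * (l0 * κ * (2 / (1 - t)) ^ 2 * 2) = p t := by
      simp only [hp, hc3]
      field_simp
      ring
    rw [← e1]
    exact add_le_add b1 b2
  have hFTC : ∫ t in (0:ℝ)..r, p t = P r - P 0 := by
    refine intervalIntegral.integral_eq_sub_of_hasDerivAt ?_ hpi
    intro t ht
    rw [uIcc_of_le hrpos.le] at ht
    exact hPd t (lt_of_le_of_lt ht.2 hr1)
  have hc30 : 0 ≤ c3 := by positivity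
  have hP0 : 0 ≤ P 0 := by
    simp only [hP]
    positivity
  have hPr : 4 * P r ≤ ε / (1 - r) ^ 2 := by
    have hm1 : 0 < 1 - r := by linarith
    have e2 : 2 * c3 = ε / 2 := by
      rw [hc3, hη, hκ]
      field_simp
      ring
    have h1 : 8 * C1 * l0 / (1 - r) ≤ ε / 2 / (1 - r) ^ 2 := by
      rw [div_le_div_iff₀ hm1 (by positivity)]
      have h2 : (1 - r) * (16 * C1 * l0) ≤ ε := by
        rwa [le_div_iff₀ (by positivity)] at hr'
      nlinarith
    calc 4 * P r = 8 * C1 * l0 / (1 - r) + 2 * c3 / (1 - r) ^ 2 := by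
          simp only [hP]; ring
      _ ≤ ε / 2 / (1 - r) ^ 2 + 2 * c3 / (1 - r) ^ 2 := by linarith
      _ = ε / (1 - r) ^ 2 := by rw [e2]; ring
  linarith

/-- **The case of index zero**: the coefficients are `o(n^2)`. -/
theorem alpha_zero (h : AchLift L F G R) (hRB : RadBound)
    (h0 : ∀ ζ : ℂ, ‖ζ‖ = 1 →
      Tendsto (fun t : ℝ => (1 - t) ^ 4 * ‖deriv L ((t : ℂ) * ζ)‖) (𝓝[<] 1) (𝓝 0)) :
    Tendsto (fun n : ℕ => ‖iteratedDeriv n L 0 / (n ! : ℂ)‖ / (n : ℝ) ^ 2) atTop (𝓝 0) := by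
  rw [Metric.tendsto_atTop]
  intro ε hε
  obtain ⟨r0, hr0, hr01, hr⟩ := zero_mean h hRB h0 (ε := ε / (2 * Real.exp 2))
    (by positivity)
  obtain ⟨N, hN⟩ := exists_nat_gt (1 / (1 - r0))
  refine ⟨max N 2, ?_⟩
  intro n hn
  have hn2 : 2 ≤ n := (le_max_right _ _).trans hn
  have hnN : (N : ℝ) ≤ n := by exact_mod_cast (le_max_left _ _).trans hn
  have hnpos : (0 : ℝ) < n := by exact_mod_cast (by omega : 0 < n)
  have hn2' : (2 : ℝ) ≤ n := by exact_mod_cast hn2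
  have h1r : 0 < 1 - r0 := by linarith
  set r : ℝ := 1 - 1 / n with hrdef
  have hrr : r0 < r := by
    have h1 : 1 / (1 - r0) < n := lt_of_lt_of_le hN hnN
    have h2 : 1 / (n : ℝ) < 1 - r0 := by
      rw [div_lt_iff₀ hnpos]
      rw [div_lt_iff₀ h1r] at h1
      linarith
    rw [hrdef]; linarith
  have hr1 : r < 1 := by
    rw [hrdef]
    have : 0 < 1 / (n : ℝ) := by positivity
    linarith
  have hrpos : 0 < r := lt_trans hr0 hrr
  have h1 := coeff_le_mean h.dL (n := n) (by omega) hrpos hr1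
  have h2 := hr r hrr hr1
  have e1 : 1 - r = 1 / n := by rw [hrdef]; ring
  rw [e1] at h2
  -- lower bound for `r ^ n`
  have h3 : Real.exp (-2) ≤ r ^ n := by
    have h4 : Real.exp (-(2 / n)) ≤ r := by
      have h5 : 1 + (1 / (n : ℝ)) / r ≤ Real.exp ((1 / (n : ℝ)) / r) := by
        have := Real.add_one_le_exp ((1 / (n : ℝ)) / r)
        linarith
      have h6 : 1 + (1 / (n : ℝ)) / r = 1 / r := by
        rw [eq_div_iff hrpos.ne', add_mul, div_mul_cancel₀ _ hrpos.ne', one_mul, hrdef]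
        ring
      have h7 : (1 / (n : ℝ)) / r ≤ 2 / n := by
        have h8 : 1 / 2 ≤ r := by
          rw [hrdef]
          have : 1 / (n : ℝ) ≤ 1 / 2 := one_div_le_one_div_of_le (by norm_num) hn2'
          linarith
        rw [div_le_iff₀ hrpos]
        have h9 : 0 ≤ 2 / (n : ℝ) := by positivity
        calc 1 / (n : ℝ) = 2 / n * (1 / 2) := by ring
          _ ≤ 2 / n * r := mul_le_mul_of_nonneg_left h8 h9
      rw [h6] at h5
      have h10 : 1 / r ≤ Real.exp (2 / n) := h5.trans (Real.exp_le_exp.2 h7)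
      rw [Real.exp_neg, inv_eq_one_div, div_le_iff₀ (Real.exp_pos _)]
      rw [div_le_iff₀ hrpos] at h10
      linarith
    calc Real.exp (-2) = Real.exp (-(2 / n)) ^ n := by
          rw [← Real.exp_nat_mul]
          congr 1
          field_simp
      _ ≤ r ^ n := pow_le_pow_left₀ (Real.exp_pos _).le h4 n
  have hpi : (1 : ℝ) ≤ Real.pi := by linarith [Real.pi_gt_three]
  set c := ‖iteratedDeriv n L 0 / (n ! : ℂ)‖ with hc
  have hc0 : 0 ≤ c := norm_nonneg _
  have h4 : c * Real.exp (-2) ≤ ε / (2 * Real.exp 2) * n ^ 2 := by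
    calc c * Real.exp (-2) ≤ c * r ^ n := mul_le_mul_of_nonneg_left h3 hc0
      _ ≤ (1 / Real.pi) * ∫ θ in (0:ℝ)..(2 * Real.pi), |(L (circleMap 0 r θ) - L 0).im| := h1
      _ ≤ (1 / Real.pi) * (ε / (2 * Real.exp 2) / (1 / (n : ℝ)) ^ 2) :=
          mul_le_mul_of_nonneg_left h2 (by positivity)
      _ ≤ 1 * (ε / (2 * Real.exp 2) / (1 / (n : ℝ)) ^ 2) := by
          refine mul_le_mul_of_nonneg_right ?_ (by positivity)
          rw [div_le_one (by positivity)]
          exact hpi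
      _ = _ := by field_simp
  have h5 : c ≤ ε / 2 * n ^ 2 := by
    rw [Real.exp_neg] at h4
    have he := Real.exp_pos 2
    have h6 : c * (Real.exp 2)⁻¹ * Real.exp 2 ≤ ε / (2 * Real.exp 2) * n ^ 2 * Real.exp 2 :=
      mul_le_mul_of_nonneg_right h4 he.le
    have e2 : c * (Real.exp 2)⁻¹ * Real.exp 2 = c := by field_simp
    have e3 : ε / (2 * Real.exp 2) * n ^ 2 * Real.exp 2 = ε / 2 * n ^ 2 := by field_simp
    rwa [e2, e3] at h6
  rw [Real.dist_eq, sub_zero, abs_of_nonneg (by positivity), div_lt_iff₀ (by positivity)]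
  have h7 : 0 < (n : ℝ) ^ 2 := by positivity
  nlinarith

end Hay64
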