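import Pool.Agent.Hay64.Case2
import Pool.Agent.Hay64.Zero
import Pool.Agent.Hay64.Rigid
import Mathlib

/-!
# The dichotomy for achronal lifts

Either `L` is the model function, or its coefficients are eventually strictly below the bound.
-/

set_option autoImplicit false

open Complex Metric Set Filter Topology MeasureTheory
open scoped ComplexConjugate

namespace Hay64

variable {L F G R : ℂ → ℂ}

theorem iter_diff {f : ℂ → ℂ} (hf : DifferentiableOn ℂ f (ball 0 1)) (n : ℕ) :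
    DifferentiableOn ℂ (iteratedDeriv n f) (ball 0 1) := by
  induction n with
  | zero => simpa using hf
  | succ n ih => rw [iteratedDeriv_succ]; exact ih.deriv isOpen_ball

theorem rot_iter {f : ℂ → ℂ} (hf : DifferentiableOn ℂ f (ball 0 1)) {ζ : ℂ} (hζ : ‖ζ‖ = 1)
    (n : ℕ) : ∀ z ∈ ball (0:ℂ) 1,
      iteratedDeriv n (fun z => f (ζ * z)) z = ζ ^ n * iteratedDeriv n f (ζ * z) := by
  induction n with
  | zero => intro z _; simp
  | succ n ih =>
    intro z hz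
    have hζz : ζ * z ∈ ball (0:ℂ) 1 := by
      rw [mem_ball_zero_iff, norm_mul, hζ, one_mul]; simpa using hz
    rw [iteratedDeriv_succ]
    have h1 : iteratedDeriv n (fun z => f (ζ * z)) =ᶠ[𝓝 z]
        fun z => ζ ^ n * iteratedDeriv n f (ζ * z) := by
      filter_upwards [isOpen_ball.mem_nhds hz] with w hw using ih w hw
    rw [h1.deriv_eq]
    have h2 : HasDerivAt (iteratedDeriv n f) (deriv (iteratedDeriv n f) (ζ * z)) (ζ * z) :=
      ((iter_diff hf n).differentiableAt (isOpen_ball.mem_nhds hζz)).hasDerivAt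
    have h3 : HasDerivAt (fun z : ℂ => ζ * z) ζ z := by
      simpa using (hasDerivAt_id z).const_mul ζ
    have h4 := (h2.comp z h3).const_mul (ζ ^ n)
    have h5 : deriv (fun z => ζ ^ n * iteratedDeriv n f (ζ * z)) z =
        ζ ^ n * (deriv (iteratedDeriv n f) (ζ * z) * ζ) := h4.deriv
    rw [h5, iteratedDeriv_succ]
    ring

theorem iter_eq_of_ball {f g : ℂ → ℂ} (h : ∀ z ∈ ball (0:ℂ) 1, f z = g z) (n : ℕ) :
    iteratedDeriv n f 0 = iteratedDeriv n g 0 := by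
  have h1 : f =ᶠ[𝓝 0] g := by
    filter_upwards [isOpen_ball.mem_nhds (mem_ball_self (x := (0:ℂ)) one_pos)] with z hz
      using h z hz
  exact h1.iteratedDeriv_eq n

theorem phi_diff : DifferentiableOn ℂ (phi I) (ball 0 1) := fun _ hz =>
  (phi_hasDerivAt I (by simpa using hz)).differentiableAt.differentiableWithinAt

/-- coefficients of `L` from those of the difference to the model -/
theorem coef_from_PP (h : AllN24.AchLift L F G R) {ζ : ℂ} (hζ : ‖ζ‖ = 1) {κ a : ℝ}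
    (hκ : |κ| = a) {n : ℕ} (hn : 1 ≤ n) {X : ℝ}
    (hX : ‖iteratedDeriv n (PP (fun W => L (ζ * psi I W)) κ) 0 / (n.factorial : ℂ)‖ ≤ X) :
    ‖iteratedDeriv n L 0 / (n.factorial : ℂ)‖ ≤ 2 * a * ((2 * (n:ℝ) ^ 2 + 1) / 3) + X := by
  have hz0 : (0:ℂ) ∈ ball (0:ℂ) 1 := by simp
  set P := PP (fun W => L (ζ * psi I W)) κ with hP
  have hPeq : ∀ z ∈ ball (0:ℂ) 1, L (ζ * z) = P z + (κ:ℂ) / 3 * (phi I z) ^ 3 := by
    intro z hz
    have hz' : ‖z‖ < 1 := by simpa using hz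
    rw [hP]
    show L (ζ * z) = L (ζ * psi I (phi I z)) - (κ:ℂ) / 3 * (phi I z) ^ 3 +
      (κ:ℂ) / 3 * (phi I z) ^ 3
    rw [psi_phi I_mem hz']
    ring
  have hcd : ∀ {f : ℂ → ℂ}, DifferentiableOn ℂ f (ball 0 1) → ContDiffAt ℂ n f 0 := by
    intro f hf
    exact ((hf.analyticOnNhd isOpen_ball) 0 hz0).contDiffAt
  have hLd : DifferentiableOn ℂ (fun W => L (ζ * psi I W)) HH := zk_comp_diff h.dL hζ
  have hPd : DifferentiableOn ℂ P (ball 0 1) :=
    (comp_diff hLd I_mem).sub ((phi_diff.pow 3).const_mul _)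
  have h1 : iteratedDeriv n (fun z => L (ζ * z)) 0 =
      iteratedDeriv n (fun z => P z + (κ:ℂ) / 3 * (phi I z) ^ 3) 0 := iter_eq_of_ball hPeq n
  rw [rot_iter h.dL hζ n 0 hz0, mul_zero] at h1
  have h2 : iteratedDeriv n (fun z => P z + (κ:ℂ) / 3 * (phi I z) ^ 3) 0 =
      iteratedDeriv n P 0 + iteratedDeriv n (fun z => (κ:ℂ) / 3 * (phi I z) ^ 3) 0 :=
    iteratedDeriv_fun_add (hcd hPd) (hcd ((phi_diff.pow 3).const_mul _))
  have h3 : iteratedDeriv n (fun z => (κ:ℂ) / 3 * (phi I z) ^ 3) 0 =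
      (κ:ℂ) / 3 * iteratedDeriv n (fun z => (phi I z) ^ 3) 0 :=
    iteratedDeriv_const_mul_field _ _
  have hnf : (n.factorial : ℂ) ≠ 0 := by exact_mod_cast n.factorial_ne_zero
  have h4 : ζ ^ n * (iteratedDeriv n L 0 / (n.factorial : ℂ)) =
      iteratedDeriv n P 0 / (n.factorial : ℂ) +
      (κ:ℂ) / 3 * (-2 * I * (2 * (n : ℂ) ^ 2 + 1)) := by
    rw [← model_coef n hn, ← mul_div_assoc, h1, h2, h3]
    field_simp
  have h5 : ‖iteratedDeriv n L 0 / (n.factorial : ℂ)‖ =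
      ‖ζ ^ n * (iteratedDeriv n L 0 / (n.factorial : ℂ))‖ := by
    rw [norm_mul, norm_pow, hζ, one_pow, one_mul]
  rw [h5, h4]
  refine (norm_add_le _ _).trans ?_
  have h6 : ‖(κ:ℂ) / 3 * (-2 * I * (2 * (n : ℂ) ^ 2 + 1))‖ = 2 * a * ((2 * (n:ℝ) ^ 2 + 1) / 3) := by
    have e : (κ:ℂ) / 3 * (-2 * I * (2 * (n : ℂ) ^ 2 + 1)) =
        ((κ * (-2 * ((2 * (n:ℝ) ^ 2 + 1) / 3)) : ℝ) : ℂ) * I := by push_cast; ring
    rw [e, norm_mul, Complex.norm_I, mul_one, Complex.norm_real, Real.norm_eq_abs, abs_mul, hκ,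
      abs_mul, abs_of_nonneg (by positivity : 0 ≤ (2 * (n:ℝ) ^ 2 + 1) / 3)]
    norm_num
    ring
  rw [h6]
  linarith

theorem dich (h : AllN24.AchLift L F G R) :
    (∃ zeta : ℂ, ‖zeta‖ = 1 ∧ ∀ z ∈ ball (0:ℂ) 1,
      deriv L z = deriv L 0 * ((1 + zeta * z) ^ 2 / (1 - zeta * z) ^ 4)) ∨
    (∃ a : ℝ, a < ‖deriv L 0‖ ∧ ∃ n0 : ℕ, ∀ n : ℕ, n0 ≤ n →
      ‖iteratedDeriv n L 0 / (n.factorial : ℂ)‖ ≤ a * ((2 * (n:ℝ) ^ 2 + 1) / 3)) := by
  have hRB := radBound
  have hL0 : 0 < ‖deriv L 0‖ := norm_pos_iff.2 (h.hL 0 (by simp))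
  -- derivative on the axis
  have hE0 : EE 0 = 1 := by simp [EE]
  have hI0 : ∀ {ζ : ℂ}, ‖ζ‖ = 1 → ‖deriv (fun W => L (ζ * psi I W)) I‖ = ‖deriv L 0‖ / 2 := by
    intro ζ hζ
    have h1 := zk_deriv_axis h hζ (le_refl (0:ℝ)) one_pos
    rw [hE0] at h1
    simp only [ofReal_one, mul_one, ofReal_zero, zero_mul, sub_zero, one_pow] at h1
    rw [h1]
    ring
  by_cases hpos : ∃ (ζ : ℂ) (a : ℝ), ‖ζ‖ = 1 ∧ 0 < a ∧
      Tendsto (fun v : ℝ => ‖deriv (fun W => L (ζ * psi I W)) (I * v)‖ / v ^ 2) atTop (𝓝 a)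
  · obtain ⟨ζ, a, hζ, ha, hlim⟩ := hpos
    have hH := zk_toH h hζ
    -- monotonicity: a is a lower bound
    have hge : ∀ v : ℝ, 0 < v → a ≤ ‖deriv (fun W => L (ζ * psi I W)) (I * v)‖ / v ^ 2 := by
      intro v hv
      refine le_of_tendsto hlim ?_
      filter_upwards [eventually_ge_atTop v] with w hw
      exact hH.ax3 hRB hv hw
    have hale : a ≤ ‖deriv L 0‖ / 2 := by
      have h1 := hge 1 one_pos
      simp only [ofReal_one, mul_one, one_pow, div_one] at h1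
      rwa [hI0 hζ] at h1
    rcases hale.eq_or_lt with heq | hlt
    · -- rigidity
      left
      refine ⟨conj ζ, by rw [RCLike.norm_conj, hζ], ?_⟩
      apply rigid h hζ
      intro t ht
      have ht1 : (0:ℝ) < 1 - t := by linarith [ht.2]
      have ht2 : (0:ℝ) < 1 + t := by linarith [ht.1]
      have hv : 0 < EE t := EE_pos ht.1 ht.2
      have h1 := hge (EE t) hv
      rw [zk_deriv_axis h hζ ht.1 ht.2] at h1
      have h2 := zk_anti h hRB hζ (le_refl (0:ℝ)) ht.1 ht.2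
      simp only [sub_zero, one_pow, add_zero, div_one, one_mul, ofReal_zero, zero_mul] at h2
      have e1 : ‖deriv L ((t:ℂ) * ζ)‖ * ((1 - t) ^ 2 / 2) / EE t ^ 2 =
          ((1 - t) ^ 4 / (1 + t) ^ 2 * ‖deriv L ((t:ℂ) * ζ)‖) / 2 := by
        unfold EE
        field_simp
      rw [e1, heq] at h1
      have e2 : ‖deriv L ((t:ℂ) * ζ)‖ * (1 - t) ^ 4 / (1 + t) ^ 2 =
          (1 - t) ^ 4 / (1 + t) ^ 2 * ‖deriv L ((t:ℂ) * ζ)‖ := by ring
      rw [e2]
      apply le_antisymm h2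
      linarith
    · right
      obtain ⟨F', G', R', β, T⟩ := hH.exists_tip hRB ha hlim
      obtain ⟨σ, hσ, hlims⟩ := T.exists_sign hRB
      have hσa : |σ * a| = a := by
        have : |σ| = 1 := by rcases hσ with h | h <;> rw [h] <;> norm_num
        rw [abs_mul, this, one_mul, abs_of_pos ha]
      set a' : ℝ := (2 * a + ‖deriv L 0‖) / 2 with ha'
      have haa' : 2 * a < a' := by rw [ha']; linarith
      have ha'L : a' < ‖deriv L 0‖ := by rw [ha']; linarith
      set ε : ℝ := (a' - 2 * a) * (2 / 3) with hε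
      have hε0 : 0 < ε := by rw [hε]; apply mul_pos (by linarith) (by norm_num)
      obtain ⟨N, hN⟩ := T.coef hσ hlims hε0
      refine ⟨a', ha'L, max N 1, fun n hn => ?_⟩
      have hnN : N ≤ n := (le_max_left _ _).trans hn
      have hn1 : 1 ≤ n := (le_max_right _ _).trans hn
      refine (coef_from_PP h hζ hσa hn1 (hN n hnN)).trans ?_
      have e : a' * ((2 * (n:ℝ) ^ 2 + 1) / 3) = 2 * a * ((2 * (n:ℝ) ^ 2 + 1) / 3) +
          ε * (n:ℝ) ^ 2 + (a' - 2 * a) / 3 := by rw [hε]; ring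
      rw [e]
      have : 0 ≤ (a' - 2 * a) / 3 := by linarith
      linarith
  · right
    have hzero : ∀ ζ : ℂ, ‖ζ‖ = 1 →
        Tendsto (fun t : ℝ => (1 - t) ^ 4 * ‖deriv L ((t : ℂ) * ζ)‖) (𝓝[<] 1) (𝓝 0) := by
      intro ζ hζ
      obtain ⟨a, ha0, -, hlim⟩ := (zk_toH h hζ).exists_a hRB
      have ha : a = 0 := by
        by_contra hne
        exact hpos ⟨ζ, a, hζ, lt_of_le_of_ne ha0 (Ne.symm hne), hlim⟩
      rw [ha] at hlim
      -- EE t → ∞
      have hEE : Tendsto EE (𝓝[<] 1) atTop := by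
        have h1 : Tendsto (fun t : ℝ => (1 - t)) (𝓝[<] 1) (𝓝[>] 0) := by
          rw [tendsto_nhdsWithin_iff]
          constructor
          · have : Tendsto (fun t : ℝ => 1 - t) (𝓝 1) (𝓝 (1 - 1)) :=
              (continuous_const.sub continuous_id).tendsto 1
            rw [sub_self] at this
            exact this.mono_left nhdsWithin_le_nhds
          · filter_upwards [self_mem_nhdsWithin] with t ht
            have : t < 1 := ht
            show (0:ℝ) < 1 - t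
            linarith
        have h2 := (tendsto_inv_nhdsGT_zero (𝕜 := ℝ)).comp h1
        have h3 : Tendsto (fun t : ℝ => 1 + t) (𝓝[<] 1) (𝓝 (1 + 1)) :=
          ((continuous_const.add continuous_id).tendsto 1).mono_left nhdsWithin_le_nhds
        have h4 := h3.pos_mul_atTop (by norm_num) h2
        refine h4.congr fun t => ?_
        simp only [Function.comp_apply, EE, div_eq_mul_inv]
      have h1 := hlim.comp hEE
      have h2 : Tendsto (fun t : ℝ => 2 * (1 + t) ^ 2) (𝓝[<] 1) (𝓝 (2 * (1 + 1) ^ 2)) := by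
        have : Continuous (fun t : ℝ => 2 * (1 + t) ^ 2) := by fun_prop
        exact (this.tendsto 1).mono_left nhdsWithin_le_nhds
      have h3 := h2.mul h1
      rw [mul_zero] at h3
      refine h3.congr' ?_
      have hI : Ioo (0:ℝ) 1 ∈ 𝓝[<] (1:ℝ) := Ioo_mem_nhdsLT one_pos
      filter_upwards [hI] with t ht
      have ht1 : (0:ℝ) < 1 - t := by linarith [ht.2]
      have ht2 : (0:ℝ) < 1 + t := by linarith [ht.1]
      simp only [Function.comp_apply]
      rw [zk_deriv_axis h hζ ht.1.le ht.2]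
      unfold EE
      field_simp
    have hz := alpha_zero h hRB hzero
    have h1 : ∀ᶠ n : ℕ in atTop,
        ‖iteratedDeriv n L 0 / (n.factorial : ℂ)‖ / (n:ℝ) ^ 2 < ‖deriv L 0‖ / 3 :=
      hz.eventually (gt_mem_nhds (by positivity))
    obtain ⟨N, hN⟩ := eventually_atTop.1 h1
    refine ⟨‖deriv L 0‖ / 2, by linarith, max N 1, fun n hn => ?_⟩
    have hnN : N ≤ n := (le_max_left _ _).trans hn
    have hn1 : 1 ≤ n := (le_max_right _ _).trans hn
    have hn0 : (0:ℝ) < n := by exact_mod_cast hn1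
    have h2 := (hN n hnN).le
    rw [div_le_iff₀ (by positivity)] at h2
    refine h2.trans ?_
    have e : ‖deriv L 0‖ / 2 * ((2 * (n:ℝ) ^ 2 + 1) / 3) =
        ‖deriv L 0‖ / 3 * (n:ℝ) ^ 2 + ‖deriv L 0‖ / 6 := by ring
    rw [e]
    linarith

end Hay64
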