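import Pool.Agent.AllN24.Defs
import Mathlib

/-!
# Achronal lifts on the upper half-plane

Transfer to the disc with an arbitrary base point, the growth inequality for `|L'| Im R`, the
Schwarz-Pick inequality and Harnack's inequality for `R`.
-/

set_option autoImplicit false

open Complex Metric Set Filter Topology
open scoped ComplexConjugate

namespace Hay64

/-- the upper half-plane as a set -/
def HH : Set ℂ := {w : ℂ | 0 < w.im}

theorem mem_HH {w : ℂ} : w ∈ HH ↔ 0 < w.im := Iff.rfl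

theorem isOpen_HH : IsOpen HH := isOpen_lt continuous_const Complex.continuous_im

theorem convex_HH : Convex ℝ HH := convex_halfSpace_im_gt 0

/-- the radial bound (growth theorem) for all achronal lifts, used as a hypothesis -/
def RadBound : Prop := ∀ L F G R : ℂ → ℂ, AllN24.AchLift L F G R → ∀ z ∈ ball (0:ℂ) 1,
    (1 - ‖z‖ ^ 2) * (‖deriv L z‖ * (R z).im)
      ≤ ‖deriv L 0‖ * (R 0).im * ((1 + ‖z‖) / (1 - ‖z‖)) ^ 2

/-- achronal lift on the upper half-plane -/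
structure AchH (L F G R : ℂ → ℂ) : Prop where
  dL : DifferentiableOn ℂ L HH
  dF : DifferentiableOn ℂ F HH
  dG : DifferentiableOn ℂ G HH
  dR : DifferentiableOn ℂ R HH
  hF : ∀ w ∈ HH, deriv F w = R w * deriv L w
  hG : ∀ w ∈ HH, deriv G w = R w ^ 2 * deriv L w
  hR : ∀ w ∈ HH, 0 < (R w).im
  hL : ∀ w ∈ HH, deriv L w ≠ 0
  hK : ∀ x ∈ HH, ∀ y ∈ HH, x ≠ y → 0 < AllN24.K L F G x y

/-- the Cayley map with base point `W0` -/
noncomputable def phi (W0 z : ℂ) : ℂ := (W0 - conj W0 * z) / (1 - z)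

theorem one_sub_ne {z : ℂ} (hz : ‖z‖ < 1) : (1 : ℂ) - z ≠ 0 := by
  intro h
  have : z = 1 := by linear_combination -h
  rw [this] at hz
  simp at hz

theorem phi_zero (W0 : ℂ) : phi W0 0 = W0 := by simp [phi]

theorem phi_im (W0 : ℂ) {z : ℂ} (hz : ‖z‖ < 1) :
    (phi W0 z).im = W0.im * (1 - ‖z‖ ^ 2) / ‖1 - z‖ ^ 2 := by
  have h1 := one_sub_ne hz
  have h2 : 0 < normSq (1 - z) := normSq_pos.2 h1
  unfold phi
  rw [Complex.div_im, Complex.sq_norm, Complex.sq_norm]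
  simp only [sub_im, mul_im, conj_re, conj_im, sub_re, one_re, one_im, mul_re]
  rw [normSq_apply z]
  field_simp
  ring

theorem phi_mem {W0 : ℂ} (hW : W0 ∈ HH) {z : ℂ} (hz : ‖z‖ < 1) : phi W0 z ∈ HH := by
  rw [mem_HH, phi_im W0 hz]
  have h1 : 0 < ‖1 - z‖ := norm_pos_iff.2 (one_sub_ne hz)
  have h2 : 0 < W0.im := hW
  have h3 : 0 < 1 - ‖z‖ ^ 2 := by nlinarith [norm_nonneg z]
  positivity

theorem sub_conj_ne {W0 : ℂ} (hW : W0 ∈ HH) : W0 - conj W0 ≠ 0 := by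
  intro h
  have : (W0 - conj W0).im = 0 := by rw [h]; rfl
  simp only [sub_im, conj_im] at this
  have h2 : 0 < W0.im := hW
  linarith

theorem phi_inj {W0 : ℂ} (hW : W0 ∈ HH) {x y : ℂ} (hx : ‖x‖ < 1) (hy : ‖y‖ < 1)
    (h : phi W0 x = phi W0 y) : x = y := by
  unfold phi at h
  rw [div_eq_div_iff (one_sub_ne hx) (one_sub_ne hy)] at h
  have h2 : (W0 - conj W0) * (x - y) = 0 := by linear_combination h
  have := (mul_eq_zero.1 h2).resolve_left (sub_conj_ne hW)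
  linear_combination this

theorem phi_hasDerivAt (W0 : ℂ) {z : ℂ} (hz : ‖z‖ < 1) :
    HasDerivAt (phi W0) ((W0 - conj W0) / (1 - z) ^ 2) z := by
  have h1 := one_sub_ne hz
  have ha : HasDerivAt (fun z : ℂ => W0 - conj W0 * z) (-(conj W0)) z := by
    simpa using ((hasDerivAt_id z).const_mul (conj W0)).const_sub W0
  have hb : HasDerivAt (fun z : ℂ => (1 : ℂ) - z) (-1) z := by
    simpa using (hasDerivAt_id z).const_sub 1
  have h2 : HasDerivAt (phi W0) _ z := ha.div hb h1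
  refine h2.congr_deriv ?_
  congr 1
  ring

/-- the inverse of `phi W0` -/
noncomputable def psi (W0 W : ℂ) : ℂ := (W - W0) / (W - conj W0)

theorem den_ne {W0 W : ℂ} (hW0 : W0 ∈ HH) (hW : W ∈ HH) : W - conj W0 ≠ 0 := by
  intro h
  have h1 : (W - conj W0).im = 0 := by rw [h]; rfl
  have h2 : 0 < W0.im := hW0
  have h3 : 0 < W.im := hW
  simp only [sub_im, conj_im] at h1
  linarith

theorem den_sq (W0 W : ℂ) : ‖W - conj W0‖ ^ 2 - ‖W - W0‖ ^ 2 = 4 * (W.im * W0.im) := by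
  rw [Complex.sq_norm, Complex.sq_norm, normSq_apply, normSq_apply]
  simp only [sub_re, sub_im, conj_re, conj_im]
  ring

theorem psi_norm_lt {W0 W : ℂ} (hW0 : W0 ∈ HH) (hW : W ∈ HH) : ‖psi W0 W‖ < 1 := by
  unfold psi
  have h1 : 0 < ‖W - conj W0‖ := norm_pos_iff.2 (den_ne hW0 hW)
  rw [norm_div, div_lt_one h1]
  have h2 := den_sq W0 W
  have h3 : 0 < W.im * W0.im := mul_pos hW hW0
  nlinarith [norm_nonneg (W - W0)]

theorem phi_psi {W0 W : ℂ} (hW0 : W0 ∈ HH) (hW : W ∈ HH) : phi W0 (psi W0 W) = W := by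
  have h1 := den_ne hW0 hW
  have h2 := sub_conj_ne hW0
  unfold phi psi
  have h3 : (1 : ℂ) - (W - W0) / (W - conj W0) = (W0 - conj W0) / (W - conj W0) := by
    field_simp
    ring
  rw [h3]
  field_simp
  ring

theorem psi_one_sub_sq {W0 W : ℂ} (hW0 : W0 ∈ HH) (hW : W ∈ HH) :
    1 - ‖psi W0 W‖ ^ 2 = 4 * (W.im * W0.im) / ‖W - conj W0‖ ^ 2 := by
  have h1 : 0 < ‖W - conj W0‖ := norm_pos_iff.2 (den_ne hW0 hW)
  unfold psi
  rw [norm_div, div_pow, ← den_sq W0 W]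
  field_simp

section pull

variable {L F G R : ℂ → ℂ}

theorem comp_hasDerivAt {A : ℂ → ℂ} (hA : DifferentiableOn ℂ A HH) {W0 : ℂ} (hW0 : W0 ∈ HH)
    {z : ℂ} (hz : ‖z‖ < 1) :
    HasDerivAt (fun z => A (phi W0 z)) (deriv A (phi W0 z) * ((W0 - conj W0) / (1 - z) ^ 2)) z :=
  ((hA.differentiableAt (isOpen_HH.mem_nhds (phi_mem hW0 hz))).hasDerivAt).comp z
    (phi_hasDerivAt W0 hz)

theorem comp_diff {A : ℂ → ℂ} (hA : DifferentiableOn ℂ A HH) {W0 : ℂ} (hW0 : W0 ∈ HH) :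
    DifferentiableOn ℂ (fun z => A (phi W0 z)) (ball 0 1) := fun z hz =>
  (comp_hasDerivAt hA hW0 (by simpa using hz)).differentiableAt.differentiableWithinAt

/-- pull back to the disc with base point `W0` -/
theorem AchH.pull (h : AchH L F G R) {W0 : ℂ} (hW0 : W0 ∈ HH) :
    AllN24.AchLift (fun z => L (phi W0 z)) (fun z => F (phi W0 z)) (fun z => G (phi W0 z))
      (fun z => R (phi W0 z)) := by
  refine ⟨comp_diff h.dL hW0, comp_diff h.dF hW0, comp_diff h.dG hW0, comp_diff h.dR hW0,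
    ?_, ?_, ?_, ?_, ?_⟩
  · intro z hz
    have hz' : ‖z‖ < 1 := by simpa using hz
    rw [(comp_hasDerivAt h.dF hW0 hz').deriv, (comp_hasDerivAt h.dL hW0 hz').deriv,
      h.hF _ (phi_mem hW0 hz')]
    ring
  · intro z hz
    have hz' : ‖z‖ < 1 := by simpa using hz
    rw [(comp_hasDerivAt h.dG hW0 hz').deriv, (comp_hasDerivAt h.dL hW0 hz').deriv,
      h.hG _ (phi_mem hW0 hz')]
    ring
  · intro z hz
    exact h.hR _ (phi_mem hW0 (by simpa using hz))
  · intro z hz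
    have hz' : ‖z‖ < 1 := by simpa using hz
    rw [(comp_hasDerivAt h.dL hW0 hz').deriv]
    exact mul_ne_zero (h.hL _ (phi_mem hW0 hz'))
      (div_ne_zero (sub_conj_ne hW0) (pow_ne_zero _ (one_sub_ne hz')))
  · intro x hx y hy hxy
    have hx' : ‖x‖ < 1 := by simpa using hx
    have hy' : ‖y‖ < 1 := by simpa using hy
    exact h.hK _ (phi_mem hW0 hx') _ (phi_mem hW0 hy') (fun he => hxy (phi_inj hW0 hx' hy' he))

theorem norm_sub_conj (W0 : ℂ) (h : 0 < W0.im) : ‖W0 - conj W0‖ = 2 * W0.im := by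
  have : W0 - conj W0 = ((2 * W0.im : ℝ) : ℂ) * I := by
    apply Complex.ext
    · simp
    · simp; ring
  rw [this, norm_mul, Complex.norm_real, Complex.norm_I, mul_one, Real.norm_of_nonneg (by linarith)]

/-- growth theorem with two arbitrary points -/
theorem AchH.grow (h : AchH L F G R) (hRB : RadBound) {W0 W : ℂ} (hW0 : W0 ∈ HH) (hW : W ∈ HH) :
    W.im * (‖deriv L W‖ * (R W).im) ≤ W0.im * (‖deriv L W0‖ * (R W0).im) *
      ((1 + ‖psi W0 W‖) / (1 - ‖psi W0 W‖)) ^ 2 := by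
  set z := psi W0 W with hz
  have hz1 : ‖z‖ < 1 := psi_norm_lt hW0 hW
  have hzW : phi W0 z = W := phi_psi hW0 hW
  have h1 := hRB _ _ _ _ (h.pull hW0) z (by simpa using hz1)
  rw [(comp_hasDerivAt h.dL hW0 hz1).deriv, (comp_hasDerivAt h.dL hW0 (by simp)).deriv,
    phi_zero, hzW] at h1
  have hW0i : 0 < W0.im := hW0
  have him := phi_im W0 hz1
  rw [hzW] at him
  have hnz : 0 < ‖1 - z‖ := norm_pos_iff.2 (one_sub_ne hz1)
  rw [norm_mul, norm_mul, norm_div, norm_div, norm_pow, norm_sub_conj W0 hW0i] at h1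
  simp only [sub_zero, one_pow, norm_one, div_one] at h1
  have e1 : (1 - ‖z‖ ^ 2) * (‖deriv L W‖ * (2 * W0.im / ‖1 - z‖ ^ 2) * (R W).im) =
      2 * (W.im * (‖deriv L W‖ * (R W).im)) := by
    rw [him]
    field_simp
  rw [e1] at h1
  have e2 : ‖deriv L W0‖ * (2 * W0.im) * (R W0).im * ((1 + ‖z‖) / (1 - ‖z‖)) ^ 2 =
      2 * (W0.im * (‖deriv L W0‖ * (R W0).im) * ((1 + ‖z‖) / (1 - ‖z‖)) ^ 2) := by ring
  rw [e2] at h1
  linarith

end pull

end Hay64
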