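import Pool.Agent.Hay64.Tip
import Mathlib

/-!
# Limits of the rescaled surfaces at a tip (along an ultrafilter)
-/

set_option autoImplicit false

open Complex Metric Set Filter Topology
open scoped ComplexConjugate

namespace Hay64

variable {L F G R : ℂ → ℂ} {a β : ℝ}

/-- locally eventually bounded -/
def LB (U : Ultrafilter ℕ) (Ω : Set ℂ) (q : ℕ → ℂ → ℂ) : Prop :=
  ∀ x ∈ Ω, ∃ δ > 0, ∃ M : ℝ, closedBall x δ ⊆ Ω ∧
    ∀ᶠ j in (U : Filter ℕ), ∀ y ∈ closedBall x δ, ‖q j y‖ ≤ M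

theorem LB.of_bound {U : Ultrafilter ℕ} {Ω : Set ℂ} {q : ℕ → ℂ → ℂ} (hΩ : IsOpen Ω) {B : ℂ → ℝ}
    (hB : ContinuousOn B Ω) (h : ∀ᶠ j in (U : Filter ℕ), ∀ y ∈ Ω, ‖q j y‖ ≤ B y) : LB U Ω q := by
  intro x hx
  obtain ⟨δ, hδ, hsub⟩ := Metric.isOpen_iff.1 hΩ x hx
  have hsub' : closedBall x (δ / 2) ⊆ Ω := (closedBall_subset_ball (by linarith)).trans hsub
  obtain ⟨M, hM⟩ := (isCompact_closedBall x (δ / 2)).bddAbove_image (hB.mono hsub')
  refine ⟨δ / 2, by positivity, M, hsub', ?_⟩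
  filter_upwards [h] with j hj y hy
  exact (hj y (hsub' hy)).trans (hM ⟨y, hy, rfl⟩)

theorem LB.mul {U : Ultrafilter ℕ} {Ω : Set ℂ} {p q : ℕ → ℂ → ℂ} (h1 : LB U Ω p)
    (h2 : LB U Ω q) : LB U Ω (fun j y => p j y * q j y) := by
  intro x hx
  obtain ⟨δ1, hδ1, M1, hs1, hM1⟩ := h1 x hx
  obtain ⟨δ2, hδ2, M2, hs2, hM2⟩ := h2 x hx
  refine ⟨min δ1 δ2, lt_min hδ1 hδ2, M1 * M2,
    (closedBall_subset_closedBall (min_le_left _ _)).trans hs1, ?_⟩
  filter_upwards [hM1, hM2] with j hj1 hj2 y hy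
  have a1 := hj1 y (closedBall_subset_closedBall (min_le_left _ _) hy)
  have a2 := hj2 y (closedBall_subset_closedBall (min_le_right _ _) hy)
  rw [norm_mul]
  exact mul_le_mul a1 a2 (norm_nonneg _) ((norm_nonneg _).trans a1)

theorem tlu_of_LB {U : Ultrafilter ℕ} {Ω : Set ℂ} (hΩ : IsOpen Ω) {q : ℕ → ℂ → ℂ}
    (hd : ∀ j, DifferentiableOn ℂ (q j) Ω) (hb : LB U Ω q) {g : ℂ → ℂ}
    (hg : ∀ x ∈ Ω, Tendsto (fun j => q j x) (U : Filter ℕ) (𝓝 (g x))) :
    TendstoLocallyUniformlyOn q g (U : Filter ℕ) Ω := by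
  obtain ⟨f, hf, -⟩ := montel hΩ U hd hb
  refine hf.congr_right fun x hx => ?_
  exact tendsto_nhds_unique (hf.tendsto_at hx) (hg x hx)

theorem smul_mem {v : ℝ} (hv : 0 < v) {W : ℂ} (hW : W ∈ HH) : (v:ℂ) * W ∈ HH := by
  rw [mem_HH, im_ofReal_mul]
  exact mul_pos hv hW

theorem psi_scale {v : ℝ} (hv : 0 < v) (W : ℂ) : psi (I * v) (v * W) = psi I W := by
  unfold psi
  have hv' : (v:ℂ) ≠ 0 := by exact_mod_cast hv.ne'
  have e1 : (v:ℂ) * W - I * v = v * (W - I) := by ring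
  have e2 : (v:ℂ) * W - conj (I * v) = v * (W - conj I) := by
    simp only [map_mul, conj_I, conj_ofReal]; ring
  rw [e1, e2, mul_div_mul_left _ _ hv']

theorem I_mem : I ∈ HH := by rw [mem_HH]; simp

theorem scale_diff {A : ℂ → ℂ} (hA : DifferentiableOn ℂ A HH) {v : ℝ} (hv : 0 < v) :
    DifferentiableOn ℂ (fun W => A (v * W)) HH := by
  intro W hW
  have h1 := (hA.differentiableAt (isOpen_HH.mem_nhds (smul_mem hv hW))).hasDerivAt
  have h2 : HasDerivAt (fun W : ℂ => (v:ℂ) * W) (v:ℂ) W := by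
    simpa using (hasDerivAt_id W).const_mul (v:ℂ)
  exact (h1.comp W h2).differentiableAt.differentiableWithinAt

theorem scale_deriv {A : ℂ → ℂ} (hA : DifferentiableOn ℂ A HH) {v : ℝ} (hv : 0 < v) {W : ℂ}
    (hW : W ∈ HH) : HasDerivAt (fun W => A (v * W)) (deriv A (v * W) * v) W := by
  have h1 := (hA.differentiableAt (isOpen_HH.mem_nhds (smul_mem hv hW))).hasDerivAt
  have h2 : HasDerivAt (fun W : ℂ => (v:ℂ) * W) (v:ℂ) W := by
    simpa using (hasDerivAt_id W).const_mul (v:ℂ)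
  exact h1.comp W h2

theorem mul_axis (v y : ℝ) : (v:ℂ) * (I * y) = I * ((v * y : ℝ) : ℂ) := by push_cast; ring

section

variable (T : Tip L F G R a β) {v : ℕ → ℝ} (hv : ∀ j, 1 ≤ v j) {U : Ultrafilter ℕ}
  (hvU : Tendsto v (U : Filter ℕ) atTop)

include T hv

theorem Tip.p_bound (j : ℕ) {W : ℂ} (hW : W ∈ HH) :
    ‖(v j : ℂ) * R (v j * W)‖ ≤ β + 2 * β / (1 - ‖psi I W‖) := by
  have hv0 : 0 < v j := lt_of_lt_of_le one_pos (hv j)
  have ht : ‖psi I W‖ < 1 := psi_norm_lt I_mem hW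
  have h1 := sp T.ach.dR T.ach.hR (axis_mem hv0) (smul_mem hv0 hW)
  rw [psi_scale hv0] at h1
  have h2 := T.hc (v j) hv0
  have h3 : ‖R (v j * W) - conj (R (I * v j))‖ ≤
      ‖R (v j * W) - R (I * v j)‖ + 2 * (R (I * v j)).im := by
    have e : R (v j * W) - conj (R (I * v j)) = (R (v j * W) - R (I * v j)) +
      (R (I * v j) - conj (R (I * v j))) := by ring
    rw [e]
    refine (norm_add_le _ _).trans ?_
    rw [norm_sub_conj _ (T.ach.hR _ (axis_mem hv0))]
  have h4 : (R (I * v j)).im ≤ β / v j := by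
    refine le_trans ?_ h2
    exact (le_abs_self _).trans (Complex.abs_im_le_norm _)
  set t := ‖psi I W‖ with ht'
  have ht0 : 0 ≤ t := norm_nonneg _
  set n := ‖R (v j * W) - R (I * v j)‖ with hn
  have h5 : n * (1 - t) ≤ 2 * (β / v j) := by
    have h6 : n ≤ t * (n + 2 * (R (I * v j)).im) := h1.trans (by gcongr)
    have him := (T.ach.hR _ (axis_mem hv0)).le
    have h7 : t * (2 * (R (I * v j)).im) ≤ 1 * (2 * (R (I * v j)).im) := by gcongr
    nlinarith
  have h6 : n ≤ 2 * (β / v j) / (1 - t) := by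
    rw [le_div_iff₀ (by linarith)]; exact h5
  have h7 : ‖R (v j * W)‖ ≤ β / v j + 2 * (β / v j) / (1 - t) := by
    have e : R (v j * W) = R (I * v j) + (R (v j * W) - R (I * v j)) := by ring
    rw [e]
    exact (norm_add_le _ _).trans (add_le_add h2 h6)
  rw [norm_mul, Complex.norm_real, Real.norm_of_nonneg hv0.le]
  calc v j * ‖R (v j * W)‖ ≤ v j * (β / v j + 2 * (β / v j) / (1 - t)) := by gcongr
    _ = β + 2 * β / (1 - t) := by field_simp

theorem Tip.q_bound (hRB : RadBound) (j : ℕ) {W : ℂ} (hW : W ∈ HH) :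
    ‖deriv L (v j * W) / (v j : ℂ) ^ 2‖ ≤ ‖deriv L I‖ * (‖W - conj I‖ ^ 2 / W.im) ^ 3 / W.im := by
  have hv0 : 0 < v j := lt_of_lt_of_le one_pos (hv j)
  have hWi : 0 < W.im := hW
  have h1 := T.ach.growL' hRB (axis_mem hv0) (smul_mem hv0 hW)
  have e2 : (v j:ℂ) * W - conj (I * v j) = v j * (W - conj I) := by
    simp only [map_mul, conj_I, conj_ofReal]; ring
  rw [e2, axis_im, im_ofReal_mul, norm_mul, Complex.norm_real, Real.norm_of_nonneg hv0.le] at h1
  have h2 := T.le_a (v j) (hv j)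
  have e3 : (v j * ‖W - conj I‖) ^ 2 / (v j * W.im * v j) = ‖W - conj I‖ ^ 2 / W.im := by
    field_simp
  rw [e3] at h1
  rw [norm_div, norm_pow, Complex.norm_real, Real.norm_of_nonneg hv0.le, le_div_iff₀ hWi,
    div_mul_eq_mul_div, div_le_iff₀ (by positivity)]
  have h3 : v j * (‖deriv L (v j * W)‖ * W.im) ≤
      v j * (‖deriv L I‖ * (‖W - conj I‖ ^ 2 / W.im) ^ 3 * v j ^ 2) := by
    calc v j * (‖deriv L (v j * W)‖ * W.im) = v j * W.im * ‖deriv L (v j * W)‖ := by ring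
      _ ≤ v j * ‖deriv L (I * v j)‖ * (‖W - conj I‖ ^ 2 / W.im) ^ 3 := h1
      _ ≤ v j * (‖deriv L I‖ * v j ^ 2) * (‖W - conj I‖ ^ 2 / W.im) ^ 3 := by gcongr
      _ = _ := by ring
  exact le_of_mul_le_mul_left h3 hv0

theorem Tip.LB_p : LB U HH (fun j W => (v j : ℂ) * R (v j * W)) := by
  refine LB.of_bound isOpen_HH (B := fun W => β + 2 * β / (1 - ‖psi I W‖)) ?_
    (Eventually.of_forall fun j W hW => T.p_bound hv j hW)
  have h1 : ContinuousOn (fun W => psi I W) HH := by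
    unfold psi
    exact ContinuousOn.div (by fun_prop) (by fun_prop) (fun W hW => den_ne I_mem hW)
  refine continuousOn_const.add (continuousOn_const.div (continuousOn_const.sub h1.norm) ?_)
  intro W hW
  have := psi_norm_lt I_mem hW
  linarith

theorem Tip.LB_q (hRB : RadBound) :
    LB U HH (fun j W => deriv L (v j * W) / (v j : ℂ) ^ 2) := by
  refine LB.of_bound isOpen_HH
    (B := fun W => ‖deriv L I‖ * (‖W - conj I‖ ^ 2 / W.im) ^ 3 / W.im) ?_
    (Eventually.of_forall fun j W hW => T.q_bound hv hRB j hW)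
  have him : ContinuousOn (fun W : ℂ => W.im) HH := Complex.continuous_im.continuousOn
  have hne : ∀ W ∈ HH, W.im ≠ 0 := fun W hW => (ne_of_gt hW)
  have h1 : ContinuousOn (fun W : ℂ => ‖W - conj I‖ ^ 2) HH := by fun_prop
  exact (continuousOn_const.mul ((h1.div him hne).pow 3)).div him hne

theorem Tip.diff_p (j : ℕ) : DifferentiableOn ℂ (fun W => (v j : ℂ) * R (v j * W)) HH :=
  (scale_diff T.ach.dR (lt_of_lt_of_le one_pos (hv j))).const_mul _

theorem Tip.diff_q (j : ℕ) :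
    DifferentiableOn ℂ (fun W => deriv L (v j * W) / (v j : ℂ) ^ 2) HH :=
  (scale_diff (T.ach.dL.deriv isOpen_HH) (lt_of_lt_of_le one_pos (hv j))).div_const _

include hvU

theorem Tip.lim_p : TendstoLocallyUniformlyOn (fun j W => (v j : ℂ) * R (v j * W))
    (fun W => -(β : ℂ) / W) (U : Filter ℕ) HH := by
  obtain ⟨f, hf, hfd⟩ := montel isOpen_HH U (T.diff_p hv) (T.LB_p hv)
  have haxis : ∀ y : ℝ, 0 < y → f (I * y) = -(β : ℂ) / (I * y) := by
    intro y hy
    have hlim := hf.tendsto_at (axis_mem hy)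
    have hsc : Tendsto (fun j => v j * y) (U : Filter ℕ) atTop := hvU.atTop_mul_const hy
    have him : (f (I * y)).im = β / y := by
      have h1 := (Complex.continuous_im.tendsto _).comp hlim
      have h2 : Tendsto (fun j => (v j * y) * (R (I * ((v j * y : ℝ) : ℂ))).im / y)
          (U : Filter ℕ) (𝓝 (β / y)) := (T.lim_β.comp hsc).div_const y
      refine tendsto_nhds_unique h1 (h2.congr fun j => ?_)
      simp only [Function.comp_apply]
      rw [mul_axis, im_ofReal_mul]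
      field_simp
    have hnorm : ‖f (I * y)‖ ≤ β / y := by
      refine le_of_tendsto hlim.norm (Eventually.of_forall fun j => ?_)
      have hv0 : 0 < v j := lt_of_lt_of_le one_pos (hv j)
      have h3 := T.hc (v j * y) (by positivity)
      rw [mul_axis, norm_mul, Complex.norm_real, Real.norm_of_nonneg hv0.le]
      calc v j * ‖R (I * ((v j * y : ℝ) : ℂ))‖ ≤ v j * (β / (v j * y)) := by gcongr
        _ = β / y := by field_simp
    have hre : (f (I * y)).re = 0 := by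
      have h4 : ‖f (I * y)‖ ^ 2 ≤ (β / y) ^ 2 := by
        exact pow_le_pow_left₀ (norm_nonneg _) hnorm 2
      rw [Complex.sq_norm, normSq_apply, him] at h4
      nlinarith [sq_nonneg (f (I * y)).re]
    have hyc : (y:ℂ) ≠ 0 := by exact_mod_cast hy.ne'
    have e : -(β : ℂ) / (I * y) = ((β / y : ℝ) : ℂ) * I := by
      push_cast
      field_simp
      rw [Complex.I_sq]
      ring
    rw [e]
    apply Complex.ext
    · simp [hre]
    · simp [him]
  have hg : DifferentiableOn ℂ (fun W : ℂ => -(β : ℂ) / W) HH := by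
    refine DifferentiableOn.div (differentiableOn_const _) differentiableOn_id ?_
    intro W hW h0
    have : W.im = 0 := by
      have h0' : W = 0 := h0
      rw [h0']; rfl
    have hWi : 0 < W.im := hW
    linarith
  exact hf.congr_right (ident hfd hg haxis)

end

end Hay64
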