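import Pool.Agent.Hay64.Limit
import Mathlib

/-!
# The limit of `L'(vW)/v^2` at a tip
-/

set_option autoImplicit false

open Complex Metric Set Filter Topology
open scoped ComplexConjugate

namespace Hay64

variable {L F G R : ℂ → ℂ} {a β : ℝ}

/-- a function with `|f(iy)| = a y^2` and `|f(W)| ≥ a (Im W)^2` is `κ W^2` -/
theorem eq_sq {f : ℂ → ℂ} (hf : DifferentiableOn ℂ f HH) (ha : 0 < a)
    (h1 : ∀ y : ℝ, 0 < y → ‖f (I * y)‖ = a * y ^ 2)
    (h2 : ∀ W ∈ HH, a * W.im ^ 2 ≤ ‖f W‖) :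
    ∃ κ : ℂ, ‖κ‖ = a ∧ EqOn f (fun W => κ * W ^ 2) HH := by
  have key : ∀ y : ℝ, 0 < y → (I * y) * deriv f (I * y) = 2 * f (I * y) := by
    intro y hy
    have hfd := (hf.differentiableAt (isOpen_HH.mem_nhds (axis_mem hy))).hasDerivAt
    set f0 := f (I * y) with hf0
    set f1 := deriv f (I * y) with hf1
    -- derivative along the horizontal direction
    have hx : HasDerivAt (fun x : ℝ => I * (y:ℂ) + (x:ℂ)) 1 0 := by
      simpa using (Complex.ofRealCLM.hasDerivAt (x := (0:ℝ))).const_add (I * (y:ℂ))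
    have hfx : HasDerivAt (fun x : ℝ => f (I * (y:ℂ) + (x:ℂ))) f1 0 := by
      have hfd' : HasDerivAt f f1 (I * (y:ℂ) + ((0:ℝ):ℂ)) := by simpa using hfd
      exact (hfd'.comp (0:ℝ) hx).congr_deriv (mul_one _)
    have hN1 := hfx.norm_sq
    have hmin : IsLocalMin (fun x : ℝ => ‖f (I * (y:ℂ) + (x:ℂ))‖ ^ 2) 0 := by
      refine Eventually.of_forall fun x => ?_
      have hm : I * (y:ℂ) + (x:ℂ) ∈ HH := by rw [mem_HH]; simpa using hy
      have h3 := h2 _ hm
      have h4 : (I * (y:ℂ) + (x:ℂ)).im = y := by simp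
      rw [h4] at h3
      simp only [Complex.ofReal_zero, add_zero]
      rw [h1 y hy]
      exact pow_le_pow_left₀ (by positivity) h3 2
    have hz1 := hmin.hasDerivAt_eq_zero hN1
    -- derivative along the vertical direction
    have hyd : HasDerivAt (fun t : ℝ => I * (t:ℂ)) I y := by
      simpa using (Complex.ofRealCLM.hasDerivAt (x := y)).const_mul I
    have hfy : HasDerivAt (fun t : ℝ => f (I * (t:ℂ))) (f1 * I) y := hfd.comp y hyd
    have hN2 := hfy.norm_sq
    have hN3 : HasDerivAt (fun t : ℝ => ‖f (I * (t:ℂ))‖ ^ 2) (4 * a ^ 2 * y ^ 3) y := by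
      have h5 : HasDerivAt (fun t : ℝ => a ^ 2 * t ^ 4) (a ^ 2 * (((4:ℕ):ℝ) * y ^ (4 - 1))) y :=
        (hasDerivAt_pow 4 y).const_mul (a ^ 2)
      have h6 : (fun t : ℝ => ‖f (I * (t:ℂ))‖ ^ 2) =ᶠ[𝓝 y] fun t => a ^ 2 * t ^ 4 := by
        filter_upwards [isOpen_Ioi.mem_nhds (show y ∈ Ioi (0:ℝ) from hy)] with t ht
        rw [h1 t ht]; ring
      refine (h5.congr_of_eventuallyEq h6).congr_deriv ?_
      norm_num
      ring
    have hz2 := hN2.unique hN3
    have hn := h1 y hy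
    rw [← hf0] at hn
    have hn2 : f0.re * f0.re + f0.im * f0.im = a ^ 2 * y ^ 4 := by
      have h7 : ‖f0‖ ^ 2 = (a * y ^ 2) ^ 2 := by rw [hn]
      rw [Complex.sq_norm, normSq_apply] at h7
      rw [h7]; ring
    simp only [Complex.ofReal_zero, add_zero, Complex.inner, mul_re, conj_re, conj_im] at hz1
    simp only [Complex.inner, mul_re, mul_im, conj_re, conj_im, I_re, I_im] at hz2
    rw [← hf0] at hz1 hz2
    have e1 : f0.re * f1.re + f0.im * f1.im = 0 := by linarith
    have e2 : f0.im * f1.re - f0.re * f1.im = 2 * a ^ 2 * y ^ 3 := by linarith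
    have ha2 : 0 < a ^ 2 * y ^ 3 := by positivity
    have e3 : f1.re * y = 2 * f0.im := by
      have : (a ^ 2 * y ^ 3) * (f1.re * y) = (a ^ 2 * y ^ 3) * (2 * f0.im) := by
        calc (a ^ 2 * y ^ 3) * (f1.re * y) = f1.re * (a ^ 2 * y ^ 4) := by ring
          _ = f1.re * (f0.re * f0.re + f0.im * f0.im) := by rw [hn2]
          _ = f0.re * (f0.re * f1.re + f0.im * f1.im) +
              f0.im * (f0.im * f1.re - f0.re * f1.im) := by ring
          _ = _ := by rw [e1, e2]; ring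
      exact mul_left_cancel₀ ha2.ne' this
    have e4 : f1.im * y = -(2 * f0.re) := by
      have : (a ^ 2 * y ^ 3) * (f1.im * y) = (a ^ 2 * y ^ 3) * (-(2 * f0.re)) := by
        calc (a ^ 2 * y ^ 3) * (f1.im * y) = f1.im * (a ^ 2 * y ^ 4) := by ring
          _ = f1.im * (f0.re * f0.re + f0.im * f0.im) := by rw [hn2]
          _ = f0.im * (f0.re * f1.re + f0.im * f1.im) -
              f0.re * (f0.im * f1.re - f0.re * f1.im) := by ring
          _ = _ := by rw [e1, e2]; ring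
      exact mul_left_cancel₀ ha2.ne' this
    apply Complex.ext
    · simp only [mul_re, mul_im, I_re, I_im, ofReal_re, ofReal_im, re_ofNat, im_ofNat]
      linarith
    · simp only [mul_re, mul_im, I_re, I_im, ofReal_re, ofReal_im, re_ofNat, im_ofNat]
      linarith
  have hdf : DifferentiableOn ℂ (deriv f) HH := hf.deriv isOpen_HH
  have h3 : EqOn (fun W => W * deriv f W) (fun W => 2 * f W) HH :=
    ident (differentiableOn_id.mul hdf) (hf.const_mul _) key
  have hne : ∀ W ∈ HH, W ≠ 0 := by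
    intro W hW h0
    have : W.im = 0 := by rw [h0]; rfl
    have hWi : 0 < W.im := hW
    linarith
  have hu : ∀ W ∈ HH, HasDerivAt (fun W => f W / W ^ 2) 0 W := by
    intro W hW
    have hW0 := hne W hW
    have h4 := (hf.differentiableAt (isOpen_HH.mem_nhds hW)).hasDerivAt
    have h5 : HasDerivAt (fun W : ℂ => W ^ 2) (((2:ℕ):ℂ) * W ^ (2 - 1)) W := hasDerivAt_pow 2 W
    refine (h4.div h5 (pow_ne_zero 2 hW0)).congr_deriv ?_
    have h6 : W * deriv f W = 2 * f W := h3 hW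
    have h7 : deriv f W * W ^ 2 - f W * (((2:ℕ):ℂ) * W ^ (2 - 1)) = 0 := by
      norm_num
      linear_combination W * h6
    rw [h7, zero_div]
  have hconst : ∀ W ∈ HH, f W / W ^ 2 = f I / I ^ 2 := by
    intro W hW
    exact IsOpen.is_const_of_deriv_eq_zero isOpen_HH convex_HH.isPreconnected
      (fun x hx => (hu x hx).differentiableAt.differentiableWithinAt)
      (fun x hx => (hu x hx).deriv) hW I_mem
  refine ⟨f I / I ^ 2, ?_, ?_⟩
  · have := h1 1 one_pos
    simp only [ofReal_one, mul_one] at this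
    rw [norm_div, norm_pow, Complex.norm_I, this]
    norm_num
  · intro W hW
    have hW0 := hne W hW
    have := hconst W hW
    rw [← this]
    field_simp

section

variable (T : Tip L F G R a β) {v : ℕ → ℝ} (hv : ∀ j, 1 ≤ v j) {U : Ultrafilter ℕ}
  (hvU : Tendsto v (U : Filter ℕ) atTop)

include T hv hvU

theorem Tip.lim_q (hRB : RadBound) : ∃ κ : ℂ, ‖κ‖ = a ∧
    TendstoLocallyUniformlyOn (fun j W => deriv L (v j * W) / (v j : ℂ) ^ 2)
      (fun W => κ * W ^ 2) (U : Filter ℕ) HH := by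
  obtain ⟨f, hf, hfd⟩ := montel isOpen_HH U (T.diff_q hv) (T.LB_q hv hRB)
  have h1 : ∀ y : ℝ, 0 < y → ‖f (I * y)‖ = a * y ^ 2 := by
    intro y hy
    have hlim := (hf.tendsto_at (axis_mem hy)).norm
    have hsc : Tendsto (fun j => v j * y) (U : Filter ℕ) atTop := hvU.atTop_mul_const hy
    have h2 : Tendsto (fun j => ‖deriv L (I * ((v j * y : ℝ) : ℂ))‖ / (v j * y) ^ 2 * y ^ 2)
        (U : Filter ℕ) (𝓝 (a * y ^ 2)) := (T.lim_a.comp hsc).mul_const _
    refine tendsto_nhds_unique hlim (h2.congr fun j => ?_)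
    have hv0 : 0 < v j := lt_of_lt_of_le one_pos (hv j)
    rw [mul_axis, norm_div, norm_pow, Complex.norm_real, Real.norm_of_nonneg hv0.le]
    field_simp
  have h2 : ∀ W ∈ HH, a * W.im ^ 2 ≤ ‖f W‖ := by
    intro W hW
    have hWi : 0 < W.im := hW
    -- the inequality for every η
    have hη : ∀ η : ℝ, 0 < η → η * (a * η ^ 2) ≤
        W.im * ‖f W‖ * (‖I * (η:ℂ) - conj W‖ ^ 2 / (η * W.im)) ^ 3 := by
      intro η hη
      have hl1 : Tendsto (fun j => η * ‖deriv L (v j * (I * η)) / (v j : ℂ) ^ 2‖)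
          (U : Filter ℕ) (𝓝 (η * (a * η ^ 2))) := by
        rw [← h1 η hη]
        exact (hf.tendsto_at (axis_mem hη)).norm.const_mul η
      have hl2 : Tendsto (fun j => W.im * ‖deriv L (v j * W) / (v j : ℂ) ^ 2‖ *
          (‖I * (η:ℂ) - conj W‖ ^ 2 / (η * W.im)) ^ 3) (U : Filter ℕ)
          (𝓝 (W.im * ‖f W‖ * (‖I * (η:ℂ) - conj W‖ ^ 2 / (η * W.im)) ^ 3)) :=
        ((hf.tendsto_at hW).norm.const_mul _).mul_const _
      refine le_of_tendsto_of_tendsto hl1 hl2 (Eventually.of_forall fun j => ?_)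
      have hv0 : 0 < v j := lt_of_lt_of_le one_pos (hv j)
      have h3 := T.ach.growL' hRB (smul_mem hv0 hW) (smul_mem hv0 (axis_mem hη))
      have e2 : (v j:ℂ) * (I * η) - conj (v j * W) = v j * (I * η - conj W) := by
        simp only [map_mul, conj_ofReal]; ring
      rw [e2, im_ofReal_mul, im_ofReal_mul, axis_im, norm_mul, Complex.norm_real,
        Real.norm_of_nonneg hv0.le] at h3
      have e3 : (v j * ‖I * (η:ℂ) - conj W‖) ^ 2 / (v j * η * (v j * W.im)) =
          ‖I * (η:ℂ) - conj W‖ ^ 2 / (η * W.im) := by field_simp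
      rw [e3] at h3
      simp only [norm_div, norm_pow, Complex.norm_real, Real.norm_of_nonneg hv0.le]
      have hv3 : 0 < v j * v j ^ 2 := by positivity
      refine le_of_mul_le_mul_left ?_ hv3
      calc v j * v j ^ 2 * (η * (‖deriv L (v j * (I * η))‖ / v j ^ 2))
          = v j * η * ‖deriv L (v j * (I * η))‖ := by field_simp
        _ ≤ v j * W.im * ‖deriv L (v j * W)‖ *
            (‖I * (η:ℂ) - conj W‖ ^ 2 / (η * W.im)) ^ 3 := h3
        _ = _ := by field_simp
    -- let η → ∞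
    have h4 : ∀ η : ℝ, 0 < η → a * W.im ^ 3 ≤
        W.im * ‖f W‖ * (‖I - conj W * ((1 / η : ℝ) : ℂ)‖ ^ 6) := by
      intro η hη'
      have h5 := hη η hη'
      have hηc : (η:ℂ) ≠ 0 := by exact_mod_cast hη'.ne'
      have e4 : I * (η:ℂ) - conj W = η * (I - conj W * ((1 / η : ℝ) : ℂ)) := by
        push_cast
        field_simp
      rw [e4, norm_mul, Complex.norm_real, Real.norm_of_nonneg hη'.le] at h5
      set X := ‖I - conj W * ((1 / η : ℝ) : ℂ)‖ with hX
      have e5 : W.im * ‖f W‖ * ((η * X) ^ 2 / (η * W.im)) ^ 3 =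
          (W.im * ‖f W‖ * X ^ 6) * (η ^ 3 / W.im ^ 3) := by field_simp
      rw [e5] at h5
      have e6 : η * (a * η ^ 2) = (a * W.im ^ 3) * (η ^ 3 / W.im ^ 3) := by field_simp
      rw [e6] at h5
      exact le_of_mul_le_mul_right h5 (by positivity)
    have h5 : Tendsto (fun η : ℝ => W.im * ‖f W‖ * (‖I - conj W * ((1 / η : ℝ) : ℂ)‖ ^ 6)) atTop
        (𝓝 (W.im * ‖f W‖ * (‖I - conj W * ((0 : ℝ) : ℂ)‖ ^ 6))) := by
      have h6 : Tendsto (fun η : ℝ => (1 / η : ℝ)) atTop (𝓝 0) := by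
        simpa using tendsto_inv_atTop_zero (𝕜 := ℝ)
      have h7 := (Complex.continuous_ofReal.tendsto _).comp h6
      have h8 : Tendsto (fun η : ℝ => I - conj W * ((1 / η : ℝ) : ℂ)) atTop
          (𝓝 (I - conj W * ((0 : ℝ) : ℂ))) := (h7.const_mul (conj W)).const_sub I
      exact (h8.norm.pow 6).const_mul _
    have h6 : a * W.im ^ 3 ≤ W.im * ‖f W‖ := by
      have h7 := ge_of_tendsto h5 (by
        filter_upwards [eventually_gt_atTop (0:ℝ)] with η hη' using h4 η hη')
      simpa using h7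
    have h7 : W.im * (a * W.im ^ 2) ≤ W.im * ‖f W‖ := by linarith
    exact le_of_mul_le_mul_left h7 hWi
  obtain ⟨κ, hκ, hEq⟩ := eq_sq hfd T.a_pos h1 h2
  exact ⟨κ, hκ, hf.congr_right hEq⟩

end

end Hay64
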