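import Pool.Agent.Hay64.Limit2
import Mathlib

/-!
# The limit surface at a tip
-/

set_option autoImplicit false

open Complex Metric Set Filter Topology
open scoped ComplexConjugate

namespace Hay64

variable {L F G R : ℂ → ℂ} {a β : ℝ}

theorem axis_growth {A : ℂ → ℂ} (dA : DifferentiableOn ℂ A HH) {D : ℝ} {k : ℕ} (hD : 0 ≤ D)
    (h : ∀ y : ℝ, 1 ≤ y → ‖deriv A (I * y)‖ ≤ D * y ^ k) (y : ℝ) (hy : 1 ≤ y) :
    ‖A (I * y)‖ ≤ (‖A I‖ + D) * y ^ (k + 1) := by
  have hd : ∀ t ∈ Icc (1:ℝ) y, HasDerivWithinAt (fun t : ℝ => A (I * (t:ℂ)))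
      (deriv A (I * t) * I) (Icc 1 y) t := by
    intro t ht
    have ht0 : 0 < t := by linarith [ht.1]
    have h1 := (dA.differentiableAt (isOpen_HH.mem_nhds (axis_mem ht0))).hasDerivAt
    have h2 : HasDerivAt (fun t : ℝ => I * (t:ℂ)) I t := by
      simpa using (Complex.ofRealCLM.hasDerivAt (x := t)).const_mul I
    exact (h1.comp t h2).hasDerivWithinAt
  have hb : ∀ t ∈ Ico (1:ℝ) y, ‖deriv A (I * t) * I‖ ≤ D * y ^ k := by
    intro t ht
    rw [norm_mul, Complex.norm_I, mul_one]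
    refine (h t ht.1).trans ?_
    have : t ^ k ≤ y ^ k := pow_le_pow_left₀ (by linarith [ht.1]) ht.2.le k
    exact mul_le_mul_of_nonneg_left this hD
  have h3 := norm_image_sub_le_of_norm_deriv_le_segment' hd hb y ⟨hy, le_refl _⟩
  simp only [ofReal_one, mul_one] at h3
  have h4 : ‖A (I * y)‖ ≤ ‖A I‖ + D * y ^ k * (y - 1) := by
    calc ‖A (I * y)‖ = ‖A I + (A (I * y) - A I)‖ := by ring_nf
      _ ≤ ‖A I‖ + ‖A (I * y) - A I‖ := norm_add_le _ _
      _ ≤ _ := by linarith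
  refine h4.trans ?_
  have h5 : 1 ≤ y ^ (k + 1) := one_le_pow₀ hy
  have h6 : ‖A I‖ ≤ ‖A I‖ * y ^ (k + 1) := le_mul_of_one_le_right (norm_nonneg _) h5
  have h7 : D * y ^ k * (y - 1) ≤ D * y ^ (k + 1) := by
    rw [pow_succ]
    have : 0 ≤ D * y ^ k := by positivity
    nlinarith
  linarith

theorem scaled_lim {A : ℂ → ℂ} (dA : DifferentiableOn ℂ A HH) {v : ℕ → ℝ} (hv : ∀ j, 1 ≤ v j)
    {U : Ultrafilter ℕ} (hvU : Tendsto v (U : Filter ℕ) atTop) {k : ℕ} {b : ℂ} {C : ℝ}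
    (h : TendstoLocallyUniformlyOn (fun j W => deriv A (v j * W) / (v j : ℂ) ^ k)
      (fun W => b * (((k + 1 : ℕ) : ℂ) * W ^ k)) (U : Filter ℕ) HH)
    (hC : ∀ y : ℝ, 1 ≤ y → ‖A (I * y)‖ ≤ C * y ^ (k + 1)) :
    TendstoLocallyUniformlyOn (fun j W => A (v j * W) / (v j : ℂ) ^ (k + 1))
      (fun W => b * W ^ (k + 1)) (U : Filter ℕ) HH := by
  have hv0 : ∀ j, 0 < v j := fun j => lt_of_lt_of_le one_pos (hv j)
  -- the value at I
  have hbd : ∀ j, A (v j * I) / (v j : ℂ) ^ (k + 1) ∈ closedBall (0:ℂ) C := by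
    intro j
    rw [mem_closedBall_zero_iff, norm_div, norm_pow, Complex.norm_real,
      Real.norm_of_nonneg (hv0 j).le, mul_comm (v j : ℂ) I, div_le_iff₀ (pow_pos (hv0 j) _)]
    exact hC _ (hv j)
  obtain ⟨A0, hA0⟩ : ∃ A0 : ℂ, Tendsto (fun j => A (v j * I) / (v j : ℂ) ^ (k + 1))
      (U : Filter ℕ) (𝓝 A0) := by
    have h2 : (U.map (fun j => A (v j * I) / (v j : ℂ) ^ (k + 1)) : Filter ℂ) ≤
        𝓟 (closedBall (0:ℂ) C) := by
      rw [le_principal_iff]
      show ∀ᶠ j in (U : Filter ℕ), A (v j * I) / (v j : ℂ) ^ (k + 1) ∈ closedBall (0:ℂ) C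
      exact Eventually.of_forall hbd
    obtain ⟨A0, _, hA⟩ := (isCompact_closedBall (0:ℂ) C).ultrafilter_le_nhds
      (U.map (fun j => A (v j * I) / (v j : ℂ) ^ (k + 1))) h2
    exact ⟨A0, hA⟩
  set C1 : ℂ := A0 - b * I ^ (k + 1) with hC1
  set f : ℂ → ℂ := fun W => b * W ^ (k + 1) + C1 with hf
  have hfd : ∀ W : ℂ, HasDerivAt f (b * (((k + 1 : ℕ) : ℂ) * W ^ k)) W := by
    intro W
    exact ((hasDerivAt_pow (k + 1) W).const_mul b).add_const C1
  have hq : ∀ j, ∀ W ∈ HH, HasDerivAt (fun W => A (v j * W) / (v j : ℂ) ^ (k + 1))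
      (deriv A (v j * W) / (v j : ℂ) ^ k) W := by
    intro j W hW
    refine ((scale_deriv dA (hv0 j) hW).div_const _).congr_deriv ?_
    have : (v j : ℂ) ≠ 0 := by exact_mod_cast (hv0 j).ne'
    field_simp
    ring
  have htlu : TendstoLocallyUniformlyOn (fun j W => A (v j * W) / (v j : ℂ) ^ (k + 1)) f
      (U : Filter ℕ) HH := by
    refine tlu_of_deriv isOpen_HH convex_HH (x0 := I)
      (fun j W hW => (hq j W hW).differentiableAt.differentiableWithinAt)
      (fun W _ => (hfd W).differentiableAt.differentiableWithinAt) ?_ I_mem ?_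
    · refine (h.congr (fun j W hW => ((hq j W hW).deriv).symm)).congr_right ?_
      intro W _
      exact ((hfd W).deriv).symm
    · have : f I = A0 := by simp only [hf, hC1]; ring
      rw [this]
      exact hA0
  have hC1z : C1 = 0 := by
    have hle : ∀ y : ℝ, 0 < y → ‖C1‖ ≤ (C + ‖b‖) * y ^ (k + 1) := by
      intro y hy
      have hlim := (htlu.tendsto_at (axis_mem hy)).norm
      have hsc : Tendsto (fun j => v j * y) (U : Filter ℕ) atTop := hvU.atTop_mul_const hy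
      have h1 : ‖f (I * y)‖ ≤ C * y ^ (k + 1) := by
        refine le_of_tendsto hlim ?_
        filter_upwards [hsc.eventually_ge_atTop 1] with j hj
        have h2 := hC _ hj
        rw [mul_axis, norm_div, norm_pow, Complex.norm_real, Real.norm_of_nonneg (hv0 j).le,
          div_le_iff₀ (pow_pos (hv0 j) _)]
        refine h2.trans (le_of_eq ?_)
        rw [mul_pow]; ring
      have h2 : C1 = f (I * y) - b * (I * y) ^ (k + 1) := by simp only [hf]; ring
      rw [h2]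
      refine (norm_sub_le _ _).trans ?_
      rw [norm_mul, norm_pow, norm_mul, Complex.norm_I, one_mul, Complex.norm_real,
        Real.norm_of_nonneg hy.le]
      linarith
    have hlim : Tendsto (fun y : ℝ => (C + ‖b‖) * y ^ (k + 1)) (𝓝[>] 0) (𝓝 0) := by
      have h3 : Tendsto (fun y : ℝ => (C + ‖b‖) * y ^ (k + 1)) (𝓝 0)
          (𝓝 ((C + ‖b‖) * 0 ^ (k + 1))) := (continuous_const.mul (continuous_pow _)).tendsto 0
      simp only [ne_eq, Nat.add_eq_zero_iff, one_ne_zero, and_false, not_false_eq_true, zero_pow,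
        mul_zero] at h3
      exact h3.mono_left nhdsWithin_le_nhds
    have h4 : ‖C1‖ ≤ 0 := ge_of_tendsto hlim (by
      filter_upwards [self_mem_nhdsWithin] with y hy using hle y hy)
    exact norm_le_zero_iff.1 h4
  refine htlu.congr_right fun W _ => ?_
  simp only [hf, hC1z, add_zero]

section

variable (T : Tip L F G R a β) {v : ℕ → ℝ} (hv : ∀ j, 1 ≤ v j) {U : Ultrafilter ℕ}
  (hvU : Tendsto v (U : Filter ℕ) atTop)

include T

theorem Tip.grow_L (y : ℝ) (hy : 1 ≤ y) : ‖L (I * y)‖ ≤ (‖L I‖ + ‖deriv L I‖) * y ^ (2 + 1) :=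
  axis_growth T.ach.dL (norm_nonneg _) T.le_a y hy

theorem Tip.grow_F (y : ℝ) (hy : 1 ≤ y) :
    ‖F (I * y)‖ ≤ (‖F I‖ + β * ‖deriv L I‖) * y ^ (1 + 1) := by
  refine axis_growth T.ach.dF (mul_nonneg T.β_pos.le (norm_nonneg _)) ?_ y hy
  intro y hy
  have hy0 : 0 < y := by linarith
  have h1 := T.hc y hy0
  have h2 := T.le_a y hy
  have hβ := T.β_pos
  rw [T.ach.hF _ (axis_mem hy0), norm_mul]
  calc ‖R (I * y)‖ * ‖deriv L (I * y)‖ ≤ (β / y) * (‖deriv L I‖ * y ^ 2) := by gcongr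
    _ = β * ‖deriv L I‖ * y ^ 1 := by field_simp

theorem Tip.grow_G (y : ℝ) (hy : 1 ≤ y) :
    ‖G (I * y)‖ ≤ (‖G I‖ + β ^ 2 * ‖deriv L I‖) * y ^ (0 + 1) := by
  refine axis_growth T.ach.dG (mul_nonneg (sq_nonneg _) (norm_nonneg _)) ?_ y hy
  intro y hy
  have hy0 : 0 < y := by linarith
  have h1 := T.hc y hy0
  have h2 := T.le_a y hy
  have hβ := T.β_pos
  rw [T.ach.hG _ (axis_mem hy0), norm_mul, norm_pow]
  calc ‖R (I * y)‖ ^ 2 * ‖deriv L (I * y)‖ ≤ (β / y) ^ 2 * (‖deriv L I‖ * y ^ 2) := by gcongr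
    _ = β ^ 2 * ‖deriv L I‖ * y ^ 0 := by field_simp

include hv hvU

/-- the three limits with a complex parameter -/
theorem Tip.lims0 (hRB : RadBound) : ∃ κ : ℂ, ‖κ‖ = a ∧
    TendstoLocallyUniformlyOn (fun j W => deriv L (v j * W) / (v j : ℂ) ^ 2)
      (fun W => κ * W ^ 2) (U : Filter ℕ) HH ∧
    TendstoLocallyUniformlyOn (fun j W => L (v j * W) / (v j : ℂ) ^ (2 + 1))
      (fun W => κ / 3 * W ^ (2 + 1)) (U : Filter ℕ) HH ∧
    TendstoLocallyUniformlyOn (fun j W => F (v j * W) / (v j : ℂ) ^ (1 + 1))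
      (fun W => -(β * κ) / 2 * W ^ (1 + 1)) (U : Filter ℕ) HH ∧
    TendstoLocallyUniformlyOn (fun j W => G (v j * W) / (v j : ℂ) ^ (0 + 1))
      (fun W => β ^ 2 * κ * W ^ (0 + 1)) (U : Filter ℕ) HH := by
  have hv0 : ∀ j, 0 < v j := fun j => lt_of_lt_of_le one_pos (hv j)
  obtain ⟨κ, hκ, hq⟩ := T.lim_q hv hvU hRB
  have hp := T.lim_p hv hvU
  have LBp := T.LB_p (U := U) hv
  have LBq := T.LB_q (U := U) hv hRB
  have hne : ∀ W ∈ HH, W ≠ 0 := by
    intro W hW h0
    have : W.im = 0 := by rw [h0]; rfl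
    have hWi : 0 < W.im := hW
    linarith
  refine ⟨κ, hκ, hq, ?_, ?_, ?_⟩
  · refine scaled_lim T.ach.dL hv hvU ?_ T.grow_L
    refine hq.congr_right fun W _ => ?_
    push_cast
    ring
  · refine scaled_lim T.ach.dF hv hvU ?_ T.grow_F
    have h1 : TendstoLocallyUniformlyOn
        (fun j W => (v j : ℂ) * R (v j * W) * (deriv L (v j * W) / (v j : ℂ) ^ 2))
        (fun W => -(β : ℂ) / W * (κ * W ^ 2)) (U : Filter ℕ) HH := by
      refine tlu_of_LB isOpen_HH (fun j => (T.diff_p hv j).mul (T.diff_q hv j)) (LBp.mul LBq) ?_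
      intro W hW
      exact (hp.tendsto_at hW).mul (hq.tendsto_at hW)
    refine (h1.congr fun j W hW => ?_).congr_right fun W hW => ?_
    · have hvc : (v j : ℂ) ≠ 0 := by exact_mod_cast (hv0 j).ne'
      show (v j : ℂ) * R (v j * W) * (deriv L (v j * W) / (v j : ℂ) ^ 2) = _
      rw [T.ach.hF _ (smul_mem (hv0 j) hW)]
      field_simp
    · have := hne W hW
      show -(β : ℂ) / W * (κ * W ^ 2) = _
      push_cast
      field_simp
      try ring
  · refine scaled_lim T.ach.dG hv hvU ?_ T.grow_G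
    have h1 : TendstoLocallyUniformlyOn
        (fun j W => (v j : ℂ) * R (v j * W) * ((v j : ℂ) * R (v j * W) *
          (deriv L (v j * W) / (v j : ℂ) ^ 2)))
        (fun W => -(β : ℂ) / W * (-(β : ℂ) / W * (κ * W ^ 2))) (U : Filter ℕ) HH := by
      refine tlu_of_LB isOpen_HH
        (fun j => (T.diff_p hv j).mul ((T.diff_p hv j).mul (T.diff_q hv j)))
        (LBp.mul (LBp.mul LBq)) ?_
      intro W hW
      exact (hp.tendsto_at hW).mul ((hp.tendsto_at hW).mul (hq.tendsto_at hW))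
    refine (h1.congr fun j W hW => ?_).congr_right fun W hW => ?_
    · have hvc : (v j : ℂ) ≠ 0 := by exact_mod_cast (hv0 j).ne'
      show (v j : ℂ) * R (v j * W) * ((v j : ℂ) * R (v j * W) *
          (deriv L (v j * W) / (v j : ℂ) ^ 2)) = _
      rw [T.ach.hG _ (smul_mem (hv0 j) hW)]
      field_simp
    · have := hne W hW
      show -(β : ℂ) / W * (-(β : ℂ) / W * (κ * W ^ 2)) = _
      push_cast
      field_simp
      try ring

end

end Hay64
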