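import Pool.Agent.Hay64.Limit3
import Mathlib

/-!
# The parameter of the limit surface is real
-/

set_option autoImplicit false

open Complex Metric Set Filter Topology
open scoped ComplexConjugate

namespace Hay64

variable {L F G R : ℂ → ℂ} {a β : ℝ}

/-- `K` after scaling -/
theorem K_scale (L F G : ℂ → ℂ) {v : ℝ} (hv : 0 < v) (x y : ℂ) :
    ((F x / (v:ℂ) ^ (1 + 1) - F y / (v:ℂ) ^ (1 + 1)).im) ^ 2 -
      (G x / (v:ℂ) ^ (0 + 1) - G y / (v:ℂ) ^ (0 + 1)).im *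
        (L x / (v:ℂ) ^ (2 + 1) - L y / (v:ℂ) ^ (2 + 1)).im = AllN24.K L F G x y / v ^ 4 := by
  have h : ∀ (z : ℂ) (n : ℕ), (z / (v:ℂ) ^ n).im = z.im / v ^ n := by
    intro z n
    have : (v:ℂ) ^ n = ((v ^ n : ℝ) : ℂ) := by push_cast; rfl
    rw [this, Complex.div_ofReal_im]
  unfold AllN24.K
  rw [← sub_div, ← sub_div, ← sub_div, h, h, h]
  field_simp
  ring

section

variable (T : Tip L F G R a β) {v : ℕ → ℝ} (hv : ∀ j, 1 ≤ v j) {U : Ultrafilter ℕ}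
  (hvU : Tendsto v (U : Filter ℕ) atTop)

include T hv hvU

/-- the three limits, with a real parameter -/
theorem Tip.lims (hRB : RadBound) : ∃ κ : ℝ, |κ| = a ∧
    TendstoLocallyUniformlyOn (fun j W => deriv L (v j * W) / (v j : ℂ) ^ 2)
      (fun W => (κ:ℂ) * W ^ 2) (U : Filter ℕ) HH ∧
    TendstoLocallyUniformlyOn (fun j W => L (v j * W) / (v j : ℂ) ^ (2 + 1))
      (fun W => (κ:ℂ) / 3 * W ^ (2 + 1)) (U : Filter ℕ) HH ∧
    TendstoLocallyUniformlyOn (fun j W => F (v j * W) / (v j : ℂ) ^ (1 + 1))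
      (fun W => -(β * (κ:ℂ)) / 2 * W ^ (1 + 1)) (U : Filter ℕ) HH ∧
    TendstoLocallyUniformlyOn (fun j W => G (v j * W) / (v j : ℂ) ^ (0 + 1))
      (fun W => β ^ 2 * (κ:ℂ) * W ^ (0 + 1)) (U : Filter ℕ) HH := by
  have hv0 : ∀ j, 0 < v j := fun j => lt_of_lt_of_le one_pos (hv j)
  obtain ⟨κ, hκ, hq, hL, hF, hG⟩ := T.lims0 hv hvU hRB
  have hβ := T.β_pos
  -- nonnegativity of the limit form
  have hK : ∀ x ∈ HH, ∀ y ∈ HH, 0 ≤
      ((-(β * κ) / 2 * x ^ (1 + 1) - -(β * κ) / 2 * y ^ (1 + 1)).im) ^ 2 -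
      (β ^ 2 * κ * x ^ (0 + 1) - β ^ 2 * κ * y ^ (0 + 1)).im *
        (κ / 3 * x ^ (2 + 1) - κ / 3 * y ^ (2 + 1)).im := by
    intro x hx y hy
    have h1 := (Complex.continuous_im.tendsto _).comp
      ((hF.tendsto_at hx).sub (hF.tendsto_at hy))
    have h2 := (Complex.continuous_im.tendsto _).comp
      ((hG.tendsto_at hx).sub (hG.tendsto_at hy))
    have h3 := (Complex.continuous_im.tendsto _).comp
      ((hL.tendsto_at hx).sub (hL.tendsto_at hy))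
    refine ge_of_tendsto ((h1.pow 2).sub (h2.mul h3)) (Eventually.of_forall fun j => ?_)
    simp only [Function.comp_apply]
    rw [K_scale L F G (hv0 j)]
    apply div_nonneg _ (by have := hv0 j; positivity)
    rcases eq_or_ne x y with h | h
    · rw [h]; simp [AllN24.K]
    · refine (T.ach.hK _ (smul_mem (hv0 j) hx) _ (smul_mem (hv0 j) hy) ?_).le
      intro he
      have hvc : (v j : ℂ) ≠ 0 := by exact_mod_cast (hv0 j).ne'
      exact h (mul_left_cancel₀ hvc he)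
  -- the points 1 + i ε and -1 + i ε
  have hreal : κ.im = 0 := by
    by_contra hne
    have him : 0 < κ.im ^ 2 := by positivity
    have hS : 0 < κ.re ^ 2 + κ.im ^ 2 := by positivity
    set e2 : ℝ := κ.im ^ 2 / (6 * (κ.re ^ 2 + κ.im ^ 2)) with he2
    have he20 : 0 < e2 := by positivity
    set e : ℝ := Real.sqrt e2 with he
    have he0 : 0 < e := Real.sqrt_pos.2 he20
    have hee : e ^ 2 = e2 := Real.sq_sqrt he20.le
    have hx : (1 + I * (e:ℂ)) ∈ HH := by rw [mem_HH]; simpa using he0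
    have hy : (-1 + I * (e:ℂ)) ∈ HH := by rw [mem_HH]; simpa using he0
    have h1 := hK _ hx _ hy
    have f1 : -(β * κ) / 2 * (1 + I * (e:ℂ)) ^ (1 + 1) -
        -(β * κ) / 2 * (-1 + I * (e:ℂ)) ^ (1 + 1) = ((-(2 * β * e) : ℝ) : ℂ) * (κ * I) := by
      push_cast; ring
    have f2 : β ^ 2 * κ * (1 + I * (e:ℂ)) ^ (0 + 1) - β ^ 2 * κ * (-1 + I * (e:ℂ)) ^ (0 + 1) =
        ((2 * β ^ 2 : ℝ) : ℂ) * κ := by push_cast; ring
    have f3 : κ / 3 * (1 + I * (e:ℂ)) ^ (2 + 1) - κ / 3 * (-1 + I * (e:ℂ)) ^ (2 + 1) =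
        (((2 - 6 * e ^ 2) / 3 : ℝ) : ℂ) * κ := by
      push_cast
      have hI : I ^ 2 = -1 := Complex.I_sq
      linear_combination (κ * 2 * (e:ℂ) ^ 2) * hI
    rw [f1, f2, f3, im_ofReal_mul, im_ofReal_mul, im_ofReal_mul] at h1
    have f4 : (κ * I).im = κ.re := by simp
    rw [f4, hee] at h1
    have h2 : (-(2 * β * e) * κ.re) ^ 2 = 4 * β ^ 2 * e2 * κ.re ^ 2 := by rw [← hee]; ring
    rw [h2] at h1
    have h3 : 4 * β ^ 2 * e2 * κ.re ^ 2 - 2 * β ^ 2 * κ.im * ((2 - 6 * e2) / 3 * κ.im) =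
        4 * β ^ 2 * (e2 * (κ.re ^ 2 + κ.im ^ 2) - κ.im ^ 2 / 3) := by ring
    rw [h3] at h1
    have h4 : e2 * (κ.re ^ 2 + κ.im ^ 2) = κ.im ^ 2 / 6 := by rw [he2]; field_simp
    rw [h4] at h1
    have h5 : 0 < β ^ 2 := by positivity
    nlinarith
  have hκr : ((κ.re : ℝ) : ℂ) = κ := by apply Complex.ext <;> simp [hreal]
  refine ⟨κ.re, ?_, ?_, ?_, ?_, ?_⟩
  · rw [← hκ, ← hκr, Complex.norm_real, Real.norm_eq_abs, ofReal_re]
  · rw [hκr]; exact hq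
  · rw [hκr]; exact hL
  · rw [hκr]; exact hF
  · rw [hκr]; exact hG

end

end Hay64
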