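import Pool.Agent.Hay64.Half
import Mathlib

/-!
# Normal families along an ultrafilter
-/

set_option autoImplicit false

open Complex Metric Set Filter Topology
open scoped ComplexConjugate

namespace Hay64

/-- Montel's theorem along an ultrafilter -/
theorem montel {Ω : Set ℂ} (hΩ : IsOpen Ω) {q : ℕ → ℂ → ℂ} (U : Ultrafilter ℕ)
    (hd : ∀ j, DifferentiableOn ℂ (q j) Ω)
    (hb : ∀ x ∈ Ω, ∃ δ > 0, ∃ M : ℝ, closedBall x δ ⊆ Ω ∧
      ∀ᶠ j in (U : Filter ℕ), ∀ y ∈ closedBall x δ, ‖q j y‖ ≤ M) :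
    ∃ f : ℂ → ℂ, TendstoLocallyUniformlyOn q f (U : Filter ℕ) Ω ∧ DifferentiableOn ℂ f Ω := by
  have hlim : ∀ x ∈ Ω, ∃ A : ℂ, Tendsto (fun j => q j x) (U : Filter ℕ) (𝓝 A) := by
    intro x hx
    obtain ⟨δ, hδ, M, -, hM⟩ := hb x hx
    have h1 : ∀ᶠ j in (U : Filter ℕ), q j x ∈ closedBall (0:ℂ) M := by
      filter_upwards [hM] with j hj
      rw [mem_closedBall_zero_iff]
      exact hj x (mem_closedBall_self hδ.le)
    have h2 : (U.map (fun j => q j x) : Filter ℂ) ≤ 𝓟 (closedBall (0:ℂ) M) := by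
      rw [le_principal_iff]
      exact h1
    obtain ⟨A, _, hA⟩ := (isCompact_closedBall (0:ℂ) M).ultrafilter_le_nhds
      (U.map (fun j => q j x)) h2
    exact ⟨A, hA⟩
  choose! f hf using hlim
  have htlu : TendstoLocallyUniformlyOn q f (U : Filter ℕ) Ω := by
    rw [Metric.tendstoLocallyUniformlyOn_iff]
    intro ε hε x hx
    obtain ⟨δ, hδ, M, hsub, hM⟩ := hb x hx
    have hM0 : 0 ≤ M := by
      obtain ⟨j, hj⟩ := hM.exists
      exact (norm_nonneg _).trans (hj x (mem_closedBall_self hδ.le))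
    set C : ℝ := M / (δ / 2) with hC
    have hC0 : 0 ≤ C := by positivity
    -- Lipschitz bound on the half ball
    have hlip : ∀ᶠ j in (U : Filter ℕ), ∀ y ∈ ball x (δ / 2), ‖q j y - q j x‖ ≤ C * ‖y - x‖ := by
      filter_upwards [hM] with j hj y hy
      have hdj : ∀ w ∈ ball x (δ / 2), DifferentiableAt ℂ (q j) w := fun w hw =>
        (hd j).differentiableAt (hΩ.mem_nhds (hsub (ball_subset_closedBall
          (ball_subset_ball (by linarith) hw))))
      refine Convex.norm_image_sub_le_of_norm_deriv_le hdj ?_ (convex_ball x (δ / 2))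
        (mem_ball_self (by positivity)) hy
      intro w hw
      have hsub2 : closedBall w (δ / 2) ⊆ closedBall x δ := by
        apply closedBall_subset_closedBall'
        rw [mem_ball] at hw
        linarith
      have hdc : DiffContOnCl ℂ (q j) (ball w (δ / 2)) := by
        apply DifferentiableOn.diffContOnCl
        rw [closure_ball w (by positivity)]
        exact (hd j).mono (hsub2.trans hsub)
      exact Complex.norm_deriv_le_of_forall_mem_sphere_norm_le (by positivity) hdc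
        (fun z hz => hj z (hsub2 (sphere_subset_closedBall hz)))
    set ρ : ℝ := min (δ / 2) (ε / (4 * (C + 1))) with hρ
    have hρ0 : 0 < ρ := lt_min (by positivity) (by positivity)
    have hballΩ : ball x (δ / 2) ⊆ Ω := fun w hw =>
      hsub (ball_subset_closedBall (ball_subset_ball (by linarith) hw))
    have hflip : ∀ y ∈ ball x (δ / 2), ‖f y - f x‖ ≤ C * ‖y - x‖ := by
      intro y hy
      have h1 := (hf y (hballΩ hy)).sub (hf x hx)
      refine le_of_tendsto h1.norm ?_
      filter_upwards [hlip] with j hj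
      exact hj y hy
    refine ⟨ball x ρ, mem_nhdsWithin_of_mem_nhds (isOpen_ball.mem_nhds (mem_ball_self hρ0)), ?_⟩
    have hx' : ∀ᶠ j in (U : Filter ℕ), ‖q j x - f x‖ < ε / 4 := by
      have := (Metric.tendsto_nhds.1 (hf x hx)) (ε / 4) (by positivity)
      filter_upwards [this] with j hj
      rwa [dist_eq_norm] at hj
    filter_upwards [hlip, hx'] with j hj1 hj2 y hy
    have hy2 : y ∈ ball x (δ / 2) := ball_subset_ball (min_le_left _ _) hy
    have h1 := hj1 y hy2
    have h2 := hflip y hy2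
    have h3 : C * ‖y - x‖ ≤ ε / 4 := by
      have h4 : ‖y - x‖ ≤ ε / (4 * (C + 1)) := by
        rw [mem_ball, dist_eq_norm] at hy
        exact hy.le.trans (min_le_right _ _)
      calc C * ‖y - x‖ ≤ C * (ε / (4 * (C + 1))) := by gcongr
        _ ≤ (C + 1) * (ε / (4 * (C + 1))) := by
            apply mul_le_mul_of_nonneg_right (by linarith) (by positivity)
        _ = ε / 4 := by field_simp
    rw [dist_eq_norm]
    have e : f y - q j y = (f y - f x) - (q j x - f x) - (q j y - q j x) := by ring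
    rw [e]
    calc ‖(f y - f x) - (q j x - f x) - (q j y - q j x)‖
        ≤ ‖(f y - f x) - (q j x - f x)‖ + ‖q j y - q j x‖ := norm_sub_le _ _
      _ ≤ ‖f y - f x‖ + ‖q j x - f x‖ + ‖q j y - q j x‖ := by
          gcongr; exact norm_sub_le _ _
      _ < ε := by linarith
  exact ⟨f, htlu, htlu.differentiableOn (Eventually.of_forall hd) hΩ⟩

/-- locally uniform convergence from that of the derivatives, on convex open sets -/
theorem tlu_of_deriv {Ω : Set ℂ} (hΩ : IsOpen Ω) (hc : Convex ℝ Ω) {U : Filter ℕ}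
    {q : ℕ → ℂ → ℂ} {f : ℂ → ℂ} (hd : ∀ j, DifferentiableOn ℂ (q j) Ω)
    (hf : DifferentiableOn ℂ f Ω)
    (h : TendstoLocallyUniformlyOn (fun j => deriv (q j)) (deriv f) U Ω) {x0 : ℂ} (hx0 : x0 ∈ Ω)
    (h0 : Tendsto (fun j => q j x0) U (𝓝 (f x0))) : TendstoLocallyUniformlyOn q f U Ω := by
  rw [Metric.tendstoLocallyUniformlyOn_iff]
  intro ε hε x hx
  obtain ⟨δ, hδ, hsub⟩ := Metric.isOpen_iff.1 hΩ x hx
  set δ' := δ / 2 with hδ'
  have hδ'0 : 0 < δ' := by positivity
  have hsub' : closedBall x δ' ⊆ Ω := (closedBall_subset_ball (by linarith)).trans hsub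
  set S : Set ℂ := (fun p : ℝ × ℂ => x0 + p.1 • (p.2 - x0)) '' (Icc (0:ℝ) 1 ×ˢ closedBall x δ')
    with hS
  have hSc : IsCompact S := by
    apply (isCompact_Icc.prod (isCompact_closedBall x δ')).image
    fun_prop
  have hseg : ∀ y ∈ closedBall x δ', segment ℝ x0 y ⊆ S := by
    intro y hy w hw
    rw [segment_eq_image'] at hw
    obtain ⟨t, ht, rfl⟩ := hw
    exact ⟨(t, y), ⟨ht, hy⟩, rfl⟩
  have hSΩ : S ⊆ Ω := by
    rintro w ⟨⟨t, y⟩, ⟨ht, hy⟩, rfl⟩
    have : segment ℝ x0 y ⊆ Ω := hc.segment_subset hx0 (hsub' hy)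
    apply this
    rw [segment_eq_image']
    exact ⟨t, ht, rfl⟩
  have hunif : TendstoUniformlyOn (fun j => deriv (q j)) (deriv f) U S :=
    (tendstoLocallyUniformlyOn_iff_forall_isCompact hΩ).1 h S hSΩ hSc
  set D : ℝ := ‖x - x0‖ + δ' with hD
  have hD0 : 0 < D := by positivity
  have h1 := (Metric.tendstoUniformlyOn_iff.1 hunif) (ε / (2 * D)) (by positivity)
  have h2 := (Metric.tendsto_nhds.1 h0) (ε / 2) (by positivity)
  refine ⟨closedBall x δ', mem_nhdsWithin_of_mem_nhds (closedBall_mem_nhds x hδ'0), ?_⟩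
  filter_upwards [h1, h2] with j hj1 hj2 y hy
  have hd' : ∀ w ∈ segment ℝ x0 y, DifferentiableAt ℂ (fun w => f w - q j w) w := fun w hw =>
    (hf.differentiableAt (hΩ.mem_nhds (hSΩ (hseg y hy hw)))).sub
      ((hd j).differentiableAt (hΩ.mem_nhds (hSΩ (hseg y hy hw))))
  have h3 : ‖(fun w => f w - q j w) y - (fun w => f w - q j w) x0‖ ≤ ε / (2 * D) * ‖y - x0‖ := by
    refine Convex.norm_image_sub_le_of_norm_deriv_le hd' ?_ (convex_segment x0 y)
      (left_mem_segment ℝ x0 y) (right_mem_segment ℝ x0 y)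
    intro w hw
    have hwΩ := hSΩ (hseg y hy hw)
    have e : deriv (fun w => f w - q j w) w = deriv f w - deriv (q j) w :=
      ((hf.differentiableAt (hΩ.mem_nhds hwΩ)).hasDerivAt.sub
        ((hd j).differentiableAt (hΩ.mem_nhds hwΩ)).hasDerivAt).deriv
    rw [e, ← dist_eq_norm]
    exact (hj1 w (hseg y hy hw)).le
  have h4 : ‖y - x0‖ ≤ D := by
    rw [mem_closedBall, dist_eq_norm] at hy
    calc ‖y - x0‖ = ‖(x - x0) + (y - x)‖ := by ring_nf
      _ ≤ ‖x - x0‖ + ‖y - x‖ := norm_add_le _ _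
      _ ≤ D := by rw [hD]; linarith
  have h5 : ε / (2 * D) * ‖y - x0‖ ≤ ε / 2 := by
    calc ε / (2 * D) * ‖y - x0‖ ≤ ε / (2 * D) * D := by gcongr
      _ = ε / 2 := by field_simp
  rw [dist_eq_norm] at hj2 ⊢
  have e2 : f y - q j y = ((f y - q j y) - (f x0 - q j x0)) - (q j x0 - f x0) := by ring
  rw [e2]
  calc ‖((f y - q j y) - (f x0 - q j x0)) - (q j x0 - f x0)‖
      ≤ ‖(f y - q j y) - (f x0 - q j x0)‖ + ‖q j x0 - f x0‖ := norm_sub_le _ _
    _ < ε := by
      simp only at h3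
      linarith

/-- identity theorem from the imaginary axis -/
theorem ident {f g : ℂ → ℂ} (hf : DifferentiableOn ℂ f HH) (hg : DifferentiableOn ℂ g HH)
    (h : ∀ y : ℝ, 0 < y → f (I * y) = g (I * y)) : EqOn f g HH := by
  have hI : I ∈ HH := by rw [mem_HH]; simp
  have ht : Tendsto (fun n : ℕ => I * ((1 + 1 / ((n:ℝ) + 1) : ℝ) : ℂ)) atTop (𝓝[≠] I) := by
    rw [tendsto_nhdsWithin_iff]
    constructor
    · have h1 : Tendsto (fun n : ℕ => (1 + 1 / ((n:ℝ) + 1) : ℝ)) atTop (𝓝 (1 + 0)) :=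
        tendsto_const_nhds.add tendsto_one_div_add_atTop_nhds_zero_nat
      have h2 := (Complex.continuous_ofReal.tendsto _).comp h1
      have h3 := h2.const_mul I
      simpa using h3
    · refine Eventually.of_forall fun n => ?_
      rw [mem_compl_iff, mem_singleton_iff]
      intro he
      have h1 : I * (((1 + 1 / ((n:ℝ) + 1) : ℝ) : ℂ) - 1) = 0 := by linear_combination he
      have h2 := (mul_eq_zero.1 h1).resolve_left Complex.I_ne_zero
      have h3 : ((1 + 1 / ((n:ℝ) + 1) - 1 : ℝ) : ℂ) = 0 := by push_cast; push_cast at h2; exact h2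
      have h4 : (1 + 1 / ((n:ℝ) + 1) - 1 : ℝ) = 0 := by exact_mod_cast h3
      have h5 : (0:ℝ) < 1 / ((n:ℝ) + 1) := by positivity
      linarith
  refine (hf.analyticOnNhd isOpen_HH).eqOn_of_preconnected_of_frequently_eq
    (hg.analyticOnNhd isOpen_HH) convex_HH.isPreconnected hI ?_
  refine ht.frequently (Eventually.frequently (Eventually.of_forall fun n => ?_))
  exact h _ (by positivity)

end Hay64
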