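import Pool.Agent.Hay64.Half
import Pool.Agent.CSH.A2

/-!
# The radial bound for achronal lifts
-/

set_option autoImplicit false

open Complex Metric Set Filter Topology
open scoped ComplexConjugate

namespace Hay64

theorem surf_of_lift {L F G R : ℂ → ℂ} (h : AllN24.AchLift L F G R) :
    Pool.CSH.Surf (ball 0 1) L F G R :=
  ⟨h.dL, h.dF, h.dG, h.dR, h.hF, h.hG, h.hR, h.hL⟩

theorem achr_of_lift {L F G R : ℂ → ℂ} (h : AllN24.AchLift L F G R) :
    Pool.CSH.Achr (ball 0 1) L F G :=
  fun x hx y hy hxy => h.hK x hx y hy hxy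

/-- the radial bound (growth theorem) for all achronal lifts -/
theorem radBound : RadBound := by
  intro L F G R h z hz
  have := Pool.CSH.radial_achr (surf_of_lift h) (achr_of_lift h) z hz
  rw [← mul_assoc]
  exact this

end Hay64
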