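import Pool.Agent.Hay64.Limit4
import Mathlib

/-!
# The shadow lemma

Outside the sector `|Re W| ≤ Im W`, `Im W ≥ 1` the quantity `κ Im L` is bounded below.
-/

set_option autoImplicit false

open Complex Metric Set Filter Topology
open scoped ComplexConjugate

namespace Hay64

/-- points spacelike or null related to all points of the model surface -/
theorem shadow_alg {g f l : ℝ} (hne : g ≠ 0 ∨ f ≠ 0 ∨ l ≠ 0) (hl : l ≤ 0)
    (h : ∀ u v : ℝ, 0 < v → 0 ≤ (f - u * v) ^ 2 - (g - v) * (l - (u ^ 2 * v - v ^ 3 / 3))) :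
    ∃ u v : ℝ, 0 < v ∧ |u| < v ∧ g = v ∧ f = u * v ∧ l = u ^ 2 * v - v ^ 3 / 3 := by
  -- Q(u,v) = g v u^2 - 2 f v u + f^2 - (g - v)(l + v^3/3)
  have hQ : ∀ u v : ℝ, 0 < v → 0 ≤ g * v * u ^ 2 - 2 * f * v * u + f ^ 2 -
      (g - v) * (l + v ^ 3 / 3) := by
    intro u v hv
    have := h u v hv
    nlinarith [this]
  -- g ≥ 0
  have hg0 : 0 ≤ g := by
    by_contra hneg
    push Not at hneg
    -- take v = 1 and u large
    set c := f ^ 2 - (g - 1) * (l + 1 ^ 3 / 3) with hc
    set u : ℝ := (2 * |f| + |c| + 1) / (-g) + 1 with hu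
    have hg' : 0 < -g := by linarith
    have hu1 : 1 ≤ u := by
      rw [hu]
      have : 0 ≤ (2 * |f| + |c| + 1) / (-g) := by positivity
      linarith
    have h1 := hQ u 1 one_pos
    have h2 : (-g) * u ≥ 2 * |f| + |c| + 1 := by
      rw [hu, mul_add, mul_div_cancel₀ _ hg'.ne']
      linarith
    have h3 : -(2 * f * u) ≤ 2 * |f| * u := by
      have := neg_abs_le f
      nlinarith
    have h4 : c ≤ |c| := le_abs_self _
    have h5 : (-g) * u ^ 2 ≥ (2 * |f| + |c| + 1) * u := by nlinarith
    have h6 : |c| * 1 ≤ |c| * u := mul_le_mul_of_nonneg_left hu1 (abs_nonneg _)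
    nlinarith
  rcases hg0.eq_or_lt with hg | hg
  · -- g = 0
    exfalso
    have hg' : g = 0 := hg.symm
    have hf : f = 0 := by
      by_contra hf
      -- choose u with 2 f u large
      set c := f ^ 2 - (g - 1) * (l + 1 ^ 3 / 3) with hc
      have h1 := hQ ((|c| + 1) / (2 * f)) 1 one_pos
      have h2 : 2 * f * 1 * ((|c| + 1) / (2 * f)) = |c| + 1 := by field_simp
      rw [h2, hg'] at h1
      rw [hg'] at hc
      have h4 : c ≤ |c| := le_abs_self _
      have e0 : (0:ℝ) * 1 * ((|c| + 1) / (2 * f)) ^ 2 = 0 := by ring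
      rw [e0] at h1
      linarith
    have hl' : 0 ≤ l := by
      by_contra hneg
      push Not at hneg
      -- v^3/3 < -l/2... choose v = min 1 (-l)
      set v : ℝ := min 1 (-l) with hv
      have hv0 : 0 < v := lt_min one_pos (by linarith)
      have hv1 : v ≤ 1 := min_le_left _ _
      have hv2 : v ≤ -l := min_le_right _ _
      have h1 := hQ 0 v hv0
      rw [hg', hf] at h1
      have h2 : v ^ 3 ≤ v := by
        have : v ^ 2 ≤ 1 := by nlinarith
        nlinarith
      have h3 : l + v ^ 3 / 3 < 0 := by linarith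
      nlinarith
    have hl0 : l = 0 := le_antisymm hl hl'
    rcases hne with h' | h' | h'
    · exact h' hg'
    · exact h' hf
    · exact h' hl0
  · -- g > 0
    set s := f ^ 2 / g - l with hs
    have key : ∀ v : ℝ, 0 < v → 0 ≤ (g - v) * (s - v ^ 3 / 3) := by
      intro v hv
      have h1 := hQ (f / g) v hv
      have e : g * v * (f / g) ^ 2 - 2 * f * v * (f / g) + f ^ 2 - (g - v) * (l + v ^ 3 / 3) =
          (g - v) * (s - v ^ 3 / 3) := by
        rw [hs]; field_simp; ring
      rwa [e] at h1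
    have hs1 : g ^ 3 / 3 ≤ s := by
      -- v → g from below
      have hlim : Tendsto (fun v : ℝ => v ^ 3 / 3) (𝓝[<] g) (𝓝 (g ^ 3 / 3)) := by
        have : Continuous (fun v : ℝ => v ^ 3 / 3) := by fun_prop
        exact (this.tendsto g).mono_left nhdsWithin_le_nhds
      refine le_of_tendsto hlim ?_
      have hpos : ∀ᶠ v in 𝓝[<] g, 0 < v :=
        (isOpen_Ioi.mem_nhds (show g ∈ Ioi (0:ℝ) from hg)) |> fun h => nhdsWithin_le_nhds h
      filter_upwards [self_mem_nhdsWithin, hpos] with v hv hv0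
      have hv' : 0 < g - v := by
        have : v < g := hv
        linarith
      have := key v hv0
      have := nonneg_of_mul_nonneg_right this hv'
      linarith
    have hs2 : s ≤ g ^ 3 / 3 := by
      have hlim : Tendsto (fun v : ℝ => v ^ 3 / 3) (𝓝[>] g) (𝓝 (g ^ 3 / 3)) := by
        have : Continuous (fun v : ℝ => v ^ 3 / 3) := by fun_prop
        exact (this.tendsto g).mono_left nhdsWithin_le_nhds
      refine ge_of_tendsto hlim ?_
      filter_upwards [self_mem_nhdsWithin] with v hv
      have hv' : g < v := hv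
      have h1 := key v (by linarith)
      by_contra hcon
      push Not at hcon
      have : (g - v) * (s - v ^ 3 / 3) < 0 := mul_neg_of_neg_of_pos (by linarith) (by linarith)
      linarith
    have hs3 : s = g ^ 3 / 3 := le_antisymm hs2 hs1
    have hl2 : l = (f / g) ^ 2 * g - g ^ 3 / 3 := by
      have : f ^ 2 / g = (f / g) ^ 2 * g := by field_simp
      rw [← this, ← hs3, hs]; ring
    refine ⟨f / g, g, hg, ?_, rfl, by field_simp, hl2⟩
    have h3 : (f / g) ^ 2 * g ≤ g ^ 3 / 3 := by linarith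
    have h4 : (f / g) ^ 2 ≤ g ^ 2 / 3 := by
      have : (f / g) ^ 2 * g ≤ (g ^ 2 / 3) * g := by nlinarith
      exact le_of_mul_le_mul_right this hg
    have h5 : (f / g) ^ 2 < g ^ 2 := by nlinarith
    exact abs_lt_of_sq_lt_sq h5 hg.le

end Hay64
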