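import Pool.Agent.Hay64.Sign
import Pool.Agent.Hay64.Shadow
import Mathlib

/-!
# The shadow lemma: `κ Im L` is bounded below outside a sector
-/

set_option autoImplicit false

open Complex Metric Set Filter Topology
open scoped ComplexConjugate

namespace Hay64

variable {L F G R : ℂ → ℂ} {a β : ℝ}

theorem model_im3 (κ : ℝ) (W : ℂ) :
    ((κ:ℂ) / 3 * W ^ (2 + 1)).im = κ * (W.re ^ 2 * W.im - W.im ^ 3 / 3) := by
  have e : (κ:ℂ) / 3 * W ^ (2 + 1) = ((κ / 3 : ℝ) : ℂ) * W ^ 3 := by push_cast; ring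
  rw [e, im_ofReal_mul]
  have : (W ^ 3).im = 3 * W.re ^ 2 * W.im - W.im ^ 3 := by
    rw [pow_succ, pow_two]
    simp only [mul_im, mul_re]
    ring
  rw [this]
  ring

theorem model_im2 (β κ : ℝ) (W : ℂ) :
    (-((β:ℂ) * (κ:ℂ)) / 2 * W ^ (1 + 1)).im = -(β * κ) * (W.re * W.im) := by
  have e : -((β:ℂ) * (κ:ℂ)) / 2 * W ^ (1 + 1) = ((-(β * κ) / 2 : ℝ) : ℂ) * W ^ 2 := by
    push_cast; ring
  rw [e, im_ofReal_mul]
  have : (W ^ 2).im = 2 * W.re * W.im := by
    rw [pow_two]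
    simp only [mul_im]
    ring
  rw [this]
  ring

theorem model_im1 (β κ : ℝ) (W : ℂ) :
    ((β:ℂ) ^ 2 * (κ:ℂ) * W ^ (0 + 1)).im = β ^ 2 * κ * W.im := by
  have e : (β:ℂ) ^ 2 * (κ:ℂ) * W ^ (0 + 1) = ((β ^ 2 * κ : ℝ) : ℂ) * W := by push_cast; ring
  rw [e, im_ofReal_mul]

/-- injectivity of the planar model map -/
theorem model_inj {u v u' v' : ℝ} (hv : 0 < v) (hv' : 0 < v') (h1 : u' * v' = u * v)
    (h2 : u' ^ 2 * v' - v' ^ 3 / 3 = u ^ 2 * v - v ^ 3 / 3) : u' = u ∧ v' = v := by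
  have e1 : u' ^ 2 * v' * v = u ^ 2 * v ^ 2 * v / v' := by
    have : u' ^ 2 * v' ^ 2 = u ^ 2 * v ^ 2 := by
      have := congrArg (fun x => x ^ 2) h1
      simp only [mul_pow] at this
      exact this
    rw [eq_div_iff hv'.ne']
    nlinarith [this]
  have key : (v' - v) * (u ^ 2 * v / v' + (v' ^ 2 + v' * v + v ^ 2) / 3) = 0 := by
    have e2 : u' ^ 2 * v' = (u * v) ^ 2 / v' := by
      rw [← h1]; field_simp
    rw [e2] at h2
    have e3 : (u * v) ^ 2 / v' - u ^ 2 * v = -((v' - v) * (u ^ 2 * v / v')) := by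
      field_simp; ring
    have e4 : (v' - v) * ((v' ^ 2 + v' * v + v ^ 2) / 3) = v' ^ 3 / 3 - v ^ 3 / 3 := by ring
    rw [mul_add, e4]
    linarith
  have hpos : 0 < u ^ 2 * v / v' + (v' ^ 2 + v' * v + v ^ 2) / 3 := by positivity
  have hvv : v' = v := by
    have := (mul_eq_zero.1 key).resolve_right hpos.ne'
    linarith
  refine ⟨?_, hvv⟩
  rw [hvv] at h1
  exact mul_right_cancel₀ hv.ne' h1

/-- an interior minimum of the distance to a target is a solution -/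
theorem interior_min (h : AchH L F G R) {v : ℝ} (hv : 0 < v) {f l : ℝ} {W : ℂ} (hW : W ∈ HH)
    {s : Set ℂ} (hs : s ∈ 𝓝 W)
    (hmin : ∀ w ∈ s, ((F (v * W) / (v:ℂ) ^ (1 + 1)).im - f) ^ 2 +
        ((L (v * W) / (v:ℂ) ^ (2 + 1)).im - l) ^ 2 ≤
      ((F (v * w) / (v:ℂ) ^ (1 + 1)).im - f) ^ 2 + ((L (v * w) / (v:ℂ) ^ (2 + 1)).im - l) ^ 2) :
    (F (v * W) / (v:ℂ) ^ (1 + 1)).im = f ∧ (L (v * W) / (v:ℂ) ^ (2 + 1)).im = l := by
  set A := (F (v * W) / (v:ℂ) ^ (1 + 1)).im - f with hA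
  set B := (L (v * W) / (v:ℂ) ^ (2 + 1)).im - l with hB
  have hvc : (v:ℂ) ≠ 0 := by exact_mod_cast hv.ne'
  set p := deriv F (v * W) * v / (v:ℂ) ^ (1 + 1) with hp
  set q := deriv L (v * W) * v / (v:ℂ) ^ (2 + 1) with hq
  have hdF : HasDerivAt (fun W => F (v * W) / (v:ℂ) ^ (1 + 1)) p W :=
    (scale_deriv h.dF hv hW).div_const _
  have hdL : HasDerivAt (fun W => L (v * W) / (v:ℂ) ^ (2 + 1)) q W :=
    (scale_deriv h.dL hv hW).div_const _
  -- directional derivatives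
  have hdir : ∀ e : ℂ, A * (p * e).im + B * (q * e).im = 0 := by
    intro e
    have hline : HasDerivAt (fun t : ℝ => W + (t:ℂ) * e) e 0 := by
      have := ((Complex.ofRealCLM.hasDerivAt (x := (0:ℝ))).mul_const e).const_add W
      simpa using this
    have hW0 : W + ((0:ℝ):ℂ) * e = W := by simp
    have h1 : HasDerivAt (fun t : ℝ => F (v * (W + (t:ℂ) * e)) / (v:ℂ) ^ (1 + 1)) (p * e) 0 := by
      have hd : HasDerivAt (fun W => F (v * W) / (v:ℂ) ^ (1 + 1)) p (W + ((0:ℝ):ℂ) * e) := by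
        rw [hW0]; exact hdF
      exact hd.comp (0:ℝ) hline
    have h2 : HasDerivAt (fun t : ℝ => L (v * (W + (t:ℂ) * e)) / (v:ℂ) ^ (2 + 1)) (q * e) 0 := by
      have hd : HasDerivAt (fun W => L (v * W) / (v:ℂ) ^ (2 + 1)) q (W + ((0:ℝ):ℂ) * e) := by
        rw [hW0]; exact hdL
      exact hd.comp (0:ℝ) hline
    have him : ∀ {k : ℝ → ℂ} {k' : ℂ}, HasDerivAt k k' 0 → HasDerivAt (fun t => (k t).im) k'.im 0 :=
      fun hk => (Complex.imCLM.hasFDerivAt.comp_hasDerivAt (0:ℝ) hk)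
    have h3 := ((him h1).sub_const f).pow 2
    have h4 := ((him h2).sub_const l).pow 2
    have h5 := h3.add h4
    have hloc : IsLocalMin (fun t : ℝ =>
        ((F (v * (W + (t:ℂ) * e)) / (v:ℂ) ^ (1 + 1)).im - f) ^ 2 +
        ((L (v * (W + (t:ℂ) * e)) / (v:ℂ) ^ (2 + 1)).im - l) ^ 2) 0 := by
      have hc : Tendsto (fun t : ℝ => W + (t:ℂ) * e) (𝓝 0) (𝓝 W) := by
        have := hline.continuousAt.tendsto
        rwa [hW0] at this
      filter_upwards [hc.eventually hs] with t ht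
      rw [hW0]
      exact hmin _ ht
    have h6 := hloc.hasDerivAt_eq_zero h5
    simp only [hW0] at h6
    rw [← hA, ← hB] at h6
    simp only [Nat.cast_ofNat, Nat.add_one_sub_one, pow_one] at h6
    linarith
  have h1 := hdir 1
  have h2 := hdir I
  simp only [mul_one, Complex.mul_I_im] at h1 h2
  -- A p + B q = 0
  have h3 : (A:ℂ) * p + (B:ℂ) * q = 0 := by
    apply Complex.ext
    · simp only [add_re, re_ofReal_mul, zero_re]; linarith
    · simp only [add_im, im_ofReal_mul, zero_im]; linarith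
  have hL := h.hL _ (smul_mem hv hW)
  have h4 : (A:ℂ) * v * R (v * W) + B = 0 := by
    rw [hp, hq, h.hF _ (smul_mem hv hW)] at h3
    have h5 : ((A:ℂ) * v * R (v * W) + B) * (deriv L (v * W) / (v:ℂ) ^ 2) = 0 := by
      rw [← h3]
      field_simp
      ring
    refine (mul_eq_zero.1 h5).resolve_right (div_ne_zero hL (pow_ne_zero _ hvc))
  have h5 : ((A:ℂ) * v * R (v * W) + B).im = 0 := by rw [h4]; rfl
  have e5 : (A:ℂ) * v * R (v * W) + B = ((A * v : ℝ) : ℂ) * R (v * W) + (B:ℂ) := by push_cast; ring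
  rw [e5, add_im, im_ofReal_mul, ofReal_im, add_zero] at h5
  have hR := h.hR _ (smul_mem hv hW)
  have hA0 : A = 0 := by
    rcases mul_eq_zero.1 h5 with h6 | h6
    · exact (mul_eq_zero.1 h6).resolve_right hv.ne'
    · exact absurd h6 hR.ne'
  have hB0 : B = 0 := by
    rw [hA0] at h4
    simp only [ofReal_zero, zero_mul, zero_add] at h4
    exact_mod_cast h4
  constructor
  · linarith
  · linarith

end Hay64
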