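import Pool.Agent.Hay64.Shadow2
import Mathlib

/-!
# The shadow lemma: conclusion
-/

set_option autoImplicit false

open Complex Metric Set Filter Topology
open scoped ComplexConjugate

namespace Hay64

variable {L F G R : ℂ → ℂ} {a β : ℝ}

/-- the sector -/
def Sec : Set ℂ := {x : ℂ | |x.re| ≤ x.im ∧ 1 ≤ x.im}

theorem lim_of_Icc {U : Ultrafilter ℕ} {x : ℕ → ℝ} {p q : ℝ} (h : ∀ j, x j ∈ Icc p q) :
    ∃ m ∈ Icc p q, Tendsto x (U : Filter ℕ) (𝓝 m) := by
  have h2 : (U.map x : Filter ℝ) ≤ 𝓟 (Icc p q) := by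
    rw [le_principal_iff]
    show ∀ᶠ j in (U : Filter ℕ), x j ∈ Icc p q
    exact Eventually.of_forall h
  obtain ⟨m, hm, hA⟩ := isCompact_Icc.ultrafilter_le_nhds (U.map x) h2
  exact ⟨m, hm, hA⟩

/-- the scale of a vector -/
theorem exists_scale {g f l : ℝ} {N : ℝ} (hN : 1 ≤ N) (hl : N ^ 3 < |l|) :
    ∃ v : ℝ, N ≤ v ∧ |g| / v ≤ 1 ∧ |f| / v ^ 2 ≤ 1 ∧ |l| / v ^ 3 ≤ 1 ∧
      (|g| / v = 1 ∨ |f| / v ^ 2 = 1 ∨ |l| / v ^ 3 = 1) := by
  set v1 := |g| with hv1
  set v2 := Real.sqrt |f| with hv2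
  set v3 := |l| ^ ((1:ℝ) / 3) with hv3
  have h3 : v3 ^ 3 = |l| := by
    rw [hv3, ← Real.rpow_natCast, ← Real.rpow_mul (abs_nonneg _)]
    norm_num
  have h2 : v2 ^ 2 = |f| := Real.sq_sqrt (abs_nonneg _)
  have h30 : 0 ≤ v3 := Real.rpow_nonneg (abs_nonneg _) _
  have h20 : 0 ≤ v2 := Real.sqrt_nonneg _
  have hN3 : N < v3 := by
    by_contra hcon
    push Not at hcon
    have := pow_le_pow_left₀ h30 hcon 3
    linarith
  set v := max v1 (max v2 v3) with hv
  have hv3' : v3 ≤ v := (le_max_right _ _).trans (le_max_right _ _)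
  have hv2' : v2 ≤ v := (le_max_left _ _).trans (le_max_right _ _)
  have hv1' : v1 ≤ v := le_max_left _ _
  have hv0 : 0 < v := by linarith
  refine ⟨v, by linarith, ?_, ?_, ?_, ?_⟩
  · rw [div_le_one hv0]; exact hv1'
  · rw [div_le_one (by positivity), ← h2]; exact pow_le_pow_left₀ h20 hv2' 2
  · rw [div_le_one (by positivity), ← h3]; exact pow_le_pow_left₀ h30 hv3' 3
  · rcases le_total v1 (max v2 v3) with h | h
    · rcases le_total v2 v3 with h' | h'
      · right; right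
        have : v = v3 := by rw [hv, max_eq_right h, max_eq_right h']
        rw [div_eq_one_iff_eq (by positivity), this, h3]
      · right; left
        have : v = v2 := by rw [hv, max_eq_right h, max_eq_left h']
        rw [div_eq_one_iff_eq (by positivity), this, h2]
    · left
      have : v = v1 := by rw [hv, max_eq_left h]
      rw [div_eq_one_iff_eq hv0.ne', this]

theorem Tip.shadow (T : Tip L F G R a β) {σ : ℝ} (hσ : σ = 1 ∨ σ = -1)
    (hlims : ∀ (v : ℕ → ℝ) (U : Ultrafilter ℕ), (∀ j, 1 ≤ v j) →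
      Tendsto v (U : Filter ℕ) atTop → Lims L F G β (σ * a) v U) :
    ∃ C0 : ℝ, 0 ≤ C0 ∧ ∀ x ∈ HH, x ∉ Sec → -C0 ≤ σ * (L x).im := by
  by_contra hcon
  push Not at hcon
  have ha := T.a_pos
  have hβ := T.β_pos
  have hσ2 : σ * σ = 1 := by rcases hσ with h | h <;> rw [h] <;> norm_num
  have hσa : |σ| = 1 := by rcases hσ with h | h <;> rw [h] <;> norm_num
  set κ : ℝ := σ * a with hκ
  have hκ0 : κ ≠ 0 := mul_ne_zero (by intro h; rw [h] at hσ2; norm_num at hσ2) ha.ne'
  -- the sequence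
  choose x hx using fun j : ℕ => hcon (((j:ℝ) + 1) ^ 3) (by positivity)
  have hxl : ∀ j : ℕ, ((j:ℝ) + 1) ^ 3 < |(L (x j)).im| := by
    intro j
    have h1 := (hx j).2.2
    have h2 : |σ * (L (x j)).im| = |(L (x j)).im| := by rw [abs_mul, hσa, one_mul]
    rw [← h2]
    have := neg_abs_le (σ * (L (x j)).im)
    linarith
  choose v hv using fun j : ℕ => exists_scale (g := (G (x j)).im) (f := (F (x j)).im)
    (l := (L (x j)).im) (N := (j:ℝ) + 1) (by have : (0:ℝ) ≤ j := Nat.cast_nonneg j; linarith)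
    (hxl j)
  have hvN : ∀ j : ℕ, (j:ℝ) + 1 ≤ v j := fun j => (hv j).1
  have hv1 : ∀ j, 1 ≤ v j := fun j => by
    have := hvN j
    have h0 : (0:ℝ) ≤ j := Nat.cast_nonneg j
    linarith
  have hv0 : ∀ j, 0 < v j := fun j => lt_of_lt_of_le one_pos (hv1 j)
  have hvt : Tendsto v atTop atTop := by
    refine tendsto_atTop_mono (fun n => ?_) tendsto_natCast_atTop_atTop
    have := hvN n
    linarith
  set U : Ultrafilter ℕ := hyperfilter ℕ with hU
  have hvU : Tendsto v (U : Filter ℕ) atTop := hvt.mono_left Nat.hyperfilter_le_atTop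
  obtain ⟨-, hL, hF, hG⟩ := hlims v U hv1 hvU
  -- limits of the scaled vectors
  have habs : ∀ (y : ℝ) (k : ℕ) (j : ℕ), |y| / v j ^ k ≤ 1 → y / v j ^ k ∈ Icc (-1:ℝ) 1 := by
    intro y k j h
    have hp : 0 < v j ^ k := pow_pos (hv0 j) k
    rw [mem_Icc, ← abs_le, abs_div, abs_of_pos hp]
    exact h
  obtain ⟨mg, -, hmg⟩ := lim_of_Icc (U := U) (x := fun j => (G (x j)).im / v j ^ 1)
    (fun j => habs _ 1 j (by rw [pow_one]; exact (hv j).2.1))
  obtain ⟨mf, -, hmf⟩ := lim_of_Icc (U := U) (x := fun j => (F (x j)).im / v j ^ 2)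
    (fun j => habs _ 2 j (hv j).2.2.1)
  obtain ⟨ml, -, hml⟩ := lim_of_Icc (U := U) (x := fun j => (L (x j)).im / v j ^ 3)
    (fun j => habs _ 3 j (hv j).2.2.2.1)
  -- the limit vector is not zero
  have hone : max (|mg|) (max |mf| |ml|) = 1 := by
    have h1 := hmg.abs.max (hmf.abs.max hml.abs)
    refine tendsto_nhds_unique h1 (tendsto_const_nhds.congr fun j => ?_)
    obtain ⟨-, h2, h3, h4, h5⟩ := hv j
    have e : ∀ (y : ℝ) (k : ℕ), |y / v j ^ k| = |y| / v j ^ k := by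
      intro y k
      rw [abs_div, abs_of_pos (pow_pos (hv0 j) k)]
    rw [e, e, e, pow_one]
    apply le_antisymm
    · rcases h5 with h5 | h5 | h5
      · exact h5.symm.le.trans (le_max_left _ _)
      · exact h5.symm.le.trans ((le_max_left _ _).trans (le_max_right _ _))
      · exact h5.symm.le.trans ((le_max_right _ _).trans (le_max_right _ _))
    · exact max_le h2 (max_le h3 h4)
  have hne : mg ≠ 0 ∨ mf ≠ 0 ∨ ml ≠ 0 := by
    by_contra h
    push Not at h
    obtain ⟨h1, h2, h3⟩ := h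
    rw [h1, h2, h3] at hone
    simp at hone
  have hmlσ : σ * ml ≤ 0 := by
    refine le_of_tendsto (hml.const_mul σ) (Eventually.of_forall fun j => ?_)
    have h1 := (hx j).2.2
    have h2 : σ * (L (x j)).im ≤ 0 := by
      have : (0:ℝ) ≤ ((j:ℝ) + 1) ^ 3 := by positivity
      linarith
    show σ * ((L (x j)).im / v j ^ 3) ≤ 0
    rw [← mul_div_assoc]
    exact div_nonpos_of_nonpos_of_nonneg h2 (pow_pos (hv0 j) 3).le
  -- im of scaled quantities
  have him : ∀ (z : ℂ) (j n : ℕ), (z / (v j:ℂ) ^ n).im = z.im / v j ^ n := by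
    intro z j n
    have : (v j:ℂ) ^ n = ((v j ^ n : ℝ) : ℂ) := by push_cast; rfl
    rw [this, Complex.div_ofReal_im]
  -- the limit inequality
  have hQ : ∀ W ∈ HH, 0 ≤ (mf - -(β * κ) * (W.re * W.im)) ^ 2 -
      (mg - β ^ 2 * κ * W.im) * (ml - κ * (W.re ^ 2 * W.im - W.im ^ 3 / 3)) := by
    intro W hW
    have h1 := (Complex.continuous_im.tendsto _).comp (hF.tendsto_at hW)
    have h2 := (Complex.continuous_im.tendsto _).comp (hG.tendsto_at hW)
    have h3 := (Complex.continuous_im.tendsto _).comp (hL.tendsto_at hW)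
    rw [model_im2] at h1
    rw [model_im1] at h2
    rw [model_im3] at h3
    refine ge_of_tendsto (((hmf.sub h1).pow 2).sub ((hmg.sub h2).mul (hml.sub h3)))
      (Eventually.of_forall fun j => ?_)
    simp only [Function.comp_apply]
    have h4 := K_scale L F G (hv0 j) (x j) (v j * W)
    simp only [sub_im, him] at h4
    rw [him, him, him]
    simp only [zero_add, Nat.reduceAdd, pow_one] at h4 ⊢
    rw [h4]
    apply div_nonneg _ (by have := hv0 j; positivity)
    rcases eq_or_ne (x j) (v j * W) with h | h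
    · rw [← h]; simp [AllN24.K]
    · exact (T.ach.hK _ (hx j).1 _ (smul_mem (hv0 j) hW) h).le
  -- classification
  obtain ⟨u1, v1, hv10, huv, hgv, hfv, hlv⟩ : ∃ u v : ℝ, 0 < v ∧ |u| < v ∧ mg / (β ^ 2 * κ) = v ∧
      -(mf / (β * κ)) = u * v ∧ ml / κ = u ^ 2 * v - v ^ 3 / 3 := by
    apply shadow_alg
    · rcases hne with h | h | h
      · left; exact div_ne_zero h (mul_ne_zero (pow_ne_zero 2 hβ.ne') hκ0)
      · right; left; exact neg_ne_zero.2 (div_ne_zero h (mul_ne_zero hβ.ne' hκ0))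
      · right; right; exact div_ne_zero h hκ0
    · have e : ml / κ = (σ * ml) / a := by
        rw [hκ, div_eq_div_iff hκ0 ha.ne']
        calc ml * a = (σ * σ) * ml * a := by rw [hσ2, one_mul]
          _ = σ * ml * (σ * a) := by ring
      rw [e]
      exact div_nonpos_of_nonpos_of_nonneg hmlσ ha.le
    · intro u w hw
      have hW : (⟨u, w⟩ : ℂ) ∈ HH := hw
      have h1 := hQ _ hW
      simp only at h1
      have h2 : (-(mf / (β * κ)) - u * w) ^ 2 -
          (mg / (β ^ 2 * κ) - w) * (ml / κ - (u ^ 2 * w - w ^ 3 / 3)) =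
          ((mf - -(β * κ) * (u * w)) ^ 2 -
      (mg - β ^ 2 * κ * w) * (ml - κ * (u ^ 2 * w - w ^ 3 / 3))) / (β ^ 2 * κ ^ 2) := by
        field_simp
        ring
      rw [h2]
      exact div_nonneg h1 (by positivity)
  set W1 : ℂ := ⟨u1, v1⟩ with hW1
  have hW1re : W1.re = u1 := rfl
  have hW1im : W1.im = v1 := rfl
  have hW1H : W1 ∈ HH := hv10
  -- a small closed ball in the open sector
  have hopen : IsOpen {w : ℂ | |w.re| < w.im} :=
    isOpen_lt (continuous_abs.comp Complex.continuous_re) Complex.continuous_im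
  obtain ⟨ρ, hρ, hsub⟩ := Metric.isOpen_iff.1 hopen W1 huv
  set ρ' := ρ / 2 with hρ'
  have hρ'0 : 0 < ρ' := by positivity
  have hsub' : closedBall W1 ρ' ⊆ {w : ℂ | |w.re| < w.im} :=
    (closedBall_subset_ball (by linarith)).trans hsub
  have hsubH : closedBall W1 ρ' ⊆ HH := by
    intro w hw
    have h : |w.re| < w.im := hsub' hw
    show 0 < w.im
    exact lt_of_le_of_lt (abs_nonneg _) h
  -- minimisers
  set Φ : ℕ → ℂ → ℝ := fun j w => ((F (v j * w) / (v j:ℂ) ^ (1 + 1)).im - (F (x j)).im / v j ^ 2) ^ 2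
    + ((L (v j * w) / (v j:ℂ) ^ (2 + 1)).im - (L (x j)).im / v j ^ 3) ^ 2 with hΦ
  have hcont : ∀ j, ContinuousOn (Φ j) (closedBall W1 ρ') := by
    intro j
    have h1 : ContinuousOn (fun w => F (v j * w) / (v j:ℂ) ^ (1 + 1)) (closedBall W1 ρ') :=
      ((scale_diff T.ach.dF (hv0 j)).continuousOn.mono hsubH).div_const _
    have h2 : ContinuousOn (fun w => L (v j * w) / (v j:ℂ) ^ (2 + 1)) (closedBall W1 ρ') :=
      ((scale_diff T.ach.dL (hv0 j)).continuousOn.mono hsubH).div_const _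
    exact (((Complex.continuous_im.comp_continuousOn h1).sub continuousOn_const).pow 2).add
      (((Complex.continuous_im.comp_continuousOn h2).sub continuousOn_const).pow 2)
  choose w hw hwmin using fun j => (isCompact_closedBall W1 ρ').exists_isMinOn
    ⟨W1, mem_closedBall_self hρ'0.le⟩ (hcont j)
  -- limit of the minimisers
  obtain ⟨w', hw', hww'⟩ : ∃ w' ∈ closedBall W1 ρ', Tendsto w (U : Filter ℕ) (𝓝 w') := by
    have h2 : (U.map w : Filter ℂ) ≤ 𝓟 (closedBall W1 ρ') := by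
      rw [le_principal_iff]
      show ∀ᶠ j in (U : Filter ℕ), w j ∈ closedBall W1 ρ'
      exact Eventually.of_forall hw
    obtain ⟨m, hm, hA⟩ := (isCompact_closedBall W1 ρ').ultrafilter_le_nhds (U.map w) h2
    exact ⟨m, hm, hA⟩
  have hw'H : w' ∈ HH := hsubH hw'
  have hwin : Tendsto w (U : Filter ℕ) (𝓝[HH] w') :=
    tendsto_nhdsWithin_iff.2 ⟨hww', Eventually.of_forall fun j => hsubH (hw j)⟩
  have hFw := hF.tendsto_comp (g := w) (x := w') (by fun_prop) hw'H hwin
  have hLw := hL.tendsto_comp (g := w) (x := w') (by fun_prop) hw'H hwin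
  have hFi := (Complex.continuous_im.tendsto _).comp hFw
  have hLi := (Complex.continuous_im.tendsto _).comp hLw
  rw [model_im2] at hFi
  rw [model_im3] at hLi
  have hΦw : Tendsto (fun j => Φ j (w j)) (U : Filter ℕ)
      (𝓝 ((-(β * κ) * (w'.re * w'.im) - mf) ^ 2 +
        (κ * (w'.re ^ 2 * w'.im - w'.im ^ 3 / 3) - ml) ^ 2)) :=
    ((hFi.sub hmf).pow 2).add ((hLi.sub hml).pow 2)
  have hF1 := (Complex.continuous_im.tendsto _).comp (hF.tendsto_at hW1H)
  have hL1 := (Complex.continuous_im.tendsto _).comp (hL.tendsto_at hW1H)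
  rw [model_im2] at hF1
  rw [model_im3] at hL1
  have hΦ1 : Tendsto (fun j => Φ j W1) (U : Filter ℕ)
      (𝓝 ((-(β * κ) * (W1.re * W1.im) - mf) ^ 2 +
        (κ * (W1.re ^ 2 * W1.im - W1.im ^ 3 / 3) - ml) ^ 2)) :=
    ((hF1.sub hmf).pow 2).add ((hL1.sub hml).pow 2)
  have emf : mf = -(β * κ) * (u1 * v1) := by
    have h1 : mf / (β * κ) = -(u1 * v1) := by linarith
    rw [div_eq_iff (mul_ne_zero hβ.ne' hκ0)] at h1
    rw [h1]; ring
  have eml : ml = κ * (u1 ^ 2 * v1 - v1 ^ 3 / 3) := by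
    rw [div_eq_iff hκ0] at hlv
    rw [hlv]; ring
  have hzero : (-(β * κ) * (W1.re * W1.im) - mf) ^ 2 +
        (κ * (W1.re ^ 2 * W1.im - W1.im ^ 3 / 3) - ml) ^ 2 = 0 := by
    rw [hW1re, hW1im, emf, eml]; ring
  rw [hzero] at hΦ1
  have hle0 : (-(β * κ) * (w'.re * w'.im) - mf) ^ 2 +
        (κ * (w'.re ^ 2 * w'.im - w'.im ^ 3 / 3) - ml) ^ 2 ≤ 0 := by
    refine le_of_tendsto_of_tendsto hΦw hΦ1 (Eventually.of_forall fun j => ?_)
    exact hwmin j (mem_closedBall_self hρ'0.le)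
  have hz1 : -(β * κ) * (w'.re * w'.im) - mf = 0 := by
    have h1 := sq_nonneg (-(β * κ) * (w'.re * w'.im) - mf)
    have h2 := sq_nonneg (κ * (w'.re ^ 2 * w'.im - w'.im ^ 3 / 3) - ml)
    exact pow_eq_zero_iff (two_ne_zero) |>.1 (le_antisymm (by linarith) h1)
  have hz2 : κ * (w'.re ^ 2 * w'.im - w'.im ^ 3 / 3) - ml = 0 := by
    have h1 := sq_nonneg (-(β * κ) * (w'.re * w'.im) - mf)
    have h2 := sq_nonneg (κ * (w'.re ^ 2 * w'.im - w'.im ^ 3 / 3) - ml)
    exact pow_eq_zero_iff (two_ne_zero) |>.1 (le_antisymm (by linarith) h2)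
  have hsame := model_inj (u := u1) (v := v1) (u' := w'.re) (v' := w'.im) hv10 hw'H
    (by
      rw [emf] at hz1
      have h3 : (β * κ) * (w'.re * w'.im) = (β * κ) * (u1 * v1) := by linarith
      exact mul_left_cancel₀ (mul_ne_zero hβ.ne' hκ0) h3)
    (by
      rw [eml] at hz2
      have h3 : κ * (w'.re ^ 2 * w'.im - w'.im ^ 3 / 3) = κ * (u1 ^ 2 * v1 - v1 ^ 3 / 3) := by
        linarith
      exact mul_left_cancel₀ hκ0 h3)
  have hw'W1 : w' = W1 := Complex.ext hsame.1 hsame.2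
  rw [hw'W1] at hww'
  -- eventually the minimiser is interior
  have hint : ∀ᶠ j in (U : Filter ℕ), w j ∈ ball W1 ρ' :=
    hww'.eventually (isOpen_ball.mem_nhds (mem_ball_self hρ'0))
  have hbig : ∀ᶠ j in (U : Filter ℕ), 1 ≤ v j * (w j).im := by
    have h1 := (Complex.continuous_im.tendsto _).comp hww'
    have h2 : Tendsto (fun j => v j * (w j).im) (U : Filter ℕ) atTop :=
      hvU.atTop_mul_pos hv10 h1
    exact h2.eventually_ge_atTop 1
  obtain ⟨j, hj1, hj2⟩ := (hint.and hbig).exists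
  have hwj : w j ∈ HH := hsubH (hw j)
  obtain ⟨hf1, hl1⟩ := interior_min T.ach (hv0 j) hwj (s := closedBall W1 ρ')
    (mem_of_superset (isOpen_ball.mem_nhds hj1) ball_subset_closedBall)
    (fun y hy => hwmin j hy)
  rw [him] at hf1 hl1
  have hvp : ∀ n : ℕ, v j ^ n ≠ 0 := fun n => (pow_pos (hv0 j) n).ne'
  have hf2 : (F (v j * w j)).im = (F (x j)).im := by
    have := hf1
    rw [show (1 + 1 : ℕ) = 2 from rfl, div_left_inj' (hvp 2)] at this
    exact this
  have hl2 : (L (v j * w j)).im = (L (x j)).im := by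
    have := hl1
    rw [show (2 + 1 : ℕ) = 3 from rfl, div_left_inj' (hvp 3)] at this
    exact this
  have hxeq : x j = v j * w j := by
    by_contra hne'
    have h1 := T.ach.hK _ (hx j).1 _ (smul_mem (hv0 j) hwj) hne'
    unfold AllN24.K at h1
    rw [sub_im, sub_im, sub_im, hf2, hl2] at h1
    simp at h1
  apply (hx j).2.1
  rw [hxeq]
  have h1 := hsub' (hw j)
  simp only [mem_ofPred_eq] at h1
  constructor
  · rw [re_ofReal_mul, im_ofReal_mul, abs_mul, abs_of_pos (hv0 j)]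
    exact mul_le_mul_of_nonneg_left h1.le (hv0 j).le
  · rw [im_ofReal_mul]; exact hj2

end Hay64
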