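import Pool.Agent.Hay64.Limit4
import Mathlib

/-!
# The sign of the parameter does not depend on the sequence
-/

set_option autoImplicit false

open Complex Metric Set Filter Topology
open scoped ComplexConjugate

namespace Hay64

variable {L F G R : ℂ → ℂ} {a β : ℝ}

/-- all scaled limits with the parameter `κ` -/
def Lims (L F G : ℂ → ℂ) (β κ : ℝ) (v : ℕ → ℝ) (U : Ultrafilter ℕ) : Prop :=
  TendstoLocallyUniformlyOn (fun j W => deriv L (v j * W) / (v j : ℂ) ^ 2)
      (fun W => (κ:ℂ) * W ^ 2) (U : Filter ℕ) HH ∧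
  TendstoLocallyUniformlyOn (fun j W => L (v j * W) / (v j : ℂ) ^ (2 + 1))
      (fun W => (κ:ℂ) / 3 * W ^ (2 + 1)) (U : Filter ℕ) HH ∧
  TendstoLocallyUniformlyOn (fun j W => F (v j * W) / (v j : ℂ) ^ (1 + 1))
      (fun W => -(β * (κ:ℂ)) / 2 * W ^ (1 + 1)) (U : Filter ℕ) HH ∧
  TendstoLocallyUniformlyOn (fun j W => G (v j * W) / (v j : ℂ) ^ (0 + 1))
      (fun W => β ^ 2 * (κ:ℂ) * W ^ (0 + 1)) (U : Filter ℕ) HH

theorem Tip.exists_sign (T : Tip L F G R a β) (hRB : RadBound) :
    ∃ σ : ℝ, (σ = 1 ∨ σ = -1) ∧ ∀ (v : ℕ → ℝ) (U : Ultrafilter ℕ), (∀ j, 1 ≤ v j) →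
      Tendsto v (U : Filter ℕ) atTop → Lims L F G β (σ * a) v U := by
  have ha := T.a_pos
  set g : ℝ → ℝ := fun t => (deriv L (I * t)).re / t ^ 2 with hg
  -- value along sequences
  have hval : ∀ (v : ℕ → ℝ) (U : Ultrafilter ℕ) (κ : ℝ), (∀ j, 1 ≤ v j) →
      TendstoLocallyUniformlyOn (fun j W => deriv L (v j * W) / (v j : ℂ) ^ 2)
        (fun W => (κ:ℂ) * W ^ 2) (U : Filter ℕ) HH →
      Tendsto (fun j => g (v j)) (U : Filter ℕ) (𝓝 (-κ)) := by
    intro v U κ hv h
    have h1 := (Complex.continuous_re.tendsto _).comp (h.tendsto_at I_mem)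
    have e : ((κ:ℂ) * I ^ 2).re = -κ := by rw [Complex.I_sq]; simp
    rw [e] at h1
    refine h1.congr fun j => ?_
    simp only [Function.comp_apply, hg]
    have : (v j : ℂ) ^ 2 = ((v j ^ 2 : ℝ) : ℂ) := by push_cast; rfl
    rw [this, Complex.div_ofReal_re, mul_comm (v j : ℂ) I]
  -- |g| is eventually at least a/2
  have hev : ∀ᶠ t in atTop, a / 2 ≤ |g t| := by
    by_contra hcon
    rw [not_eventually, frequently_atTop] at hcon
    choose w hw using fun n : ℕ => hcon ((n:ℝ) + 1)
    have hw1 : ∀ j, 1 ≤ w j := fun j => by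
      have := (hw j).1
      have h0 : (0:ℝ) ≤ j := Nat.cast_nonneg j
      linarith
    have hwt : Tendsto w atTop atTop := by
      refine tendsto_atTop_mono (fun n => ?_) tendsto_natCast_atTop_atTop
      have := (hw n).1
      linarith
    have hwU : Tendsto w ((hyperfilter ℕ : Ultrafilter ℕ) : Filter ℕ) atTop :=
      hwt.mono_left Nat.hyperfilter_le_atTop
    obtain ⟨κ, hκ, hq, -⟩ := T.lims hw1 hwU hRB
    have h1 := (hval w _ κ hw1 hq).abs
    rw [abs_neg, hκ] at h1
    have h2 : a ≤ a / 2 := le_of_tendsto h1 (Eventually.of_forall fun j => by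
      have := (hw j).2
      push Not at this
      exact this.le)
    linarith
  obtain ⟨V0, hV0⟩ := eventually_atTop.1 hev
  set V := max V0 1 with hV
  have hV1 : 1 ≤ V := le_max_right _ _
  have hgV : ∀ t, V ≤ t → a / 2 ≤ |g t| := fun t ht => hV0 t ((le_max_left _ _).trans ht)
  have hcont : ContinuousOn g (Ici V) := by
    intro t ht
    have ht0 : 0 < t := by
      have : V ≤ t := ht
      linarith
    have hdL : DifferentiableOn ℂ (deriv L) HH := T.ach.dL.deriv isOpen_HH
    have h1 : ContinuousAt (deriv L) (I * t) :=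
      (hdL.differentiableAt (isOpen_HH.mem_nhds (axis_mem ht0))).continuousAt
    have h2 : ContinuousAt (fun t : ℝ => I * (t:ℂ)) t := by fun_prop
    have h3 : ContinuousAt (fun t : ℝ => deriv L (I * (t:ℂ))) t :=
      ContinuousAt.comp (f := fun t : ℝ => I * (t:ℂ)) h1 h2
    have h4 : ContinuousAt (fun t : ℝ => (deriv L (I * (t:ℂ))).re) t :=
      Complex.continuous_re.continuousAt.comp h3
    exact (h4.div (by fun_prop) (by positivity)).continuousWithinAt
  have hne : ∀ t, V ≤ t → g t ≠ 0 := by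
    intro t ht h0
    have := hgV t ht
    rw [h0, abs_zero] at this
    linarith
  -- constant sign
  have hsign : (∀ t, V ≤ t → 0 < g t) ∨ (∀ t, V ≤ t → g t < 0) := by
    rcases lt_or_gt_of_ne (hne V (le_refl _)) with h | h
    · right
      intro t ht
      by_contra hcon
      push Not at hcon
      have hc : ContinuousOn g (Icc V t) := hcont.mono Icc_subset_Ici_self
      obtain ⟨x, hx, hx0⟩ := intermediate_value_Icc ht hc (show (0:ℝ) ∈ Icc (g V) (g t) from
        ⟨h.le, hcon⟩)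
      exact hne x hx.1 hx0
    · left
      intro t ht
      by_contra hcon
      push Not at hcon
      have hc : ContinuousOn g (Icc V t) := hcont.mono Icc_subset_Ici_self
      obtain ⟨x, hx, hx0⟩ := intermediate_value_Icc' ht hc (show (0:ℝ) ∈ Icc (g t) (g V) from
        ⟨hcon, h.le⟩)
      exact hne x hx.1 hx0
  rcases hsign with hs | hs
  · refine ⟨-1, Or.inr rfl, fun v U hv hvU => ?_⟩
    obtain ⟨κ, hκ, hq, hL, hF, hG⟩ := T.lims hv hvU hRB
    have h1 := hval v U κ hv hq
    have h2 : 0 ≤ -κ := ge_of_tendsto h1 (by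
      filter_upwards [hvU.eventually_ge_atTop V] with j hj using (hs _ hj).le)
    have h3 : κ = -1 * a := by rw [← hκ, abs_of_nonpos (by linarith)]; ring
    rw [← h3]
    exact ⟨hq, hL, hF, hG⟩
  · refine ⟨1, Or.inl rfl, fun v U hv hvU => ?_⟩
    obtain ⟨κ, hκ, hq, hL, hF, hG⟩ := T.lims hv hvU hRB
    have h1 := hval v U κ hv hq
    have h2 : -κ ≤ 0 := le_of_tendsto h1 (by
      filter_upwards [hvU.eventually_ge_atTop V] with j hj using (hs _ hj).le)
    have h3 : κ = 1 * a := by rw [← hκ, abs_of_nonneg (by linarith)]; ring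
    rw [← h3]
    exact ⟨hq, hL, hF, hG⟩

end Hay64
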