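import Pool.Agent.Hay64.Axis
import Pool.Agent.Hay64.Montel
import Mathlib

/-!
# The tip of an achronal surface: data at a boundary direction of positive index
-/

set_option autoImplicit false

open Complex Metric Set Filter Topology
open scoped ComplexConjugate

namespace Hay64

variable {L F G R : ℂ → ℂ}

theorem K_shear (L F G : ℂ → ℂ) (c : ℝ) (x y : ℂ) :
    AllN24.K L (fun w => F w - c * L w) (fun w => G w - 2 * c * F w + c ^ 2 * L w) x y =
      AllN24.K L F G x y := by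
  unfold AllN24.K
  have h1 : (F x - c * L x - (F y - c * L y)).im = (F x - F y).im - c * (L x - L y).im := by
    simp only [sub_im, im_ofReal_mul]; ring
  have h2 : (G x - 2 * c * F x + c ^ 2 * L x - (G y - 2 * c * F y + c ^ 2 * L y)).im =
      (G x - G y).im - 2 * c * (F x - F y).im + c ^ 2 * (L x - L y).im := by
    have e : G x - 2 * c * F x + c ^ 2 * L x - (G y - 2 * c * F y + c ^ 2 * L y) =
        (G x - G y) - ((2 * c : ℝ) : ℂ) * (F x - F y) + ((c ^ 2 : ℝ) : ℂ) * (L x - L y) := by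
      push_cast; ring
    rw [e, add_im, sub_im, im_ofReal_mul, im_ofReal_mul]
  rw [h1, h2]
  ring

/-- real shear: `R - c` -/
theorem AchH.shear (h : AchH L F G R) (c : ℝ) :
    AchH L (fun w => F w - c * L w) (fun w => G w - 2 * c * F w + c ^ 2 * L w)
      (fun w => R w - c) := by
  have dF := h.dF
  have dG := h.dG
  have dL := h.dL
  refine ⟨dL, dF.sub (dL.const_mul _), (dG.sub (dF.const_mul _)).add (dL.const_mul _),
    h.dR.sub_const _, ?_, ?_, ?_, h.hL, ?_⟩
  · intro w hw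
    have h1 := (dF.differentiableAt (isOpen_HH.mem_nhds hw)).hasDerivAt
    have h2 := (dL.differentiableAt (isOpen_HH.mem_nhds hw)).hasDerivAt
    have h3 := (h1.sub (h2.const_mul (c:ℂ))).deriv
    have e : deriv (fun w => F w - c * L w) w = deriv F w - c * deriv L w := h3
    rw [e, h.hF w hw]
    ring
  · intro w hw
    have h1 := (dF.differentiableAt (isOpen_HH.mem_nhds hw)).hasDerivAt
    have h2 := (dL.differentiableAt (isOpen_HH.mem_nhds hw)).hasDerivAt
    have h0 := (dG.differentiableAt (isOpen_HH.mem_nhds hw)).hasDerivAt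
    have h3 := ((h0.sub (h1.const_mul (2 * (c:ℂ)))).add (h2.const_mul ((c:ℂ) ^ 2))).deriv
    have e : deriv (fun w => G w - 2 * c * F w + c ^ 2 * L w) w =
        deriv G w - 2 * c * deriv F w + c ^ 2 * deriv L w := h3
    rw [e, h.hF w hw, h.hG w hw]
    ring
  · intro w hw
    simpa using h.hR w hw
  · intro x hx y hy hxy
    rw [K_shear]
    exact h.hK x hx y hy hxy

/-- data at a tip -/
structure Tip (L F G R : ℂ → ℂ) (a β : ℝ) : Prop where
  ach : AchH L F G R
  a_pos : 0 < a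
  β_pos : 0 < β
  lim_a : Tendsto (fun v : ℝ => ‖deriv L (I * v)‖ / v ^ 2) atTop (𝓝 a)
  le_a : ∀ v : ℝ, 1 ≤ v → ‖deriv L (I * v)‖ ≤ ‖deriv L I‖ * v ^ 2
  lim_β : Tendsto (fun v : ℝ => v * (R (I * v)).im) atTop (𝓝 β)
  hc : ∀ v : ℝ, 0 < v → ‖R (I * v)‖ ≤ β / v

theorem AchH.exists_a (h : AchH L F G R) (hRB : RadBound) :
    ∃ a : ℝ, 0 ≤ a ∧ a ≤ ‖deriv L I‖ ∧
      Tendsto (fun v : ℝ => ‖deriv L (I * v)‖ / v ^ 2) atTop (𝓝 a) := by
  have hanti : ∀ v0 v : ℝ, 0 < v0 → v0 ≤ v → ‖deriv L (I * v)‖ / v ^ 2 ≤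
    ‖deriv L (I * v0)‖ / v0 ^ 2 := fun v0 v h0 h1 => h.ax3 hRB h0 h1
  set f : ℝ → ℝ := fun v => ‖deriv L (I * (max v 1 : ℝ))‖ / (max v 1) ^ 2 with hf
  have hf_anti : Antitone f := by
    intro x y hxy
    simp only [hf]
    exact hanti _ _ (by positivity) (max_le_max_right 1 hxy)
  have hbdd : BddBelow (range f) := ⟨0, by rintro _ ⟨x, rfl⟩; simp only [hf]; positivity⟩
  have hlim := tendsto_atTop_ciInf hf_anti hbdd
  refine ⟨⨅ i, f i, ?_, ?_, ?_⟩
  · exact le_ciInf fun x => by simp only [hf]; positivity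
  · refine (ciInf_le hbdd 1).trans ?_
    simp [hf]
  · refine hlim.congr' ?_
    filter_upwards [eventually_ge_atTop (1:ℝ)] with v hv
    simp only [hf, max_eq_left hv]

theorem AchH.exists_tip (h : AchH L F G R) (hRB : RadBound) {a : ℝ} (ha : 0 < a)
    (hlim : Tendsto (fun v : ℝ => ‖deriv L (I * v)‖ / v ^ 2) atTop (𝓝 a)) :
    ∃ (F' G' R' : ℂ → ℂ) (β : ℝ), Tip L F' G' R' a β := by
  have hge : ∀ v : ℝ, 0 < v → a * v ^ 2 ≤ ‖deriv L (I * v)‖ := by
    intro v hv
    have h1 : a ≤ ‖deriv L (I * v)‖ / v ^ 2 := by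
      refine le_of_tendsto hlim ?_
      filter_upwards [eventually_ge_atTop v] with w hw
      exact h.ax3 hRB hv hw
    rwa [le_div_iff₀ (by positivity)] at h1
  have hI : I * ((1:ℝ):ℂ) = I := by simp
  have hle : ∀ v : ℝ, 1 ≤ v → ‖deriv L (I * v)‖ ≤ ‖deriv L I‖ * v ^ 2 := by
    intro v hv
    have h1 := h.ax3 hRB one_pos hv
    rw [hI] at h1
    have hv0 : 0 < v := by linarith
    rw [div_le_iff₀ (by positivity)] at h1
    simpa using h1
  -- bound for v Im R(iv)
  set C0 : ℝ := ‖deriv L I‖ * (R I).im with hC0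
  have hb : ∀ v : ℝ, 1 ≤ v → v * (R (I * v)).im ≤ C0 / a := by
    intro v hv
    have hv0 : 0 < v := by linarith
    have h1 := h.ax1 hRB one_pos hv
    rw [hI, div_one, div_le_iff₀ hv0] at h1
    have h2 := hge v hv0
    have h3 := h.hR _ (axis_mem hv0)
    rw [le_div_iff₀ ha]
    have h4 : (v * (R (I * v)).im * a) * v ≤ C0 * v := by
      calc (v * (R (I * v)).im * a) * v = (a * v ^ 2) * (R (I * v)).im := by ring
        _ ≤ ‖deriv L (I * v)‖ * (R (I * v)).im := by gcongr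
        _ ≤ _ := h1
    exact le_of_mul_le_mul_right h4 hv0
  set f : ℝ → ℝ := fun v => (max v 1) * (R (I * (max v 1 : ℝ))).im with hf
  have hf_mono : Monotone f := by
    intro x y hxy
    simp only [hf]
    exact h.ax2 (by positivity) (max_le_max_right 1 hxy)
  have hbdd : BddAbove (range f) := ⟨C0 / a, by
    rintro _ ⟨x, rfl⟩; simp only [hf]; exact hb _ (le_max_right _ _)⟩
  have hlimf := tendsto_atTop_ciSup hf_mono hbdd
  set β : ℝ := ⨆ i, f i with hβ
  have hβlim : Tendsto (fun v : ℝ => v * (R (I * v)).im) atTop (𝓝 β) := by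
    refine hlimf.congr' ?_
    filter_upwards [eventually_ge_atTop (1:ℝ)] with v hv
    simp only [hf, max_eq_left hv]
  have hβle : ∀ v : ℝ, 0 < v → v * (R (I * v)).im ≤ β := by
    intro v hv
    refine ge_of_tendsto hβlim ?_
    filter_upwards [eventually_ge_atTop v] with w hw
    exact h.ax2 hv hw
  have hβ0 : 0 < β := by
    have h1 := hβle 1 one_pos
    have h2 := h.hR _ (axis_mem one_pos)
    linarith
  -- the limit c of R(iv)
  have hdiff : ∀ v0 v : ℝ, 0 < v0 → v0 ≤ v → ‖R (I * v) - R (I * v0)‖ ≤ β * (1 / v0 - 1 / v) :=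
    fun v0 v h0 h1 => h.ax_diff hβle h0 h1
  have hcau : CauchySeq (fun n : ℕ => R (I * ((n + 1 : ℝ)))) := by
    refine cauchySeq_of_le_tendsto_0 (fun n : ℕ => 2 * (β * (1 / ((n:ℝ) + 1)))) ?_ ?_
    · intro n m N hn hm
      have hN1 : (0:ℝ) < (N:ℝ) + 1 := by positivity
      have key : ∀ k : ℕ, N ≤ k → ‖R (I * ((k + 1 : ℝ))) - R (I * ((N + 1 : ℝ)))‖ ≤
          β * (1 / ((N:ℝ) + 1)) := by
        intro k hk
        have hk' : (N:ℝ) + 1 ≤ (k:ℝ) + 1 := by
          have : (N:ℝ) ≤ k := by exact_mod_cast hk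
          linarith
        have h1 := hdiff ((N:ℝ) + 1) ((k:ℝ) + 1) hN1 hk'
        refine h1.trans ?_
        have : (0:ℝ) < 1 / ((k:ℝ) + 1) := by positivity
        apply mul_le_mul_of_nonneg_left _ hβ0.le
        linarith
      rw [dist_eq_norm]
      have h1 := key n hn
      have h2 := key m hm
      have e : R (I * ((n + 1 : ℝ))) - R (I * ((m + 1 : ℝ))) =
        (R (I * ((n + 1 : ℝ))) - R (I * ((N + 1 : ℝ)))) -
        (R (I * ((m + 1 : ℝ))) - R (I * ((N + 1 : ℝ)))) := by ring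
      rw [e]
      refine (norm_sub_le _ _).trans ?_
      linarith
    · have h1 := (tendsto_one_div_add_atTop_nhds_zero_nat (𝕜 := ℝ)).const_mul β
      have h2 := h1.const_mul 2
      simpa using h2
  obtain ⟨c, hc⟩ := cauchySeq_tendsto_of_complete hcau
  have hcb : ∀ v : ℝ, 0 < v → ‖R (I * v) - c‖ ≤ β / v := by
    intro v hv
    have h1 : Tendsto (fun n : ℕ => ‖R (I * ((n + 1 : ℝ))) - R (I * v)‖) atTop
        (𝓝 ‖c - R (I * v)‖) := (hc.sub_const _).norm
    rw [norm_sub_rev]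
    refine le_of_tendsto h1 ?_
    obtain ⟨N, hN⟩ := exists_nat_ge v
    filter_upwards [eventually_ge_atTop N] with n hn
    have hn' : (N:ℝ) ≤ n := by exact_mod_cast hn
    have h2 := hdiff v ((n:ℝ) + 1) hv (by linarith)
    refine h2.trans ?_
    have : (0:ℝ) < 1 / ((n:ℝ) + 1) := by positivity
    calc β * (1 / v - 1 / ((n:ℝ) + 1)) ≤ β * (1 / v) := by
          apply mul_le_mul_of_nonneg_left _ hβ0.le; linarith
      _ = β / v := by ring
  have hcim : c.im = 0 := by
    have h1 : Tendsto (fun n : ℕ => (R (I * ((n + 1 : ℝ)))).im) atTop (𝓝 c.im) :=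
      (Complex.continuous_im.tendsto c).comp hc
    have h2 : Tendsto (fun n : ℕ => (R (I * ((n + 1 : ℝ)))).im) atTop (𝓝 0) := by
      have h3 := (tendsto_one_div_add_atTop_nhds_zero_nat (𝕜 := ℝ)).const_mul β
      rw [mul_zero] at h3
      refine squeeze_zero (fun n => (h.hR _ ?_).le) (fun n => ?_) h3
      · exact axis_mem (v := (n:ℝ) + 1) (by positivity)
      · have h4 := hβle ((n:ℝ) + 1) (by positivity)
        have h5 : (0:ℝ) < (n:ℝ) + 1 := by positivity
        rw [mul_one_div, le_div_iff₀ h5]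
        linarith
    exact tendsto_nhds_unique h1 h2
  have hcr : ((c.re : ℝ) : ℂ) = c := by
    apply Complex.ext <;> simp [hcim]
  refine ⟨_, _, _, β, ⟨h.shear c.re, ha, hβ0, hlim, hle, ?_, ?_⟩⟩
  · simpa using hβlim
  · intro v hv
    rw [hcr]
    exact hcb v hv

end Hay64
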