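import Pool.Agent.Hay64.Axis
import Pool.Agent.AllN24.KUpper

/-!
# The case of index zero: auxiliary estimates

Transfer of an achronal lift from the disc to the half-plane, the monotone quantities along a
radius, and the upper bound for `K` at a point where `|L'| Im R` is small.
-/

set_option autoImplicit false

open Complex Metric Set Filter Topology
open scoped ComplexConjugate

namespace Hay64

section transfer

theorem zk_psi_hasDerivAt {W0 W : ℂ} (hW0 : W0 ∈ HH) (hW : W ∈ HH) :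
    HasDerivAt (psi W0) ((W0 - conj W0) / (W - conj W0) ^ 2) W := by
  have h1 := den_ne hW0 hW
  have ha : HasDerivAt (fun z : ℂ => z - W0) 1 W := (hasDerivAt_id W).sub_const W0
  have hb : HasDerivAt (fun z : ℂ => z - conj W0) 1 W := (hasDerivAt_id W).sub_const (conj W0)
  have h2 : HasDerivAt (psi W0) _ W := ha.div hb h1
  refine h2.congr_deriv ?_
  congr 1
  ring

theorem zk_I_mem : (I : ℂ) ∈ HH := by simp [mem_HH]

theorem zk_psi_inj {W0 W W' : ℂ} (hW0 : W0 ∈ HH) (hW : W ∈ HH) (hW' : W' ∈ HH)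
    (h : psi W0 W = psi W0 W') : W = W' := by
  rw [← phi_psi hW0 hW, ← phi_psi hW0 hW', h]

variable {L F G R : ℂ → ℂ} {ζ : ℂ}

theorem zk_mem (hζ : ‖ζ‖ = 1) {W : ℂ} (hW : W ∈ HH) : ζ * psi I W ∈ ball (0 : ℂ) 1 := by
  rw [mem_ball_zero_iff, norm_mul, hζ, one_mul]
  exact psi_norm_lt zk_I_mem hW

theorem zk_comp_hasDerivAt {A : ℂ → ℂ} (hA : DifferentiableOn ℂ A (ball 0 1)) (hζ : ‖ζ‖ = 1)
    {W : ℂ} (hW : W ∈ HH) :
    HasDerivAt (fun W => A (ζ * psi I W))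
      (deriv A (ζ * psi I W) * (ζ * ((I - conj I) / (W - conj I) ^ 2))) W :=
  ((hA.differentiableAt (isOpen_ball.mem_nhds (zk_mem hζ hW))).hasDerivAt).comp W
    ((zk_psi_hasDerivAt zk_I_mem hW).const_mul ζ)

theorem zk_comp_diff {A : ℂ → ℂ} (hA : DifferentiableOn ℂ A (ball 0 1)) (hζ : ‖ζ‖ = 1) :
    DifferentiableOn ℂ (fun W => A (ζ * psi I W)) HH := fun _ hW =>
  (zk_comp_hasDerivAt hA hζ hW).differentiableAt.differentiableWithinAt

/-- transfer of an achronal lift from the disc to the half-plane, the point `ζ` goes to `∞` -/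
theorem zk_toH (h : AllN24.AchLift L F G R) (hζ : ‖ζ‖ = 1) :
    AchH (fun W => L (ζ * psi I W)) (fun W => F (ζ * psi I W)) (fun W => G (ζ * psi I W))
      (fun W => R (ζ * psi I W)) := by
  have hζ0 : ζ ≠ 0 := by
    intro h0
    rw [h0] at hζ
    simp at hζ
  refine ⟨zk_comp_diff h.dL hζ, zk_comp_diff h.dF hζ, zk_comp_diff h.dG hζ,
    zk_comp_diff h.dR hζ, ?_, ?_, ?_, ?_, ?_⟩
  · intro w hw
    rw [(zk_comp_hasDerivAt h.dF hζ hw).deriv, (zk_comp_hasDerivAt h.dL hζ hw).deriv,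
      h.hF _ (zk_mem hζ hw)]
    ring
  · intro w hw
    rw [(zk_comp_hasDerivAt h.dG hζ hw).deriv, (zk_comp_hasDerivAt h.dL hζ hw).deriv,
      h.hG _ (zk_mem hζ hw)]
    ring
  · intro w hw
    exact h.hR _ (zk_mem hζ hw)
  · intro w hw
    rw [(zk_comp_hasDerivAt h.dL hζ hw).deriv]
    exact mul_ne_zero (h.hL _ (zk_mem hζ hw))
      (mul_ne_zero hζ0 (div_ne_zero (sub_conj_ne zk_I_mem)
        (pow_ne_zero _ (den_ne zk_I_mem hw))))
  · intro x hx y hy hxy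
    exact h.hK _ (zk_mem hζ hx) _ (zk_mem hζ hy)
      (fun he => hxy (zk_psi_inj zk_I_mem hx hy (mul_left_cancel₀ hζ0 he)))

/-- the hyperbolic size `(1 + t) / (1 - t)` -/
noncomputable def EE (t : ℝ) : ℝ := (1 + t) / (1 - t)

theorem EE_pos {t : ℝ} (h0 : 0 ≤ t) (h1 : t < 1) : 0 < EE t := by
  unfold EE
  exact div_pos (by linarith) (by linarith)

theorem EE_one_le {t : ℝ} (h0 : 0 ≤ t) (h1 : t < 1) : 1 ≤ EE t := by
  unfold EE
  rw [le_div_iff₀ (by linarith)]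
  linarith

theorem EE_mono {s t : ℝ} (_h0 : 0 ≤ s) (hst : s ≤ t) (h1 : t < 1) : EE s ≤ EE t := by
  unfold EE
  rw [div_le_div_iff₀ (by linarith) (by linarith)]
  nlinarith

theorem EE_le {t : ℝ} (_h0 : 0 ≤ t) (h1 : t < 1) : EE t ≤ 2 / (1 - t) := by
  unfold EE
  exact div_le_div_of_nonneg_right (by linarith) (by linarith)

theorem zk_psi_axis {t : ℝ} (_h0 : 0 ≤ t) (h1 : t < 1) :
    psi I (I * ((EE t : ℝ) : ℂ)) = (t : ℂ) := by
  unfold psi EE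
  have h2 : (1 : ℂ) - (t : ℂ) ≠ 0 := by
    have : ((1 - t : ℝ) : ℂ) ≠ 0 := by exact_mod_cast (by linarith : (1 - t : ℝ) ≠ 0)
    simpa using this
  rw [conj_I, sub_neg_eq_add]
  push_cast
  have h3 : I * ((1 + (t : ℂ)) / (1 - t)) + I ≠ 0 := by
    have e : I * ((1 + (t : ℂ)) / (1 - t)) + I = I * (2 / (1 - t)) := by
      field_simp
      ring
    rw [e]
    exact mul_ne_zero I_ne_zero (div_ne_zero two_ne_zero h2)
  rw [div_eq_iff h3]
  field_simp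
  ring

theorem zk_den_axis {t : ℝ} (_h0 : 0 ≤ t) (h1 : t < 1) :
    ‖(I - conj I) / (I * ((EE t : ℝ) : ℂ) - conj I) ^ 2‖ = (1 - t) ^ 2 / 2 := by
  have h2 : (0 : ℝ) < 1 - t := by linarith
  have e1 : I - conj I = ((2 : ℝ) : ℂ) * I := by rw [conj_I]; push_cast; ring
  have e2 : I * ((EE t : ℝ) : ℂ) - conj I = ((EE t + 1 : ℝ) : ℂ) * I := by
    rw [conj_I]; push_cast; ring
  have e3 : EE t + 1 = 2 / (1 - t) := by
    unfold EE
    field_simp
    ring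
  rw [e1, e2, norm_div, norm_pow, norm_mul, norm_mul, Complex.norm_I, mul_one, mul_one,
    Complex.norm_real, Complex.norm_real, e3, Real.norm_of_nonneg (by norm_num),
    Real.norm_of_nonneg (by positivity)]
  field_simp

theorem zk_deriv_axis (h : AllN24.AchLift L F G R) (hζ : ‖ζ‖ = 1) {t : ℝ} (h0 : 0 ≤ t)
    (h1 : t < 1) :
    ‖deriv (fun W => L (ζ * psi I W)) (I * ((EE t : ℝ) : ℂ))‖ =
      ‖deriv L ((t : ℂ) * ζ)‖ * ((1 - t) ^ 2 / 2) := by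
  rw [(zk_comp_hasDerivAt h.dL hζ (axis_mem (EE_pos h0 h1))).deriv, norm_mul, norm_mul, hζ,
    one_mul, zk_den_axis h0 h1, zk_psi_axis h0 h1, mul_comm ζ]

/-- the two-point growth inequality along a radius (inwards) -/
theorem zk_two (h : AllN24.AchLift L F G R) (hRB : RadBound) (hζ : ‖ζ‖ = 1) {s t : ℝ}
    (h0 : 0 ≤ s) (hst : s ≤ t) (h1 : t < 1) :
    (1 - s ^ 2) * (‖deriv L ((s : ℂ) * ζ)‖ * (R ((s : ℂ) * ζ)).im) * EE s ^ 2 ≤
      (1 - t ^ 2) * (‖deriv L ((t : ℂ) * ζ)‖ * (R ((t : ℂ) * ζ)).im) * EE t ^ 2 := by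
  have ht0 : 0 ≤ t := h0.trans hst
  have hs1 : s < 1 := lt_of_le_of_lt hst h1
  have hEs := EE_pos h0 hs1
  have hEt := EE_pos ht0 h1
  have hg := (zk_toH h hζ).grow hRB (axis_mem hEt) (axis_mem hEs)
  rw [psi_norm_symm, axis_q hEs (EE_mono h0 hst h1), axis_im, axis_im,
    zk_deriv_axis h hζ h0 hs1, zk_deriv_axis h hζ ht0 h1] at hg
  simp only [zk_psi_axis h0 hs1, zk_psi_axis ht0 h1] at hg
  rw [mul_comm ζ (s : ℂ), mul_comm ζ (t : ℂ)] at hg
  have hs' : (0 : ℝ) < 1 - s := by linarith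
  have ht' : (0 : ℝ) < 1 - t := by linarith
  have e1 : EE s * (‖deriv L ((s : ℂ) * ζ)‖ * ((1 - s) ^ 2 / 2) * (R ((s : ℂ) * ζ)).im) =
      (1 - s ^ 2) * (‖deriv L ((s : ℂ) * ζ)‖ * (R ((s : ℂ) * ζ)).im) / 2 := by
    unfold EE
    field_simp
    ring
  have e2 : EE t * (‖deriv L ((t : ℂ) * ζ)‖ * ((1 - t) ^ 2 / 2) * (R ((t : ℂ) * ζ)).im) =
      (1 - t ^ 2) * (‖deriv L ((t : ℂ) * ζ)‖ * (R ((t : ℂ) * ζ)).im) / 2 := by
    unfold EE
    field_simp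
    ring
  rw [e1, e2] at hg
  have h3 := mul_le_mul_of_nonneg_right hg (by positivity : 0 ≤ 2 * EE s ^ 2)
  have e3 : (1 - t ^ 2) * (‖deriv L ((t : ℂ) * ζ)‖ * (R ((t : ℂ) * ζ)).im) / 2 *
      (EE t / EE s) ^ 2 * (2 * EE s ^ 2) =
      (1 - t ^ 2) * (‖deriv L ((t : ℂ) * ζ)‖ * (R ((t : ℂ) * ζ)).im) * EE t ^ 2 := by
    field_simp
  rw [e3] at h3
  linarith

/-- the index is the limit of a nonincreasing function on the radius -/
theorem zk_anti (h : AllN24.AchLift L F G R) (hRB : RadBound) (hζ : ‖ζ‖ = 1) {s t : ℝ}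
    (h0 : 0 ≤ s) (hst : s ≤ t) (h1 : t < 1) :
    (1 - t) ^ 4 / (1 + t) ^ 2 * ‖deriv L ((t : ℂ) * ζ)‖ ≤
      (1 - s) ^ 4 / (1 + s) ^ 2 * ‖deriv L ((s : ℂ) * ζ)‖ := by
  have ht0 : 0 ≤ t := h0.trans hst
  have hs1 : s < 1 := lt_of_le_of_lt hst h1
  have hs' : (0 : ℝ) < 1 - s := by linarith
  have ht' : (0 : ℝ) < 1 - t := by linarith
  have hg := (zk_toH h hζ).ax3 hRB (EE_pos h0 hs1) (EE_mono h0 hst h1)
  rw [zk_deriv_axis h hζ h0 hs1, zk_deriv_axis h hζ ht0 h1] at hg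
  have e1 : ‖deriv L ((s : ℂ) * ζ)‖ * ((1 - s) ^ 2 / 2) / EE s ^ 2 =
      (1 - s) ^ 4 / (1 + s) ^ 2 * ‖deriv L ((s : ℂ) * ζ)‖ / 2 := by
    unfold EE
    field_simp
  have e2 : ‖deriv L ((t : ℂ) * ζ)‖ * ((1 - t) ^ 2 / 2) / EE t ^ 2 =
      (1 - t) ^ 4 / (1 + t) ^ 2 * ‖deriv L ((t : ℂ) * ζ)‖ / 2 := by
    unfold EE
    field_simp
  rw [e1, e2] at hg
  linarith

end transfer

section kupper

open AllN24

theorem zk_E3 {a I b J D t s l0 m : ℝ} (ht0 : 0 ≤ t) (ht1 : t < 1) (hs0 : 0 ≤ s) (hs1 : s < 1)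
    (ha : 0 ≤ a) (hb : 0 ≤ b) (hI : 0 < I) (hJ : 0 < J) (hl0 : 0 ≤ l0) (hm : 0 ≤ m)
    (h1 : (1 - t ^ 2) * (a * I) ≤ l0 * EE t ^ 2) (h1' : (1 - t ^ 2) * (a * I) ≤ l0 * m * EE t)
    (h2 : (1 - s ^ 2) * (b * J) ≤ l0 * EE s ^ 2) (h2' : (1 - s ^ 2) * (b * J) ≤ l0 * m * EE s)
    (hD : D * ((1 - t ^ 2) * (1 - s ^ 2)) ≤ 4 * (I * J) * (t - s) ^ 2) :
    a * b * (D + 2 * (I * J)) ≤
      (l0 * m * (1 + t) / (1 - t) ^ 3) * (l0 / (1 - s) ^ 2) +
        (l0 / (1 - t) ^ 2) * (l0 * m * (1 + s) / (1 - s) ^ 3) := by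
  have ht : 0 < 1 - t := by linarith
  have hs : 0 < 1 - s := by linarith
  have ht2 : 0 < 1 - t ^ 2 := by nlinarith
  have hs2 : 0 < 1 - s ^ 2 := by nlinarith
  have hpt : 0 < 1 + t := by linarith
  have hps : 0 < 1 + s := by linarith
  have hEt := EE_pos ht0 ht1
  have hEs := EE_pos hs0 hs1
  set p := (1 - t ^ 2) * (a * I) with hp
  set q := (1 - s ^ 2) * (b * J) with hq
  have hp0 : 0 ≤ p := by positivity
  have hq0 : 0 ≤ q := by positivity
  have e4 : a * b * (D + 2 * (I * J)) ≤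
      (a * b) * ((I * J) * (4 * (t - s) ^ 2 / ((1 - t ^ 2) * (1 - s ^ 2)) + 2)) := by
    have : D ≤ 4 * (I * J) * (t - s) ^ 2 / ((1 - t ^ 2) * (1 - s ^ 2)) := by
      rw [le_div_iff₀ (by positivity)]
      exact hD
    refine mul_le_mul_of_nonneg_left ?_ (by positivity)
    calc D + 2 * (I * J) ≤ 4 * (I * J) * (t - s) ^ 2 / ((1 - t ^ 2) * (1 - s ^ 2)) + 2 * (I * J) := by
          linarith
      _ = _ := by ring
  have e5 : (a * b) * ((I * J) * (4 * (t - s) ^ 2 / ((1 - t ^ 2) * (1 - s ^ 2)) + 2)) =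
      p / (1 - t) ^ 2 * (q / (1 + s) ^ 2) + p / (1 + t) ^ 2 * (q / (1 - s) ^ 2) := by
    have ht2' : (1 - t ^ 2) = (1 - t) * (1 + t) := by ring
    have hs2' : (1 - s ^ 2) = (1 - s) * (1 + s) := by ring
    rw [hp, hq, ht2', hs2']
    field_simp
    ring
  have b1 : p / (1 - t) ^ 2 ≤ l0 * m * (1 + t) / (1 - t) ^ 3 := by
    calc p / (1 - t) ^ 2 ≤ l0 * m * EE t / (1 - t) ^ 2 :=
          div_le_div_of_nonneg_right h1' (by positivity)
      _ = _ := by unfold EE; field_simp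
  have b2 : q / (1 - s) ^ 2 ≤ l0 * m * (1 + s) / (1 - s) ^ 3 := by
    calc q / (1 - s) ^ 2 ≤ l0 * m * EE s / (1 - s) ^ 2 :=
          div_le_div_of_nonneg_right h2' (by positivity)
      _ = _ := by unfold EE; field_simp
  have b3 : q / (1 + s) ^ 2 ≤ l0 / (1 - s) ^ 2 := by
    calc q / (1 + s) ^ 2 ≤ l0 * EE s ^ 2 / (1 + s) ^ 2 :=
          div_le_div_of_nonneg_right h2 (by positivity)
      _ = _ := by unfold EE; field_simp
  have b4 : p / (1 + t) ^ 2 ≤ l0 / (1 - t) ^ 2 := by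
    calc p / (1 + t) ^ 2 ≤ l0 * EE t ^ 2 / (1 + t) ^ 2 :=
          div_le_div_of_nonneg_right h1 (by positivity)
      _ = _ := by unfold EE; field_simp
  refine e4.trans (e5.le.trans ?_)
  exact add_le_add (mul_le_mul b1 b3 (by positivity) (by positivity))
    (mul_le_mul b4 b2 (by positivity) (by positivity))

theorem zk_Jp (c : ℝ) {t : ℝ} (ht : t < 1) :
    HasDerivAt (fun s : ℝ => c * (((1 + s) / (1 - s)) ^ 2 - 1) / 4)
      (c * (1 + t) / (1 - t) ^ 3) t := by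
  have hne : (1 - t) ≠ 0 := by linarith
  have h1 : HasDerivAt (fun s : ℝ => (1 + s) / (1 - s))
      ((1 * (1 - t) - (1 + t) * (-1)) / (1 - t) ^ 2) t :=
    ((hasDerivAt_id t).const_add 1).div ((hasDerivAt_id t).const_sub 1) hne
  have h2 := (((h1.pow 2).sub_const 1).const_mul c).div_const 4
  refine h2.congr_deriv ?_
  have e : (1 * (1 - t) - (1 + t) * (-1)) = 2 := by ring
  rw [e, show (2 - 1 : ℕ) = 1 from rfl, pow_one]
  push_cast
  field_simp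
  ring

/-- Upper bound for `K` at a point of the disc if `|L'| Im R` is small on the radius. -/
theorem zk_upper {L F G R : ℂ → ℂ} (h : AchLift L F G R) {ζ : ℂ} (hζ : ‖ζ‖ = 1) {T l0 m : ℝ}
    (hT0 : 0 ≤ T) (hT1 : T < 1) (hl0 : 0 ≤ l0) (hm : 0 ≤ m)
    (hr : ∀ t : ℝ, 0 ≤ t → t ≤ T →
      (1 - t ^ 2) * (‖deriv L ((t : ℂ) * ζ)‖ * (R ((t : ℂ) * ζ)).im) ≤ l0 * EE t ^ 2)
    (hr' : ∀ t : ℝ, 0 ≤ t → t ≤ T →
      (1 - t ^ 2) * (‖deriv L ((t : ℂ) * ζ)‖ * (R ((t : ℂ) * ζ)).im) ≤ l0 * m * EE t) :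
    K L F G ((T : ℂ) * ζ) 0 ≤ l0 ^ 2 * m * EE T ^ 3 / 8 := by
  have h0mem : (0:ℂ) ∈ ball (0:ℂ) 1 := by simp
  have hmem : ∀ t : ℝ, 0 ≤ t → t < 1 → (t : ℂ) * ζ ∈ ball (0:ℂ) 1 := by
    intro t ht0 ht1
    rw [mem_ball_zero_iff, norm_mul, hζ, mul_one, Complex.norm_real, Real.norm_eq_abs,
      abs_of_nonneg ht0]
    exact ht1
  have hnorm : ∀ t : ℝ, 0 ≤ t → ‖(t : ℂ) * ζ‖ = t := by
    intro t ht0
    rw [norm_mul, hζ, mul_one, Complex.norm_real, Real.norm_eq_abs, abs_of_nonneg ht0]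
  -- the curves
  set l : ℝ → ℝ := fun t => (L ((t : ℂ) * ζ) - L 0).im with hldef
  set f : ℝ → ℝ := fun t => (F ((t : ℂ) * ζ) - F 0).im with hfdef
  set g : ℝ → ℝ := fun t => (G ((t : ℂ) * ζ) - G 0).im with hgdef
  set l' : ℝ → ℝ := fun t => (ζ * deriv L ((t : ℂ) * ζ)).im with hl'def
  set f' : ℝ → ℝ := fun t => (ζ * deriv F ((t : ℂ) * ζ)).im with hf'def
  set g' : ℝ → ℝ := fun t => (ζ * deriv G ((t : ℂ) * ζ)).im with hg'def
  have hl : ∀ t, 0 ≤ t → t < 1 → HasDerivAt l (l' t) t := fun t h0 h1 => ku_deriv h.dL hζ h0 h1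
  have hf : ∀ t, 0 ≤ t → t < 1 → HasDerivAt f (f' t) t := fun t h0 h1 => ku_deriv h.dF hζ h0 h1
  have hg : ∀ t, 0 ≤ t → t < 1 → HasDerivAt g (g' t) t := fun t h0 h1 => ku_deriv h.dG hζ h0 h1
  set Jm : ℝ → ℝ := fun s => l0 * ((1 + s) / (1 - s) - 1) / 2 with hJm
  set Jp : ℝ → ℝ := fun s => l0 * m * (((1 + s) / (1 - s)) ^ 2 - 1) / 4 with hJp
  set jm : ℝ → ℝ := fun t => l0 / (1 - t) ^ 2 with hjm
  set jp : ℝ → ℝ := fun t => l0 * m * (1 + t) / (1 - t) ^ 3 with hjp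
  -- the pointwise inequality
  have hpt : ∀ t s, 0 ≤ t → t ≤ T → 0 ≤ s → s ≤ T →
      2 * (f' t * f' s) - g' t * l' s - g' s * l' t ≤ jp t * jm s + jm t * jp s := by
    intro t s ht0 htT hs0 hsT
    have ht1 : t < 1 := lt_of_le_of_lt htT hT1
    have hs1 : s < 1 := lt_of_le_of_lt hsT hT1
    have hmt := hmem t ht0 ht1
    have hms := hmem s hs0 hs1
    have hnt := hnorm t ht0
    have hns := hnorm s hs0
    have hA := ku_polar (ζ * deriv L ((t : ℂ) * ζ)) (ζ * deriv L ((s : ℂ) * ζ))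
      (R ((t : ℂ) * ζ)) (R ((s : ℂ) * ζ))
    rw [norm_mul, norm_mul, hζ, one_mul, one_mul] at hA
    have eft : f' t = (ζ * deriv L ((t : ℂ) * ζ) * R ((t : ℂ) * ζ)).im := by
      simp only [hf'def]
      rw [h.hF _ hmt]
      congr 1
      ring
    have efs : f' s = (ζ * deriv L ((s : ℂ) * ζ) * R ((s : ℂ) * ζ)).im := by
      simp only [hf'def]
      rw [h.hF _ hms]
      congr 1
      ring
    have egt : g' t = (ζ * deriv L ((t : ℂ) * ζ) * R ((t : ℂ) * ζ) ^ 2).im := by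
      simp only [hg'def]
      rw [h.hG _ hmt]
      congr 1
      ring
    have egs : g' s = (ζ * deriv L ((s : ℂ) * ζ) * R ((s : ℂ) * ζ) ^ 2).im := by
      simp only [hg'def]
      rw [h.hG _ hms]
      congr 1
      ring
    have hSP := schwarz_pick_half h.dR h.hR hmt hms
    rw [hnt, hns] at hSP
    have hdiff : ‖(t : ℂ) * ζ - (s : ℂ) * ζ‖ ^ 2 = (t - s) ^ 2 := by
      rw [← sub_mul, norm_mul, hζ, mul_one, ← Complex.ofReal_sub, Complex.norm_real,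
        Real.norm_eq_abs, sq_abs]
    rw [hdiff] at hSP
    have hE := zk_E3 (a := ‖deriv L ((t : ℂ) * ζ)‖) (b := ‖deriv L ((s : ℂ) * ζ)‖) ht0 ht1 hs0 hs1
      (norm_nonneg _) (norm_nonneg _) (h.hR _ hmt) (h.hR _ hms) hl0 hm (hr t ht0 htT)
      (hr' t ht0 htT) (hr s hs0 hsT) (hr' s hs0 hsT) hSP
    rw [eft, efs, egt, egs]
    simp only [hl'def, hjp, hjm]
    linarith
  -- the inner comparison
  have hQ : ∀ t, 0 ≤ t → t ≤ T →
      2 * (f t * f' t) - g' t * l t - g t * l' t ≤ jp t * Jm t + jm t * Jp t := by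
    intro t ht0 htT
    refine ku_compare (f := fun s => 2 * (f s * f' t) - g' t * l s - g s * l' t)
      (f' := fun s => 2 * (f' s * f' t) - g' t * l' s - g' s * l' t)
      (B := fun s => jp t * Jm s + jm t * Jp s) (B' := fun s => jp t * jm s + jm t * jp s)
      ht0 ?_ ?_ ?_ ?_
    · intro s hs0 hst
      have hs1 : s < 1 := lt_of_le_of_lt (hst.trans htT) hT1
      exact ((((hf s hs0 hs1).mul_const (f' t)).const_mul 2).sub
        ((hl s hs0 hs1).const_mul (g' t))).sub ((hg s hs0 hs1).mul_const (l' t))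
    · intro s hs0 hst
      have hs1 : s < 1 := lt_of_le_of_lt (hst.trans htT) hT1
      exact ((ku_Jm l0 hs1).const_mul (jp t)).add ((zk_Jp (l0 * m) hs1).const_mul (jm t))
    · simp [hldef, hfdef, hgdef, hJm, hJp]
    · intro s hs0 hst
      have := hpt t s ht0 htT hs0 (hst.trans htT)
      linarith
  -- the outer comparison
  have hK : f T ^ 2 - g T * l T ≤ Jp T * Jm T := by
    refine ku_compare (f := fun t => f t ^ 2 - g t * l t)
      (f' := fun t => 2 * (f t * f' t) - g' t * l t - g t * l' t)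
      (B := fun t => Jp t * Jm t) (B' := fun t => jp t * Jm t + jm t * Jp t)
      hT0 ?_ ?_ ?_ ?_
    · intro t ht0 htT
      have ht1 : t < 1 := lt_of_le_of_lt htT hT1
      refine (((hf t ht0 ht1).pow 2).sub ((hg t ht0 ht1).mul (hl t ht0 ht1))).congr_deriv ?_
      push_cast
      ring
    · intro t ht0 htT
      have ht1 : t < 1 := lt_of_le_of_lt htT hT1
      refine ((zk_Jp (l0 * m) ht1).mul (ku_Jm l0 ht1)).congr_deriv ?_
      simp only [hjp, hjm, hJm, hJp]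
      ring
    · simp [hldef, hfdef, hgdef, hJm, hJp]
    · intro t ht0 htT
      exact hQ t ht0 htT
  have hKe : K L F G ((T : ℂ) * ζ) 0 = f T ^ 2 - g T * l T := by
    simp only [K, hldef, hfdef, hgdef]
  rw [hKe]
  refine hK.trans ?_
  have hE1 := EE_one_le hT0 hT1
  have e1 : Jp T * Jm T = l0 ^ 2 * m * ((EE T ^ 2 - 1) * (EE T - 1)) / 8 := by
    simp only [hJp, hJm, EE]
    ring
  rw [e1]
  have h3 : (EE T ^ 2 - 1) * (EE T - 1) ≤ EE T ^ 3 := by nlinarith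
  have h4 : l0 ^ 2 * m * ((EE T ^ 2 - 1) * (EE T - 1)) ≤ l0 ^ 2 * m * EE T ^ 3 :=
    mul_le_mul_of_nonneg_left h3 (by positivity)
  linarith

/-- Upper bound for `K` at a point where `|L'| Im R` is small. -/
theorem zk_small {L F G R : ℂ → ℂ} (h : AchLift L F G R) (hRB : RadBound) {ζ : ℂ} (hζ : ‖ζ‖ = 1)
    {T δ : ℝ} (hT0 : 0 ≤ T) (hT1 : T < 1) (hδ : 0 < δ)
    (hsm : (1 - T ^ 2) * (‖deriv L ((T : ℂ) * ζ)‖ * (R ((T : ℂ) * ζ)).im) ≤
      ‖deriv L 0‖ * (R 0).im * (δ ^ 4 * EE T ^ 2)) :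
    K L F G ((T : ℂ) * ζ) 0 ≤ (‖deriv L 0‖ * (R 0).im) ^ 2 * δ * EE T ^ 4 / 8 := by
  set l0 := ‖deriv L 0‖ * (R 0).im with hl0
  have h0mem : (0:ℂ) ∈ ball (0:ℂ) 1 := by simp
  have hl00 : 0 ≤ l0 := mul_nonneg (norm_nonneg _) (h.hR 0 h0mem).le
  have hET := EE_pos hT0 hT1
  have hr : ∀ t : ℝ, 0 ≤ t → t ≤ T →
      (1 - t ^ 2) * (‖deriv L ((t : ℂ) * ζ)‖ * (R ((t : ℂ) * ζ)).im) ≤ l0 * EE t ^ 2 := by
    intro t ht0 htT
    have hn : ‖(t : ℂ) * ζ‖ = t := by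
      rw [norm_mul, hζ, mul_one, Complex.norm_real, Real.norm_eq_abs, abs_of_nonneg ht0]
    have h1 := hRB L F G R h ((t : ℂ) * ζ) (by
      rw [mem_ball_zero_iff, hn]; exact lt_of_le_of_lt htT hT1)
    rw [hn] at h1
    exact h1
  have h1 := zk_upper h hζ hT0 hT1 hl00 (m := δ * EE T) (by positivity) hr (by
    intro t ht0 htT
    have ht1 : t < 1 := lt_of_le_of_lt htT hT1
    have hEt := EE_pos ht0 ht1
    by_cases hc : EE t ≤ δ * EE T
    · refine (hr t ht0 htT).trans ?_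
      have : EE t * EE t ≤ (δ * EE T) * EE t := mul_le_mul_of_nonneg_right hc hEt.le
      calc l0 * EE t ^ 2 = l0 * (EE t * EE t) := by ring
        _ ≤ l0 * ((δ * EE T) * EE t) := mul_le_mul_of_nonneg_left this hl00
        _ = _ := by ring
    · push Not at hc
      have h2 := zk_two h hRB hζ ht0 htT hT1
      have h3 : (1 - t ^ 2) * (‖deriv L ((t : ℂ) * ζ)‖ * (R ((t : ℂ) * ζ)).im) * EE t ^ 2 ≤
          l0 * (δ * EE T) ^ 4 := by
        refine h2.trans ?_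
        calc (1 - T ^ 2) * (‖deriv L ((T : ℂ) * ζ)‖ * (R ((T : ℂ) * ζ)).im) * EE T ^ 2
            ≤ l0 * (δ ^ 4 * EE T ^ 2) * EE T ^ 2 :=
              mul_le_mul_of_nonneg_right hsm (by positivity)
          _ = _ := by ring
      have hd : 0 ≤ δ * EE T := by positivity
      have h4 : l0 * (δ * EE T) ^ 4 ≤ (l0 * (δ * EE T) * EE t) * EE t ^ 2 := by
        have h5 : (δ * EE T) ^ 3 ≤ EE t ^ 3 := pow_le_pow_left₀ hd hc.le 3
        calc l0 * (δ * EE T) ^ 4 = l0 * (δ * EE T) * (δ * EE T) ^ 3 := by ring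
          _ ≤ l0 * (δ * EE T) * EE t ^ 3 := mul_le_mul_of_nonneg_left h5 (by positivity)
          _ = _ := by ring
      exact le_of_mul_le_mul_right (h3.trans h4) (by positivity))
  refine h1.trans (le_of_eq ?_)
  ring

end kupper

end Hay64
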